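import Pool.Agent.TBA.Stmts

set_option autoImplicit false

open MeasureTheory Filter Topology
open scoped ContDiff

namespace Pool.Agent.TBA

open Pool.Agent.TBG Pool.Agent.TBL Pool.Agent.TBF

namespace EDB_

theorem exi (ι : Type) [Fintype ι] (Ω : Set E) (hΩ : IsOpen Ω) (hne : Ω.Nonempty) :
    ∃ u : (ι → E) → ℝ, Dir Ω u ∧ 0 < ∫ X, u X ^ 2 := by
  obtain ⟨a, ha⟩ := hne
  obtain ⟨ε, hε, hsub⟩ := Metric.isOpen_iff.1 hΩ a ha
  let f : ContDiffBump a := ⟨ε / 4, ε / 2, by positivity, by linarith⟩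
  have hK : IsCompact (Set.pi Set.univ (fun _ : ι => Metric.closedBall a (ε / 2))) :=
    isCompact_univ_pi fun _ => isCompact_closedBall a (ε / 2)
  have hz : ∀ X : ι → E, X ∉ Set.pi Set.univ (fun _ : ι => Metric.closedBall a (ε / 2)) →
      ∏ i, f (X i) = 0 := by
    intro X hX
    by_contra h
    apply hX
    intro i _
    have h1 : f (X i) ≠ 0 := Finset.prod_ne_zero_iff.1 h i (Finset.mem_univ i)
    have h2 : X i ∈ Function.support f := h1
    rw [f.support_eq] at h2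
    exact Metric.ball_subset_closedBall h2
  have hsm : ContDiff ℝ ∞ (fun X : ι → E => ∏ i, f (X i)) := by
    apply contDiff_prod
    intro i _
    exact f.contDiff.comp (contDiff_apply ℝ E i)
  have hcp : HasCompactSupport (fun X : ι → E => ∏ i, f (X i)) := HasCompactSupport.intro hK hz
  refine ⟨fun X => ∏ i, f (X i), ⟨hsm, hcp, ?_⟩, ?_⟩
  · intro X hX i
    have h1 : tsupport (fun X : ι → E => ∏ i, f (X i)) ⊆
        Set.pi Set.univ (fun _ : ι => Metric.closedBall a (ε / 2)) := by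
      apply closure_minimal _ hK.isClosed
      intro Y hY
      by_contra h
      exact hY (hz Y h)
    have h2 := h1 hX i (Set.mem_univ i)
    apply hsub
    rw [Metric.mem_ball]
    have h3 : dist (X i) a ≤ ε / 2 := h2
    linarith
  · refine Continuous.integral_pos_of_hasCompactSupport_nonneg_nonzero (x := fun _ => a)
      (hsm.continuous.pow 2) ?_ (fun X => sq_nonneg _) ?_
    · refine HasCompactSupport.intro hK (fun X hX => ?_)
      change (∏ i, f (X i)) ^ 2 = 0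
      rw [hz X hX]
      norm_num
    · have h1 : f a = 1 := f.one_of_mem_closedBall (by
        rw [Metric.mem_closedBall, dist_self]
        exact f.rIn_pos.le)
      simp only [h1]
      norm_num

end EDB_

theorem edb_proof (hEDI : Stmt_EDI) : Stmt_EDB := by
  intro V ι _ _ Ω hV hΩ hne
  obtain ⟨-, -, -, hu⟩ := hEDI V ι hV
  have hex := EDB_.exi ι Ω hΩ hne
  have hen : ∀ u : (ι → E) → ℝ, Dir Ω u → 0 ≤ en V u := fun u h =>
    ((hu u h.smooth).2.2.2 h.cpt).2.2.2.1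
  have hz : ∀ u : (ι → E) → ℝ, Dir Ω u → (∫ X, u X ^ 2) = 0 → ∀ X, u X = 0 := fun u h =>
    ((hu u h.smooth).2.2.2 h.cpt).2.2.2.2
  have hnn : ∀ u : (ι → E) → ℝ, 0 ≤ ∫ X, u X ^ 2 := fun u => integral_nonneg fun X => sq_nonneg _
  have hlb : ∀ e ∈ {e : ℝ | ∃ u : (ι → E) → ℝ, Dir Ω u ∧ 0 < ∫ X, u X ^ 2 ∧
      e = en V u / ∫ X, u X ^ 2}, 0 ≤ e := by
    rintro e ⟨u, h1, h2, rfl⟩
    exact div_nonneg (hen u h1) h2.le
  have hset : {e : ℝ | ∃ u : (ι → E) → ℝ, Dir Ω u ∧ 0 < ∫ X, u X ^ 2 ∧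
      e = en V u / ∫ X, u X ^ 2}.Nonempty := by
    obtain ⟨u, h1, h2⟩ := hex
    exact ⟨_, u, h1, h2, rfl⟩
  refine ⟨hex, ?_, ?_, ?_⟩
  · exact Real.sInf_nonneg hlb
  · intro u h
    rcases (hnn u).eq_or_lt with h0 | h0
    · rw [← h0, mul_zero]
      exact hen u h
    · have h1 : ED V ι Ω ≤ en V u / ∫ X, u X ^ 2 := csInf_le ⟨0, hlb⟩ ⟨u, h, h0, rfl⟩
      exact (le_div_iff₀ h0).1 h1
  · intro ε hε
    have h1 : ED V ι Ω < ED V ι Ω + ε := by linarith
    obtain ⟨e, ⟨u, h2, h3, rfl⟩, h4⟩ := exists_lt_of_csInf_lt hset h1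
    exact ⟨u, h2, h3, (div_le_iff₀ h3).1 h4.le⟩

end Pool.Agent.TBA
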