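import Pool.Agent.TBA.Stmts

/-! # Squad TBA, module EDE: the energy depends only on the number of particles -/

set_option autoImplicit false

open MeasureTheory Filter Topology
open scoped ContDiff

namespace Pool.Agent.TBA

open Pool.Agent.TBG Pool.Agent.TBL Pool.Agent.TBF

theorem ede_proof (hREN : Stmt_REN) : Stmt_EDE := by
  intro V ι κ _ _ _ _ Ω hc
  have key : ∀ (ι κ : Type) [Fintype ι] [DecidableEq ι] [Fintype κ] [DecidableEq κ] (_ : ι ≃ κ) (a : ℝ),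
      (∃ u : (κ → E) → ℝ, Dir Ω u ∧ 0 < ∫ X, u X ^ 2 ∧ a = en V u / ∫ X, u X ^ 2) →
      ∃ u : (ι → E) → ℝ, Dir Ω u ∧ 0 < ∫ X, u X ^ 2 ∧ a = en V u / ∫ X, u X ^ 2 := by
    intro ι κ _ _ _ _ e a h
    obtain ⟨u, hu, hI, ha⟩ := h
    obtain ⟨h1, h2, h3, -, h5, h6⟩ := hREN V ι κ e u hu.smooth
    refine ⟨fun X : ι → E => u (fun k => X (e.symm k)), ⟨h1, h2 hu.cpt, fun X hX i => ?_⟩, ?_, ?_⟩
    · have := hu.supp _ (h3 X hX) (e i)
      simpa using this
    · rw [h6]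
      exact hI
    · rw [h5, h6]
      exact ha
  have e : ι ≃ κ := Fintype.equivOfCardEq hc
  unfold ED
  congr 1
  ext a
  exact ⟨key κ ι e.symm a, key ι κ e a⟩

end Pool.Agent.TBA
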