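import Pool.Agent.TBA.Stmts

/-!
Squad TBA, module EDI: regularity of the energy density.
-/

set_option autoImplicit false

open MeasureTheory Filter Topology
open scoped ContDiff

namespace Pool.Agent.TBA

open Pool.Agent.TBG Pool.Agent.TBL Pool.Agent.TBF

namespace EDI_

variable {ι : Type} [Fintype ι] [DecidableEq ι]

theorem di_cont {u : (ι → E) → ℝ} (hu : ContDiff ℝ ∞ u) (i : ι) (c : Fin 3) :
    Continuous (di i c u) := by
  unfold di
  exact (hu.continuous_fderiv (by simp)).clm_apply continuous_const

theorem di_zero {u : (ι → E) → ℝ} {X : ι → E} (hX : X ∉ tsupport u) (i : ι) (c : Fin 3) :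
    di i c u X = 0 := by
  have h1 : fderiv ℝ u X = 0 := by
    by_contra h
    exact hX (support_fderiv_subset ℝ (Function.mem_support.2 h))
  unfold di
  rw [h1]
  rfl

end EDI_

open EDI_ in
theorem edi_proof : Stmt_EDI := by
  intro V ι _ _ hV
  have hc : Continuous (potS (ι := ι) V) := by
    unfold potS
    refine continuous_const.mul (continuous_finsetSum _ fun t _ => ?_)
    exact hV.cont.comp (by fun_prop : Continuous (fun X : ι → E =>
      ((X t.1 - X t.2.1, X t.1 - X t.2.2) : E × E)))
  have h0 : ∀ X : ι → E, 0 ≤ potS V X := by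
    intro X
    unfold potS
    exact mul_nonneg (by norm_num) (Finset.sum_nonneg fun t _ => hV.adm.nonneg _ _)
  refine ⟨hc, h0, ?_, ?_⟩
  · obtain ⟨C, hC⟩ := hV.adm.bdd
    refine ⟨1 / 6 * ∑ _t ∈ D3 ι, C, fun X => ?_⟩
    unfold potS
    exact mul_le_mul_of_nonneg_left (Finset.sum_le_sum fun t _ => hC _ _) (by norm_num)
  · intro u hu
    have he : Continuous (ed V u) := by
      unfold ed
      refine Continuous.add ?_ (hc.mul (hu.continuous.pow 2))
      exact continuous_finsetSum _ fun i _ => continuous_finsetSum _ fun c _ =>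
        (di_cont hu i c).pow 2
    have hn : ∀ X, 0 ≤ ed V u X := by
      intro X
      unfold ed
      refine add_nonneg (Finset.sum_nonneg fun i _ => Finset.sum_nonneg fun c _ => sq_nonneg _)
        (mul_nonneg (h0 X) (sq_nonneg _))
    have hz : ∀ X, X ∉ tsupport u → ed V u X = 0 := by
      intro X hX
      unfold ed
      rw [image_eq_zero_of_notMem_tsupport hX]
      simp [di_zero hX]
    refine ⟨he, hn, hz, fun hs => ?_⟩
    have hes : HasCompactSupport (ed V u) :=
      HasCompactSupport.intro hs fun X hX => hz X hX
    have hus : HasCompactSupport (fun X => u X ^ 2) := by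
      refine HasCompactSupport.intro hs fun X hX => ?_
      rw [image_eq_zero_of_notMem_tsupport hX]
      simp
    have hui : Integrable (fun X => u X ^ 2) :=
      (hu.continuous.pow 2).integrable_of_hasCompactSupport hus
    refine ⟨hes, he.integrable_of_hasCompactSupport hes, hui, ?_, ?_⟩
    · unfold en
      exact integral_nonneg hn
    · intro hI X
      have h1 : (fun X => u X ^ 2) =ᵐ[volume] 0 :=
        (integral_eq_zero_iff_of_nonneg (fun X => sq_nonneg (u X)) hui).1 hI
      have h2 : (fun X => u X ^ 2) = 0 :=
        (Continuous.ae_eq_iff_eq volume (hu.continuous.pow 2) continuous_const).1 h1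
      have h3 := congrFun h2 X
      simpa using h3

end Pool.Agent.TBA
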