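import Pool.Agent.TBA.Stmts

/-! # Squad TBA, module EDM: monotonicity in the domain -/

set_option autoImplicit false

open MeasureTheory Filter Topology
open scoped ContDiff

namespace Pool.Agent.TBA

open Pool.Agent.TBG Pool.Agent.TBL Pool.Agent.TBF

namespace EDM_

theorem cube_open (L : ℝ) : IsOpen (cube L) := by
  have h : cube L = ⋂ c : Fin 3, {x : E | |x c| < L / 2} := by
    ext x
    simp [cube]
  rw [h]
  refine isOpen_iInter_of_finite fun c => ?_
  exact isOpen_lt (by fun_prop) continuous_const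

theorem cube_ne {L : ℝ} (hL : 0 < L) : (cube L).Nonempty := by
  refine ⟨0, fun c => ?_⟩
  simp
  exact hL

end EDM_

open EDM_

theorem edm_proof (hEDB : Stmt_EDB) : Stmt_EDM := by
  refine ⟨fun L => ⟨cube_open L, cube_ne⟩, ?_⟩
  intro V ι _ _ Ω Ω' hV hΩ hne hΩ' hsub
  obtain ⟨-, -, -, h4⟩ := hEDB V ι Ω hV hΩ hne
  obtain ⟨-, -, h3, -⟩ := hEDB V ι Ω' hV hΩ' (hne.mono hsub)
  refine le_of_forall_pos_le_add fun ε hε => ?_
  obtain ⟨u, hu, hI, he⟩ := h4 ε hε
  have hu' : Dir Ω' u := ⟨hu.smooth, hu.cpt, fun X hX i => hsub (hu.supp X hX i)⟩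
  have h := (h3 u hu').trans he
  exact le_of_mul_le_mul_right h hI

end Pool.Agent.TBA
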