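import Pool.Agent.TBA.Stmts

/-! # Squad TBA, module EDT: translations -/

set_option autoImplicit false

open MeasureTheory Filter Topology
open scoped ContDiff

namespace Pool.Agent.TBA

open Pool.Agent.TBG Pool.Agent.TBL Pool.Agent.TBF

namespace EDT_

theorem key (V : E → E → ℝ) (ι : Type) [Fintype ι] [DecidableEq ι] (Ω : Set E) (a : E) (t : ℝ)
    (h : ∃ u : (ι → E) → ℝ, Dir Ω u ∧ 0 < ∫ X, u X ^ 2 ∧ t = en V u / ∫ X, u X ^ 2) :
    ∃ u : (ι → E) → ℝ, Dir {x | x - a ∈ Ω} u ∧ 0 < ∫ X, u X ^ 2 ∧ t = en V u / ∫ X, u X ^ 2 := by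
  obtain ⟨u, hu, hI, ht⟩ := h
  set A : ι → E := fun _ => a with hA
  have e1 : ∫ X : ι → E, u (X - A) ^ 2 = ∫ X, u X ^ 2 :=
    integral_sub_right_eq_self (fun X => u X ^ 2) A
  have e2 : ∀ X : ι → E, ed V (fun X : ι → E => u (X - A)) X = ed V u (X - A) := by
    intro X
    have h1 : ∀ i c, di i c (fun X : ι → E => u (X - A)) X = di i c u (X - A) := by
      intro i c
      unfold di
      rw [fderiv_comp_sub]
    have h2 : potS V X = potS V (X - A) := by
      unfold potS
      congr 1
      refine Finset.sum_congr rfl fun t _ => ?_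
      simp [hA]
    unfold ed
    rw [h2]
    simp_rw [h1]
  have e3 : en V (fun X : ι → E => u (X - A)) = en V u := by
    unfold en
    simp_rw [e2]
    exact integral_sub_right_eq_self (fun X => ed V u X) A
  refine ⟨fun X => u (X - A), ⟨?_, ?_, ?_⟩, ?_, ?_⟩
  · exact hu.smooth.comp (contDiff_id.sub contDiff_const)
  · exact hu.cpt.comp_homeomorph (Homeomorph.subRight A)
  · intro X hX i
    have h1 : X - A ∈ tsupport u := by
      have h2 : IsClosed {X : ι → E | X - A ∈ tsupport u} :=
        (isClosed_tsupport u).preimage (continuous_id.sub continuous_const)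
      have h3 : tsupport (fun X : ι → E => u (X - A)) ⊆ {X : ι → E | X - A ∈ tsupport u} := by
        refine closure_minimal (fun Y hY => ?_) h2
        exact subset_tsupport u hY
      exact h3 hX
    have := hu.supp _ h1 i
    simpa [hA] using this
  · rw [e1]
    exact hI
  · rw [e1, e3]
    exact ht

end EDT_

open EDT_

theorem edt_proof : Stmt_EDT := by
  intro V ι _ _ Ω a
  unfold ED
  congr 1
  ext t
  refine ⟨fun h => ?_, fun h => key V ι Ω a t h⟩
  have h1 := key V ι {x | x - a ∈ Ω} (-a) t h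
  have h2 : {x : E | x - -a ∈ {x : E | x - a ∈ Ω}} = Ω := by
    ext x
    simp
  rw [h2] at h1
  exact h1

end Pool.Agent.TBA
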