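import Pool.Agent.TBA.Stmts

/-!
Squad TBA, module FC1: change of variables for the folding map in dimension one.
-/

set_option autoImplicit false

open MeasureTheory Filter Topology
open scoped ContDiff

namespace Pool.Agent.TBA

open Pool.Agent.TBG Pool.Agent.TBL Pool.Agent.TBF

namespace FC1_

theorem ae_ne (a : ℝ) : ∀ᵐ s : ℝ, s ≠ a := by
  rw [ae_iff]
  have : {s : ℝ | ¬ s ≠ a} = {a} := by
    ext s
    simp
  rw [this]
  exact measure_singleton a

end FC1_

open FC1_ in
theorem fc1_proof : Stmt_FC1 := by
  intro L w g hL hw hg h0
  set A : Set ℝ := Set.Ioo (-(L / 2)) (L / 2) with hA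
  set B : Set ℝ := Set.Ioo (L / 2) (3 * L / 2) with hB
  set C : Set ℝ := Set.Ioo (-(3 * L / 2)) (-(L / 2)) with hC
  have hAm : MeasurableSet A := measurableSet_Ioo
  have hBm : MeasurableSet B := measurableSet_Ioo
  have hCm : MeasurableSet C := measurableSet_Ioo
  have key : ∫⁻ s, w s * g (fo L s) = ∫⁻ s, (A.indicator (fun s => w s * g s) s +
      B.indicator (fun s => w s * g (L - s)) s + C.indicator (fun s => w s * g (-L - s)) s) := by
    refine lintegral_congr_ae ?_
    filter_upwards [ae_ne (L / 2), ae_ne (-(L / 2)), ae_ne (3 * L / 2), ae_ne (-(3 * L / 2))]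
      with s h1 h2 h3 h4
    show w s * g (fo L s) = A.indicator (fun s => w s * g s) s +
      B.indicator (fun s => w s * g (L - s)) s + C.indicator (fun s => w s * g (-L - s)) s
    rcases lt_or_gt_of_ne h1 with h1 | h1
    · rcases lt_or_gt_of_ne h2 with h2 | h2
      · -- `s < -L/2`
        have hfo : fo L s = -L - s := by
          unfold fo
          rw [if_neg (not_lt.2 h1.le), if_pos h2]
        rw [hfo]
        have nA : s ∉ A := fun h => absurd h.1 (not_lt.2 h2.le)
        have nB : s ∉ B := fun h => absurd h.1 (not_lt.2 h1.le)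
        rw [Set.indicator_of_notMem nA, Set.indicator_of_notMem nB, zero_add, zero_add]
        rcases lt_or_gt_of_ne h4 with h4 | h4
        · have nC : s ∉ C := fun h => absurd h.1 (not_lt.2 h4.le)
          rw [Set.indicator_of_notMem nC, h0 s (by rw [lt_abs]; right; linarith), zero_mul]
        · have yC : s ∈ C := ⟨h4, h2⟩
          rw [Set.indicator_of_mem yC]
      · -- `|s| < L/2`
        have hfo : fo L s = s := by
          unfold fo
          rw [if_neg (not_lt.2 h1.le), if_neg (not_lt.2 h2.le)]
        rw [hfo]
        have yA : s ∈ A := ⟨h2, h1⟩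
        have nB : s ∉ B := fun h => absurd h.1 (not_lt.2 h1.le)
        have nC : s ∉ C := fun h => absurd h.2 (not_lt.2 h2.le)
        rw [Set.indicator_of_mem yA, Set.indicator_of_notMem nB, Set.indicator_of_notMem nC,
          add_zero, add_zero]
    · -- `L/2 < s`
      have hfo : fo L s = L - s := by
        unfold fo
        rw [if_pos h1]
      rw [hfo]
      have nA : s ∉ A := fun h => absurd h.2 (not_lt.2 h1.le)
      have nC : s ∉ C := fun h => absurd h.2 (not_lt.2 (by linarith))
      rw [Set.indicator_of_notMem nA, Set.indicator_of_notMem nC, zero_add, add_zero]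
      rcases lt_or_gt_of_ne h3 with h3 | h3
      · have yB : s ∈ B := ⟨h1, h3⟩
        rw [Set.indicator_of_mem yB]
      · have nB : s ∉ B := fun h => absurd h.2 (not_lt.2 h3.le)
        rw [Set.indicator_of_notMem nB, h0 s (by rw [lt_abs]; left; exact h3), zero_mul]
  have m1 : Measurable (A.indicator fun s => w s * g s) := (hw.mul hg).indicator hAm
  have m2 : Measurable (B.indicator fun s => w s * g (L - s)) :=
    (hw.mul (hg.comp (measurable_const.sub measurable_id))).indicator hBm
  have e2 : ∫⁻ s, B.indicator (fun s => w s * g (L - s)) s =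
      ∫⁻ s, A.indicator (fun s => w (L - s) * g s) s := by
    rw [← lintegral_sub_left_eq_self (B.indicator (fun s => w s * g (L - s))) L]
    refine lintegral_congr fun s => ?_
    by_cases hs : s ∈ A
    · have : L - s ∈ B := ⟨by linarith [hs.2], by linarith [hs.1]⟩
      rw [Set.indicator_of_mem hs, Set.indicator_of_mem this, sub_sub_cancel]
    · have : L - s ∉ B := fun h => hs ⟨by linarith [h.2], by linarith [h.1]⟩
      rw [Set.indicator_of_notMem hs, Set.indicator_of_notMem this]
  have e3 : ∫⁻ s, C.indicator (fun s => w s * g (-L - s)) s =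
      ∫⁻ s, A.indicator (fun s => w (-L - s) * g s) s := by
    rw [← lintegral_sub_left_eq_self (C.indicator (fun s => w s * g (-L - s))) (-L)]
    refine lintegral_congr fun s => ?_
    by_cases hs : s ∈ A
    · have : -L - s ∈ C := ⟨by linarith [hs.2], by linarith [hs.1]⟩
      rw [Set.indicator_of_mem hs, Set.indicator_of_mem this, sub_sub_cancel]
    · have : -L - s ∉ C := fun h => hs ⟨by linarith [h.2], by linarith [h.1]⟩
      rw [Set.indicator_of_notMem hs, Set.indicator_of_notMem this]
  have m3 : Measurable fun s => A.indicator (fun s => w s * g s) s +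
      B.indicator (fun s => w s * g (L - s)) s := m1.add m2
  have m4 : Measurable (A.indicator fun s => w (L - s) * g s) :=
    ((hw.comp (measurable_const.sub measurable_id)).mul hg).indicator hAm
  have m5 : Measurable fun s => A.indicator (fun s => w s * g s) s +
      A.indicator (fun s => w (L - s) * g s) s := m1.add m4
  rw [key, lintegral_add_left m3, lintegral_add_left m1, e2, e3,
    ← lintegral_indicator hAm, ← lintegral_add_left m1, ← lintegral_add_left m5]
  refine lintegral_congr fun s => ?_
  by_cases hs : s ∈ A
  · simp only [Set.indicator_of_mem hs]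
    ring
  · simp only [Set.indicator_of_notMem hs, add_zero]

end Pool.Agent.TBA
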