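import Pool.Agent.TBA.Stmts

/-!
# Three-body Bose gases (MP_80dc41_mp), module FCJ: change of variables in `ℝ^J`
-/

set_option autoImplicit false

open MeasureTheory Filter Topology
open scoped ContDiff

namespace Pool.Agent.TBA

open Pool.Agent.TBG Pool.Agent.TBL Pool.Agent.TBF

namespace FCJ_

theorem fo_meas (L : ℝ) : Measurable (fo L) := by
  unfold fo
  refine Measurable.ite (measurableSet_lt measurable_const measurable_id)
    (measurable_const.sub measurable_id) ?_
  exact Measurable.ite (measurableSet_lt measurable_id measurable_const)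
    (measurable_const.sub measurable_id) measurable_id

/-- products of densities -/
theorem pi_dens {J : Type} [Fintype J] (ν : J → Measure ℝ) [∀ j, SigmaFinite (ν j)] (f : J → ℝ → ℝ)
    (h0 : ∀ j s, 0 ≤ f j s) (hi : ∀ j, Integrable (f j) (ν j)) :
    Measure.pi (fun j => (ν j).withDensity (fun s => ENNReal.ofReal (f j s))) =
      (Measure.pi ν).withDensity (fun x => ENNReal.ofReal (∏ j, f j (x j))) := by
  have hfin : ∀ j, IsFiniteMeasure ((ν j).withDensity (fun s => ENNReal.ofReal (f j s))) := fun j =>
    isFiniteMeasure_withDensity_ofReal (hi j).2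
  refine Measure.pi_eq fun s hs => ?_
  have hms : MeasurableSet (Set.univ.pi s) := MeasurableSet.univ_pi hs
  rw [withDensity_apply _ hms, Measure.restrict_pi_pi]
  have hint : ∀ i, Integrable (f i) ((ν i).restrict (s i)) := fun i => (hi i).restrict
  have h1 : Integrable (fun X : J → ℝ => ∏ i, f i (X i))
      (Measure.pi fun i => (ν i).restrict (s i)) :=
    Integrable.fintype_prod (f := f) hint
  rw [← ofReal_integral_eq_lintegral_ofReal h1
    (Filter.Eventually.of_forall fun X => Finset.prod_nonneg fun i _ => h0 i (X i))]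
  have h2 : ∫ X : J → ℝ, ∏ i, f i (X i) ∂(Measure.pi fun i => (ν i).restrict (s i)) =
      ∏ i, ∫ x in s i, f i x ∂(ν i) :=
    integral_fintype_prod_eq_prod f
  rw [h2, ENNReal.ofReal_prod_of_nonneg
    (fun i _ => setIntegral_nonneg (hs i) fun x _ => h0 i x)]
  refine Finset.prod_congr rfl fun i _ => ?_
  rw [withDensity_apply _ (hs i), ← ofReal_integral_eq_lintegral_ofReal (hint i)
    (Filter.Eventually.of_forall fun x => h0 i x)]

/-- bounded functions with bounded support are integrable -/
theorem int_toReal {w : ℝ → ENNReal} (hw : Measurable w) {B : NNReal} (hB : ∀ s, w s ≤ B)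
    {C : ℝ} (h0 : ∀ s, C < |s| → w s = 0) : Integrable (fun s => (w s).toReal) := by
  have h1 : Integrable ((Set.Icc (-C) C).indicator (fun _ : ℝ => (B : ℝ))) := by
    refine (integrable_indicator_iff measurableSet_Icc).2 ?_
    exact integrableOn_const (by simp)
  refine h1.mono' hw.ennreal_toReal.aestronglyMeasurable (Eventually.of_forall fun s => ?_)
  rw [Real.norm_eq_abs, abs_of_nonneg ENNReal.toReal_nonneg]
  by_cases hs : |s| ≤ C
  · have hm : s ∈ Set.Icc (-C) C := Set.mem_Icc.2 (abs_le.1 hs)
    rw [Set.indicator_of_mem hm]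
    exact ENNReal.toReal_mono ENNReal.coe_ne_top (hB s)
  · have hm : s ∉ Set.Icc (-C) C := fun h => hs (abs_le.2 (Set.mem_Icc.1 h))
    rw [Set.indicator_of_notMem hm, h0 s (not_le.1 hs)]
    simp

end FCJ_

open FCJ_ in
theorem fcj_proof (hFC1 : Stmt_FC1) : Stmt_FCJ := by
  intro J _ L w F hL hw hb h0 hF
  have hwtop : ∀ j s, w j s ≠ ⊤ := fun j s => by
    obtain ⟨B, hB⟩ := hb j
    exact ne_top_of_le_ne_top ENNReal.coe_ne_top (hB s)
  -- the folded weights
  obtain ⟨v, hv⟩ : ∃ v : J → ℝ → ENNReal, v = fun j s => w j s + w j (L - s) + w j (-L - s) := ⟨_, rfl⟩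
  have hvm : ∀ j, Measurable (v j) := by
    intro j
    rw [hv]
    exact ((hw j).add ((hw j).comp (measurable_const.sub measurable_id))).add
      ((hw j).comp (measurable_const.sub measurable_id))
  have hvtop : ∀ j s, v j s ≠ ⊤ := by
    intro j s
    rw [hv]
    exact ENNReal.add_ne_top.2 ⟨ENNReal.add_ne_top.2 ⟨hwtop _ _, hwtop _ _⟩, hwtop _ _⟩
  have hwi : ∀ j, Integrable (fun s => (w j s).toReal) := fun j => by
    obtain ⟨B, hB⟩ := hb j
    exact int_toReal (hw j) hB (h0 j)
  have hvi : ∀ j, Integrable (fun s => (v j s).toReal)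
      (volume.restrict (Set.Ioo (-(L / 2)) (L / 2))) := by
    intro j
    have e : (fun s => (v j s).toReal) =
        fun s => (w j s).toReal + (w j (L - s)).toReal + (w j (-L - s)).toReal := by
      funext s
      rw [hv]
      show (w j s + w j (L - s) + w j (-L - s)).toReal = _
      rw [ENNReal.toReal_add (ENNReal.add_ne_top.2 ⟨hwtop _ _, hwtop _ _⟩) (hwtop _ _),
        ENNReal.toReal_add (hwtop _ _) (hwtop _ _)]
    rw [e]
    exact (((hwi j).add ((hwi j).comp_sub_left L)).add ((hwi j).comp_sub_left (-L))).restrict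
  have hwo : ∀ j, (fun s => ENNReal.ofReal ((w j s).toReal)) = w j := fun j =>
    funext fun s => ENNReal.ofReal_toReal (hwtop j s)
  have hvo : ∀ j, (fun s => ENNReal.ofReal ((v j s).toReal)) = v j := fun j =>
    funext fun s => ENNReal.ofReal_toReal (hvtop j s)
  -- the measures
  have h1 := pi_dens (fun _ : J => (volume : Measure ℝ)) (fun j s => (w j s).toReal)
    (fun _ _ => ENNReal.toReal_nonneg) hwi
  have h2 := pi_dens (fun _ : J => (volume : Measure ℝ).restrict (Set.Ioo (-(L / 2)) (L / 2)))
    (fun j s => (v j s).toReal) (fun _ _ => ENNReal.toReal_nonneg) hvi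
  have hwf : ∀ j, IsFiniteMeasure ((volume : Measure ℝ).withDensity (w j)) := fun j => by
    rw [← hwo j]
    exact isFiniteMeasure_withDensity_ofReal (hwi j).2
  simp only [hwo] at h1
  simp only [hvo] at h2
  have hp1 : ∀ x : J → ℝ, ENNReal.ofReal (∏ j, (w j (x j)).toReal) = ∏ j, w j (x j) := by
    intro x
    rw [ENNReal.ofReal_prod_of_nonneg fun _ _ => ENNReal.toReal_nonneg]
    exact Finset.prod_congr rfl fun j _ => ENNReal.ofReal_toReal (hwtop _ _)
  have hp2 : ∀ x : J → ℝ, ENNReal.ofReal (∏ j, (v j (x j)).toReal) = ∏ j, v j (x j) := by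
    intro x
    rw [ENNReal.ofReal_prod_of_nonneg fun _ _ => ENNReal.toReal_nonneg]
    exact Finset.prod_congr rfl fun j _ => ENNReal.ofReal_toReal (hvtop _ _)
  simp only [hp1] at h1
  simp only [hp2] at h2
  -- dimension one
  have h3 : ∀ j, ((volume : Measure ℝ).withDensity (w j)).map (fo L) =
      ((volume : Measure ℝ).restrict (Set.Ioo (-(L / 2)) (L / 2))).withDensity (v j) := by
    intro j
    ext S hS
    rw [Measure.map_apply (fo_meas L) hS, withDensity_apply _ (fo_meas L hS), withDensity_apply _ hS]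
    have h4 := hFC1 L (w j) (S.indicator 1) hL (hw j) (measurable_one.indicator hS) (h0 j)
    rw [← lintegral_indicator (fo_meas L hS), ← lintegral_indicator hS]
    have e1 : (fun a => ((fo L) ⁻¹' S).indicator (w j) a) =
        fun s => w j s * (S.indicator (1 : ℝ → ENNReal) (fo L s)) := by
      funext s
      by_cases hs : fo L s ∈ S
      · rw [Set.indicator_of_mem (show s ∈ (fo L) ⁻¹' S from hs), Set.indicator_of_mem hs]
        simp
      · rw [Set.indicator_of_notMem (show s ∉ (fo L) ⁻¹' S from hs), Set.indicator_of_notMem hs]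
        simp
    have e2 : (fun a => S.indicator (v j) a) =
        fun s => (w j s + w j (L - s) + w j (-L - s)) * (S.indicator (1 : ℝ → ENNReal) s) := by
      funext s
      rw [hv]
      by_cases hs : s ∈ S
      · rw [Set.indicator_of_mem hs, Set.indicator_of_mem hs]
        simp
      · rw [Set.indicator_of_notMem hs, Set.indicator_of_notMem hs]
        simp
    rw [e1, e2]
    exact h4
  have h5 : (Measure.pi (fun j => (volume : Measure ℝ).withDensity (w j))).map
      (fun (x : J → ℝ) j => fo L (x j)) =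
      Measure.pi (fun j => ((volume : Measure ℝ).restrict (Set.Ioo (-(L / 2)) (L / 2))).withDensity
        (v j)) := by
    have := Measure.pi_map_pi (μ := fun j => (volume : Measure ℝ).withDensity (w j))
      (f := fun _ => fo L) (hμ := fun j => inferInstance) (fun j => (fo_meas L).aemeasurable)
    rw [this]
    congr 1
    funext j
    exact h3 j
  have hfm : Measurable (fun (x : J → ℝ) j => fo L (x j)) :=
    measurable_pi_lambda _ fun j => (fo_meas L).comp (measurable_pi_apply j)
  have hwm : Measurable (fun x : J → ℝ => ∏ j, w j (x j)) :=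
    Finset.measurable_fun_prod _ fun i _ => (hw i).comp (measurable_pi_apply i)
  have hvm' : Measurable (fun x : J → ℝ => ∏ j, v j (x j)) :=
    Finset.measurable_fun_prod _ fun i _ => (hvm i).comp (measurable_pi_apply i)
  have hset : {x : J → ℝ | ∀ j, |x j| < L / 2} =
      Set.univ.pi (fun _ : J => Set.Ioo (-(L / 2)) (L / 2)) := by
    ext x
    simp only [Set.mem_pi, Set.mem_univ, forall_true_left]
    exact forall_congr' fun j => abs_lt
  calc ∫⁻ x : J → ℝ, (∏ j, w j (x j)) * F (fun j => fo L (x j))
      = ∫⁻ x, F (fun j => fo L (x j)) ∂((volume : Measure (J → ℝ)).withDensity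
          (fun x => ∏ j, w j (x j))) :=
        (lintegral_withDensity_eq_lintegral_mul volume hwm (hF.comp hfm)).symm
    _ = ∫⁻ x, F (fun j => fo L (x j)) ∂(Measure.pi (fun j => (volume : Measure ℝ).withDensity
          (w j))) := by
        rw [h1]
        rfl
    _ = ∫⁻ y, F y ∂((Measure.pi (fun j => (volume : Measure ℝ).withDensity (w j))).map
      (fun (x : J → ℝ) j => fo L (x j))) := (lintegral_map hF hfm).symm
    _ = ∫⁻ y, F y ∂((Measure.pi fun _ : J => (volume : Measure ℝ).restrict
          (Set.Ioo (-(L / 2)) (L / 2))).withDensity (fun x => ∏ j, v j (x j))) := by rw [h5, h2]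
    _ = ∫⁻ y, (∏ j, v j (y j)) * F y ∂(Measure.pi fun _ : J => (volume : Measure ℝ).restrict
          (Set.Ioo (-(L / 2)) (L / 2))) := lintegral_withDensity_eq_lintegral_mul _ hvm' hF
    _ = ∫⁻ x in {x : J → ℝ | ∀ j, |x j| < L / 2},
        (∏ j, (w j (x j) + w j (L - x j) + w j (-L - x j))) * F x := by
        rw [hset, volume_pi, Measure.restrict_pi_pi, hv]

end Pool.Agent.TBA
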