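import Pool.Agent.TBA.Stmts

set_option autoImplicit false

open MeasureTheory Filter Topology
open scoped ContDiff

namespace Pool.Agent.TBA

open Pool.Agent.TBG Pool.Agent.TBL Pool.Agent.TBF

namespace FCV_

/-- uncurrying preserves the measure -/
theorem mp_unc (ι : Type) [Fintype ι] :
    MeasurePreserving (fun (X : ι → Fin 3 → ℝ) (p : ι × Fin 3) => X p.1 p.2) volume volume := by
  have hm : Measurable (fun (X : ι → Fin 3 → ℝ) (p : ι × Fin 3) => X p.1 p.2) := by
    fun_prop
  refine ⟨hm, ?_⟩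
  symm
  refine Measure.pi_eq (fun s hs => ?_)
  have hpre : (fun (X : ι → Fin 3 → ℝ) (p : ι × Fin 3) => X p.1 p.2) ⁻¹' (Set.univ.pi s) =
      Set.univ.pi (fun i => Set.univ.pi (fun c => s (i, c))) := by
    ext X
    simp only [Set.mem_preimage, Set.mem_pi, Set.mem_univ, true_implies]
    constructor
    · intro h i c
      exact h (i, c)
    · rintro h ⟨i, c⟩
      exact h i c
  rw [Measure.map_apply hm (MeasurableSet.univ_pi hs), hpre]
  rw [volume_pi, Measure.pi_pi]
  rw [Fintype.prod_prod_type]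
  refine Finset.prod_congr rfl (fun i _ => ?_)
  rw [volume_pi, Measure.pi_pi]

/-- all coordinates -/
def co {ι : Type} (X : ι → E) (p : ι × Fin 3) : ℝ := X p.1 p.2

/-- the inverse -/
def co' {ι : Type} (x : ι × Fin 3 → ℝ) : ι → E := fun i => WithLp.toLp 2 (fun c => x (i, c))

theorem co'_co {ι : Type} (X : ι → E) : co' (co X) = X := by
  funext i
  ext c
  rfl

theorem co_co' {ι : Type} (x : ι × Fin 3 → ℝ) : co (co' x) = x := by
  funext p
  rfl

theorem mp_co (ι : Type) [Fintype ι] :
    MeasurePreserving (co : (ι → E) → (ι × Fin 3 → ℝ)) volume volume := by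
  have h1 : MeasurePreserving (fun (X : ι → E) (i : ι) => WithLp.ofLp (X i)) volume volume :=
    volume_preserving_pi (fun _ => PiLp.volume_preserving_ofLp (Fin 3))
  exact (mp_unc ι).comp h1

theorem cont_co' (ι : Type) [Fintype ι] : Continuous (co' : (ι × Fin 3 → ℝ) → (ι → E)) := by
  refine continuous_pi (fun i => ?_)
  exact (PiLp.continuous_toLp 2 (fun _ : Fin 3 => ℝ)).comp (by fun_prop)

theorem cont_fo (L : ℝ) (hL : 0 < L) : Continuous (fo L) := by
  have h : fo L = fun s => min (max s (-L - s)) (L - s) := by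
    funext s
    unfold fo
    split_ifs with h1 h2
    · rw [max_eq_left (by linarith), min_eq_right (by linarith)]
    · rw [max_eq_right (by linarith), min_eq_left (by linarith)]
    · rw [max_eq_left (by linarith), min_eq_left (by linarith)]
  rw [h]
  fun_prop

theorem cont_cw {ι : Type} [Fintype ι] (g : ℝ → ℝ) (hg : Continuous g) :
    Continuous (cw g : (ι → E) → (ι → E)) := by
  refine continuous_pi (fun i => ?_)
  refine (PiLp.continuous_toLp 2 (fun _ : Fin 3 => ℝ)).comp ?_
  refine continuous_pi (fun c => ?_)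
  refine hg.comp ?_
  fun_prop

/-- transfer of a lower integral -/
theorem li_co {ι : Type} [Fintype ι] (H : (ι × Fin 3 → ℝ) → ENNReal) (hH : Measurable H) :
    ∫⁻ X : ι → E, H (co X) = ∫⁻ x, H x :=
  (mp_co ι).lintegral_comp hH

theorem li_co_set {ι : Type} [Fintype ι] (H : (ι × Fin 3 → ℝ) → ENNReal) (hH : Measurable H)
    (S : Set (ι × Fin 3 → ℝ)) (hS : MeasurableSet S) :
    ∫⁻ X in co ⁻¹' S, H (co X) = ∫⁻ x in S, H x :=
  (mp_co ι).setLIntegral_comp_preimage hS hH

end FCV_

open FCV_ in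
theorem fcv_proof (hFCJ : Stmt_FCJ) : Stmt_FCV := by
  intro ι _ L w F hL hwc hw0 hwz hFc hF0
  have hfo := cont_fo L hL
  have hcw : Continuous (cw (fo L) : (ι → E) → (ι → E)) := cont_cw _ hfo
  -- bounds for the weights
  have hbd : ∀ p : ι × Fin 3, ∃ B : NNReal, ∀ s, ENNReal.ofReal (w p.1 p.2 s) ≤ B := by
    intro p
    obtain ⟨B, hB⟩ := (isCompact_Icc (a := -(3 * L / 2)) (b := 3 * L / 2)).exists_bound_of_continuousOn
      (hwc p.1 p.2).continuousOn
    refine ⟨(max B 0).toNNReal, fun s => ?_⟩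
    rw [← ENNReal.ofReal]
    refine ENNReal.ofReal_le_ofReal ?_
    by_cases hs : 3 * L / 2 < |s|
    · rw [hwz p.1 p.2 s hs]
      exact le_max_right _ _
    · have := hB s (by rw [not_lt, abs_le] at hs; exact hs)
      exact (le_abs_self _).trans (this.trans (le_max_left _ _))
  have key := hFCJ (ι × Fin 3) L (fun p s => ENNReal.ofReal (w p.1 p.2 s))
    (fun x => ENNReal.ofReal (F (co' x))) hL
    (fun p => (hwc p.1 p.2).measurable.ennreal_ofReal) hbd
    (fun p s hs => by
      show ENNReal.ofReal (w p.1 p.2 s) = 0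
      rw [hwz p.1 p.2 s hs, ENNReal.ofReal_zero])
    ((hFc.comp (cont_co' ι)).measurable.ennreal_ofReal)
  have hprod0 : ∀ X : ι → E, 0 ≤ ∏ i, ∏ c, w i c (X i c) := fun X =>
    Finset.prod_nonneg (fun i _ => Finset.prod_nonneg (fun c _ => hw0 _ _ _))
  have hprod1 : ∀ X : ι → E, 0 ≤ ∏ i, ∏ c, (w i c (X i c) + w i c (L - X i c) + w i c (-L - X i c)) := fun X =>
    Finset.prod_nonneg (fun i _ => Finset.prod_nonneg (fun c _ => by
      have h1 := hw0 i c (X i c)
      have h2 := hw0 i c (L - X i c)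
      have h3 := hw0 i c (-L - X i c)
      linarith))
  have hXc : ∀ (i : ι) (c : Fin 3), Continuous (fun X : ι → E => X i c) := by
    intro i c
    fun_prop
  have hc1 : Continuous (fun X : ι → E => (∏ i, ∏ c, w i c (X i c)) * F (cw (fo L) X)) := by
    refine Continuous.mul ?_ (hFc.comp hcw)
    exact continuous_finsetProd _ (fun i _ => continuous_finsetProd _ (fun c _ => (hwc i c).comp (hXc i c)))
  have hc2 : Continuous (fun X : ι → E =>
      (∏ i, ∏ c, (w i c (X i c) + w i c (L - X i c) + w i c (-L - X i c))) * F X) := by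
    refine Continuous.mul ?_ hFc
    refine continuous_finsetProd _ (fun i _ => continuous_finsetProd _ (fun c _ => ?_))
    exact (((hwc i c).comp (hXc i c)).add ((hwc i c).comp (continuous_const.sub (hXc i c)))).add
      ((hwc i c).comp (continuous_const.sub (hXc i c)))
  rw [integral_eq_lintegral_of_nonneg_ae (ae_of_all _ (fun X => mul_nonneg (hprod0 X) (hF0 _)))
    hc1.aestronglyMeasurable,
    integral_eq_lintegral_of_nonneg_ae (ae_of_all _ (fun X => mul_nonneg (hprod1 X) (hF0 _)))
    hc2.aestronglyMeasurable]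
  congr 1
  have hS : MeasurableSet {x : ι × Fin 3 → ℝ | ∀ j, |x j| < L / 2} := by
    refine measurableSet_setOf.2 ?_
    refine Measurable.forall (fun j => ?_)
    exact measurableSet_setOf.1 (measurableSet_lt (by fun_prop) measurable_const)
  have hbox : boxi ι L = co ⁻¹' {x : ι × Fin 3 → ℝ | ∀ j, |x j| < L / 2} := by
    ext X
    simp only [boxi, Set.mem_setOf_eq, Set.mem_preimage]
    constructor
    · rintro h ⟨i, c⟩
      exact h i c
    · intro h i c
      exact h (i, c)
  have hm1 : Measurable (fun x : ι × Fin 3 → ℝ => (∏ j : ι × Fin 3, ENNReal.ofReal (w j.1 j.2 (x j))) *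
      ENNReal.ofReal (F (co' (fun j => fo L (x j))))) := by
    refine Measurable.mul ?_ ?_
    · refine Finset.measurable_prod _ (fun j _ => ?_)
      exact ((hwc j.1 j.2).comp (continuous_apply j)).measurable.ennreal_ofReal
    · refine Measurable.ennreal_ofReal (Continuous.measurable ?_)
      exact hFc.comp ((cont_co' ι).comp (continuous_pi (fun j => hfo.comp (continuous_apply j))))
  have hm2 : Measurable (fun x : ι × Fin 3 → ℝ => (∏ j : ι × Fin 3, (ENNReal.ofReal (w j.1 j.2 (x j)) +
      ENNReal.ofReal (w j.1 j.2 (L - x j)) + ENNReal.ofReal (w j.1 j.2 (-L - x j)))) *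
      ENNReal.ofReal (F (co' x))) := by
    refine Measurable.mul ?_ ?_
    · refine Finset.measurable_prod _ (fun j _ => ?_)
      exact ((((hwc j.1 j.2).comp (continuous_apply j)).measurable.ennreal_ofReal).add
        (((hwc j.1 j.2).comp (continuous_const.sub (continuous_apply j))).measurable.ennreal_ofReal)).add
        (((hwc j.1 j.2).comp (continuous_const.sub (continuous_apply j))).measurable.ennreal_ofReal)
    · exact (hFc.comp (cont_co' ι)).measurable.ennreal_ofReal
  have e1 : ∀ X : ι → E, ENNReal.ofReal ((∏ i, ∏ c, w i c (X i c)) * F (cw (fo L) X)) =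
      (∏ j : ι × Fin 3, ENNReal.ofReal (w j.1 j.2 (co X j))) *
      ENNReal.ofReal (F (co' (fun j => fo L (co X j)))) := by
    intro X
    rw [ENNReal.ofReal_mul (hprod0 X)]
    congr 1
    rw [← ENNReal.ofReal_prod_of_nonneg (fun j _ => hw0 _ _ _), Fintype.prod_prod_type]
    rfl
  have e2 : ∀ X : ι → E, ENNReal.ofReal
      ((∏ i, ∏ c, (w i c (X i c) + w i c (L - X i c) + w i c (-L - X i c))) * F X) =
      (∏ j : ι × Fin 3, (ENNReal.ofReal (w j.1 j.2 (co X j)) +
      ENNReal.ofReal (w j.1 j.2 (L - co X j)) + ENNReal.ofReal (w j.1 j.2 (-L - co X j)))) *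
      ENNReal.ofReal (F (co' (co X))) := by
    intro X
    rw [ENNReal.ofReal_mul (hprod1 X), co'_co]
    congr 1
    have : ∀ j : ι × Fin 3, ENNReal.ofReal (w j.1 j.2 (co X j)) +
        ENNReal.ofReal (w j.1 j.2 (L - co X j)) + ENNReal.ofReal (w j.1 j.2 (-L - co X j)) =
        ENNReal.ofReal (w j.1 j.2 (co X j) + w j.1 j.2 (L - co X j) + w j.1 j.2 (-L - co X j)) := by
      intro j
      rw [ENNReal.ofReal_add (add_nonneg (hw0 _ _ _) (hw0 _ _ _)) (hw0 _ _ _),
        ENNReal.ofReal_add (hw0 _ _ _) (hw0 _ _ _)]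
    rw [Finset.prod_congr rfl (fun j _ => this j),
      ← ENNReal.ofReal_prod_of_nonneg (fun j _ => add_nonneg (add_nonneg (hw0 _ _ _) (hw0 _ _ _)) (hw0 _ _ _)),
      Fintype.prod_prod_type]
    rfl
  rw [lintegral_congr e1, lintegral_congr (μ := volume.restrict (boxi ι L)) e2]
  rw [li_co (fun x : ι × Fin 3 → ℝ => (∏ j : ι × Fin 3, ENNReal.ofReal (w j.1 j.2 (x j))) *
      ENNReal.ofReal (F (co' (fun j => fo L (x j))))) hm1]
  rw [hbox]
  rw [li_co_set (fun x : ι × Fin 3 → ℝ => (∏ j : ι × Fin 3, (ENNReal.ofReal (w j.1 j.2 (x j)) +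
      ENNReal.ofReal (w j.1 j.2 (L - x j)) + ENNReal.ofReal (w j.1 j.2 (-L - x j)))) *
      ENNReal.ofReal (F (co' x))) hm2 _ hS]
  exact key

end Pool.Agent.TBA
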