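import Pool.Agent.TBA.Stmts

/-!
# FET: the weight
-/

set_option autoImplicit false

open MeasureTheory Filter Topology
open scoped ContDiff

namespace Pool.Agent.TBA

open Pool.Agent.TBG Pool.Agent.TBL Pool.Agent.TBF

namespace FET_

/-- the transition function -/
noncomputable def a (x : ℝ) : ℝ := Real.cos (Real.pi / 2 * Real.smoothTransition ((x + 1) / 2))

lemma a_smooth : ContDiff ℝ ∞ a := by
  unfold a
  refine Real.contDiff_cos.comp (contDiff_const.mul (Real.smoothTransition.contDiff.comp ?_))
  exact (contDiff_id.add contDiff_const).div_const 2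

lemma a_nonneg (x : ℝ) : 0 ≤ a x := by
  unfold a
  apply Real.cos_nonneg_of_mem_Icc
  have h0 := Real.smoothTransition.nonneg ((x + 1) / 2)
  have h1 := Real.smoothTransition.le_one ((x + 1) / 2)
  constructor
  · nlinarith [Real.pi_pos]
  · nlinarith [Real.pi_pos]

lemma a_le (x : ℝ) : a x ≤ 1 := Real.cos_le_one _

lemma a_one (x : ℝ) (h : x ≤ -1) : a x = 1 := by
  unfold a
  rw [Real.smoothTransition.zero_of_nonpos (by linarith)]
  simp

lemma a_zero (x : ℝ) (h : 1 ≤ x) : a x = 0 := by
  unfold a
  rw [Real.smoothTransition.one_of_one_le (by linarith)]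
  simp

lemma st_symm (t : ℝ) : Real.smoothTransition (1 - t) = 1 - Real.smoothTransition t := by
  unfold Real.smoothTransition
  have h := Real.smoothTransition.pos_denom t
  have h' : 0 < expNegInvGlue (1 - t) + expNegInvGlue t := by linarith
  have e : (1 - (1 - t)) = t := by ring
  rw [e, eq_sub_iff_add_eq, add_comm (expNegInvGlue (1 - t)) (expNegInvGlue t), ← add_div,
    add_comm (expNegInvGlue (1 - t)) (expNegInvGlue t)]
  exact div_self h.ne'

lemma a_sq (x : ℝ) : a x ^ 2 + a (-x) ^ 2 = 1 := by
  unfold a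
  have : (-x + 1) / 2 = 1 - (x + 1) / 2 := by ring
  rw [this, st_symm, mul_sub, mul_one, Real.cos_pi_div_two_sub]
  exact Real.cos_sq_add_sin_sq _

lemma da_zero (x : ℝ) (hx : x ∉ Set.Icc (-1 : ℝ) 1) : deriv a x = 0 := by
  rcases lt_or_ge x (-1) with h | h
  · have : a =ᶠ[𝓝 x] fun _ => 1 := by
      filter_upwards [Iio_mem_nhds h] with y hy
      exact a_one y (le_of_lt hy)
    rw [this.deriv_eq]
    simp
  · have h1 : 1 < x := by
      by_contra hcon
      exact hx ⟨h, not_lt.mp hcon⟩
    have : a =ᶠ[𝓝 x] fun _ => 0 := by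
      filter_upwards [Ioi_mem_nhds h1] with y hy
      exact a_zero y (le_of_lt hy)
    rw [this.deriv_eq]
    simp

lemma da_bound : ∃ C : ℝ, 0 < C ∧ ∀ x, |deriv a x| ≤ C := by
  have hc : Continuous (deriv a) := a_smooth.continuous_deriv (by simp)
  have hs : HasCompactSupport (deriv a) :=
    HasCompactSupport.intro isCompact_Icc (fun x hx => da_zero x hx)
  obtain ⟨C, hC⟩ := hc.bounded_above_of_compact_support hs
  refine ⟨|C| + 1, by positivity, fun x => ?_⟩
  have := hC x
  rw [Real.norm_eq_abs] at this
  have h2 := le_abs_self C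
  linarith

end FET_

open FET_ in
theorem fet_proof : Stmt_FET := by
  obtain ⟨C, hC, hb⟩ := da_bound
  refine ⟨2 * C, by positivity, fun L h hh hL => ?_⟩
  set f : ℝ → ℝ := fun s => a ((s - L / 2) / h) with hf
  set g : ℝ → ℝ := fun s => a ((-s - L / 2) / h) with hg
  have sf : ContDiff ℝ ∞ f := a_smooth.comp ((contDiff_id.sub contDiff_const).div_const h)
  have sg : ContDiff ℝ ∞ g := a_smooth.comp ((contDiff_id.neg.sub contDiff_const).div_const h)
  have gpos : ∀ s, 0 ≤ s → g s = 1 := fun s hs => by
    refine a_one _ ?_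
    rw [div_le_iff₀ hh]
    linarith
  have fneg : ∀ s, s ≤ 0 → f s = 1 := fun s hs => by
    refine a_one _ ?_
    rw [div_le_iff₀ hh]
    linarith
  have ha : Differentiable ℝ a := a_smooth.differentiable (by simp)
  refine ⟨fun s => f s * g s, sf.mul sg, ?_, ?_, ?_, ?_⟩
  · intro s
    have h1 := a_nonneg ((s - L / 2) / h)
    have h2 := a_nonneg ((-s - L / 2) / h)
    have h3 := a_le ((s - L / 2) / h)
    have h4 := a_le ((-s - L / 2) / h)
    exact ⟨mul_nonneg h1 h2, mul_le_one₀ h3 h2 h4⟩
  · intro s hs
    rcases le_total 0 s with h0 | h0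
    · rw [abs_of_nonneg h0] at hs
      have : f s = 0 := by
        refine a_zero _ ?_
        rw [le_div_iff₀ hh]
        linarith
      simp [this]
    · rw [abs_of_nonpos h0] at hs
      have : g s = 0 := by
        refine a_zero _ ?_
        rw [le_div_iff₀ hh]
        linarith
      simp [this]
  · intro s
    have df : HasDerivAt f (deriv a ((s - L / 2) / h) * (1 / h)) s := by
      have h1 : HasDerivAt (fun s : ℝ => (s - L / 2) / h) (1 / h) s :=
        ((hasDerivAt_id s).sub_const (L / 2)).div_const h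
      exact HasDerivAt.comp (h₂ := a) (h := fun s : ℝ => (s - L / 2) / h) s (ha _).hasDerivAt h1
    have dg : HasDerivAt g (deriv a ((-s - L / 2) / h) * (-1 / h)) s := by
      have h1 : HasDerivAt (fun s : ℝ => (-s - L / 2) / h) (-1 / h) s :=
        ((hasDerivAt_id s).neg.sub_const (L / 2)).div_const h
      exact HasDerivAt.comp (h₂ := a) (h := fun s : ℝ => (-s - L / 2) / h) s (ha _).hasDerivAt h1
    have := (df.mul dg).deriv
    have e : (fun s => f s * g s) = f * g := rfl
    rw [e, this]
    have f1 : |f s| ≤ 1 := by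
      rw [abs_of_nonneg (a_nonneg _)]
      exact a_le _
    have g1 : |g s| ≤ 1 := by
      rw [abs_of_nonneg (a_nonneg _)]
      exact a_le _
    have b1 := hb ((s - L / 2) / h)
    have b2 := hb ((-s - L / 2) / h)
    have hinv : |1 / h| = 1 / h := abs_of_pos (by positivity)
    have hinv' : |-1 / h| = 1 / h := by
      rw [neg_div, abs_neg, hinv]
    calc |deriv a ((s - L / 2) / h) * (1 / h) * g s + f s * (deriv a ((-s - L / 2) / h) * (-1 / h))|
        ≤ |deriv a ((s - L / 2) / h) * (1 / h) * g s| +
          |f s * (deriv a ((-s - L / 2) / h) * (-1 / h))| := abs_add_le _ _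
      _ ≤ C * (1 / h) * 1 + 1 * (C * (1 / h)) := by
          rw [abs_mul, abs_mul, abs_mul, abs_mul, hinv, hinv']
          gcongr
      _ = 2 * C / h := by ring
  · have key : ∀ s, 0 ≤ s → s ≤ L / 2 →
        (f s * g s) ^ 2 + (f (L - s) * g (L - s)) ^ 2 + (f (-L - s) * g (-L - s)) ^ 2 = 1 := by
      intro s h0 h1
      have e1 : g (-L - s) = 0 := by
        refine a_zero _ ?_
        rw [le_div_iff₀ hh]
        linarith
      rw [gpos s h0, gpos (L - s) (by linarith), e1]
      have e2 : f (L - s) = a (-((s - L / 2) / h)) := by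
        show a ((L - s - L / 2) / h) = _
        congr 1
        ring
      rw [e2]
      have := a_sq ((s - L / 2) / h)
      show (a ((s - L / 2) / h) * 1) ^ 2 + _ + _ = 1
      linarith
    have sym : ∀ s, f (-s) * g (-s) = f s * g s := by
      intro s
      have e1 : f (-s) = g s := rfl
      have e2 : g (-s) = f s := by
        show a ((- -s - L / 2) / h) = a ((s - L / 2) / h)
        rw [neg_neg]
      rw [e1, e2, mul_comm]
    intro s hs
    rcases le_total 0 s with h0 | h0
    · rw [abs_of_nonneg h0] at hs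
      exact key s h0 hs
    · rw [abs_of_nonpos h0] at hs
      have := key (-s) (by linarith) hs
      have e1 : L - -s = -(-L - s) := by ring
      have e2 : -L - -s = -(L - s) := by ring
      rw [e1, e2, sym, sym, sym] at this
      show (f s * g s) ^ 2 + (f (L - s) * g (L - s)) ^ 2 + (f (-L - s) * g (-L - s)) ^ 2 = 1
      linarith

end Pool.Agent.TBA
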