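import Pool.Agent.TBA.Stmts

/-!
Squad TBA, module FGK: smooth approximations of the folding map (mollification).
-/

set_option autoImplicit false

open MeasureTheory Filter Topology
open scoped ContDiff Convolution

namespace Pool.Agent.TBA

open Pool.Agent.TBG Pool.Agent.TBL Pool.Agent.TBF

namespace FGK_

theorem fo_lip {L : ℝ} (hL : 0 < L) (s t : ℝ) : |fo L s - fo L t| ≤ |s - t| := by
  have h1 := le_abs_self (s - t)
  have h2 := neg_abs_le (s - t)
  unfold fo
  split_ifs <;> rw [abs_le] <;> constructor <;> linarith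

theorem fo_cont {L : ℝ} (hL : 0 < L) : Continuous (fo L) := by
  have h : LipschitzWith 1 (fo L) := by
    refine LipschitzWith.of_dist_le_mul fun s t => ?_
    rw [Real.dist_eq, Real.dist_eq]
    simpa using fo_lip hL s t
  exact h.continuous

/-- bump functions of radius `1/(n+1)` -/
noncomputable def bump (n : ℕ) : ContDiffBump (0 : ℝ) where
  rIn := 1 / (2 * ((n : ℝ) + 1))
  rOut := 1 / ((n : ℝ) + 1)
  rIn_pos := by positivity
  rIn_lt_rOut := by
    apply one_div_lt_one_div_of_lt (by positivity)
    have : (0 : ℝ) < (n : ℝ) + 1 := by positivity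
    linarith

/-- the mollifier -/
noncomputable def rh (n : ℕ) : ℝ → ℝ := (bump n).normed volume

theorem rh_int (n : ℕ) : ∫ t, rh n t = 1 := (bump n).integral_normed

theorem rh_nn (n : ℕ) (t : ℝ) : 0 ≤ rh n t := (bump n).nonneg_normed t

theorem rh_cont (n : ℕ) : Continuous (rh n) := (bump n).continuous_normed

theorem rh_cpt (n : ℕ) : HasCompactSupport (rh n) := (bump n).hasCompactSupport_normed

/-- the mollified folding map -/
noncomputable def GG (L : ℝ) (n : ℕ) (s : ℝ) : ℝ := ∫ t, rh n t * fo L (s - t)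

theorem GG_int {L : ℝ} (hL : 0 < L) (n : ℕ) (s : ℝ) : Integrable (fun t => rh n t * fo L (s - t)) := by
  have h1 : Continuous (fun t => rh n t * fo L (s - t)) :=
    (rh_cont n).mul ((fo_cont hL).comp (continuous_const.sub continuous_id))
  exact h1.integrable_of_hasCompactSupport (rh_cpt n).mul_right

theorem GG_smooth {L : ℝ} (hL : 0 < L) (n : ℕ) : ContDiff ℝ ∞ (GG L n) := by
  have h1 : ContDiff ℝ ∞ (rh n ⋆[ContinuousLinearMap.lsmul ℝ ℝ, volume] (fo L)) :=
    (rh_cpt n).contDiff_convolution_left _ (bump n).contDiff_normed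
      (fo_cont hL).locallyIntegrable
  exact h1

theorem GG_lip {L : ℝ} (hL : 0 < L) (n : ℕ) (s t : ℝ) : |GG L n s - GG L n t| ≤ |s - t| := by
  have hr : Integrable (rh n) := (rh_cont n).integrable_of_hasCompactSupport (rh_cpt n)
  have h1 : GG L n s - GG L n t = ∫ x, (rh n x * fo L (s - x) - rh n x * fo L (t - x)) :=
    (integral_sub (GG_int hL n s) (GG_int hL n t)).symm
  rw [h1, ← Real.norm_eq_abs]
  calc ‖∫ x, (rh n x * fo L (s - x) - rh n x * fo L (t - x))‖
      ≤ ∫ x, rh n x * |s - t| := by
        refine norm_integral_le_of_norm_le (hr.mul_const _) (Eventually.of_forall fun x => ?_)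
        rw [← mul_sub, norm_mul, Real.norm_eq_abs, Real.norm_eq_abs, abs_of_nonneg (rh_nn n x)]
        refine mul_le_mul_of_nonneg_left ?_ (rh_nn n x)
        refine (fo_lip hL _ _).trans (le_of_eq ?_)
        congr 1
        ring
    _ = |s - t| := by rw [integral_mul_const, rh_int, one_mul]

theorem GG_close {L : ℝ} (hL : 0 < L) (n : ℕ) (s : ℝ) :
    dist (GG L n s) (fo L s) ≤ 1 / ((n : ℝ) + 1) := by
  have h1 : dist ((rh n ⋆[ContinuousLinearMap.lsmul ℝ ℝ, volume] (fo L) : ℝ → ℝ) s) (fo L s) ≤
      1 / ((n : ℝ) + 1) := by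
    refine (bump n).dist_normed_convolution_le (fo_cont hL).aestronglyMeasurable ?_
    intro x hx
    rw [Real.dist_eq]
    refine (fo_lip hL x s).trans ?_
    rw [Metric.mem_ball, Real.dist_eq] at hx
    exact hx.le
  exact h1

end FGK_

open FGK_ in
theorem fgk_proof : Stmt_FGK := by
  intro L hL
  refine ⟨GG L, GG_smooth hL, ?_, GG_lip hL, ?_⟩
  · intro n s
    have h : LipschitzWith 1 (GG L n) := by
      refine LipschitzWith.of_dist_le_mul fun s t => ?_
      rw [Real.dist_eq, Real.dist_eq]
      simpa using GG_lip hL n s t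
    have h2 := norm_deriv_le_of_lipschitz (x₀ := s) h
    simpa using h2
  · intro s
    rw [tendsto_iff_dist_tendsto_zero]
    refine squeeze_zero (fun n => dist_nonneg) (fun n => GG_close hL n s) ?_
    exact tendsto_one_div_add_atTop_nhds_zero_nat

end Pool.Agent.TBA
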