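import Pool.Agent.TBA.Stmts

/-! # Squad TBA, module FLI: the limit of the integrals -/

set_option autoImplicit false

open MeasureTheory Filter Topology
open scoped ContDiff

namespace Pool.Agent.TBA

open Pool.Agent.TBG Pool.Agent.TBL Pool.Agent.TBF

theorem fli_proof : Stmt_FLI := by
  intro ι _ L B G W F hG hlim hW hWc hF hB
  have hcw : ∀ n, Continuous (cw (ι := ι) (G n)) := by
    intro n
    refine continuous_pi fun i => ?_
    show Continuous fun X : ι → E => (WithLp.toLp 2 (fun c => G n (X i c)) : E)
    refine (PiLp.continuous_toLp 2 _).comp (continuous_pi fun c => (hG n).comp ?_)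
    fun_prop
  have hpt : ∀ X : ι → E, Tendsto (fun n => cw (G n) X) atTop (𝓝 (cw (fo L) X)) := by
    intro X
    refine tendsto_pi_nhds.2 fun i => ?_
    show Tendsto (fun n => (WithLp.toLp 2 (fun c => G n (X i c)) : E)) atTop
      (𝓝 (WithLp.toLp 2 (fun c => fo L (X i c)) : E))
    exact ((PiLp.continuous_toLp 2 _).tendsto _).comp (tendsto_pi_nhds.2 fun c => hlim (X i c))
  refine tendsto_integral_of_dominated_convergence (fun X => |W X| * |B|) ?_ ?_ ?_ ?_
  · intro n
    exact (hW.mul (hF.comp (hcw n))).aestronglyMeasurable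
  · exact ((hW.abs.integrable_of_hasCompactSupport hWc.abs)).mul_const _
  · intro n
    refine ae_of_all _ fun X => ?_
    rw [norm_mul, Real.norm_eq_abs, Real.norm_eq_abs]
    exact mul_le_mul_of_nonneg_left ((hB _).trans (le_abs_self B)) (abs_nonneg _)
  · refine ae_of_all _ fun X => ?_
    exact tendsto_const_nhds.mul ((hF.tendsto _).comp (hpt X))

end Pool.Agent.TBA
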