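import Pool.Agent.TBA.Stmts

set_option autoImplicit false

open MeasureTheory Filter Topology
open scoped ContDiff

namespace Pool.Agent.TBA

open Pool.Agent.TBG Pool.Agent.TBL Pool.Agent.TBF

theorem fol_proof (hFOS : Stmt_FOS) (hDEN : Pool.Agent.TBL.Stmt_DEN) : Stmt_FOL := by
  obtain ⟨C, hC, h⟩ := hFOS
  refine ⟨C, hC, ?_⟩
  intro V N L h' δ hV hh hhL hδ
  have hL : 0 < L := by linarith
  have h1 : (0 : ℝ) < 1 + δ := by linarith
  have key : LBs V N L ((ED V (Fin N) (cube (L + 3 * h')) - C * (1 + 1 / δ) * N / h' ^ 2) / (1 + δ)) := by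
    intro u hu hcu
    have h2 := h V (Fin N) L h' δ u hV hh hhL hδ hu hcu
    rw [Fintype.card_fin] at h2
    rw [div_mul_eq_mul_div, div_le_iff₀ h1, mul_comm _ (1 + δ)]
    exact h2
  have h3 := hDEN V N L _ hV.adm hV.cont hL key
  rw [div_le_iff₀ h1] at h3
  linarith

end Pool.Agent.TBA
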