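import Pool.Agent.TBA.Stmts

set_option autoImplicit false

open MeasureTheory Filter Topology
open scoped ContDiff

namespace Pool.Agent.TBA

open Pool.Agent.TBG Pool.Agent.TBL Pool.Agent.TBF

namespace FOS_

/-- product weights -/
noncomputable def Wt {ι : Type} [Fintype ι] (w : ι → Fin 3 → ℝ → ℝ) (X : ι → E) : ℝ :=
  ∏ i, ∏ c, w i c (X i c)

theorem Wt_cont {ι : Type} [Fintype ι] (w : ι → Fin 3 → ℝ → ℝ) (hw : ∀ i c, Continuous (w i c)) :
    Continuous (Wt w) := by
  unfold Wt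
  refine continuous_finsetProd _ fun i _ => continuous_finsetProd _ fun c _ => (hw i c).comp ?_
  exact (EuclideanSpace.proj (𝕜 := ℝ) c).continuous.comp (continuous_apply i)

theorem Wt_zero {ι : Type} [Fintype ι] (w : ι → Fin 3 → ℝ → ℝ) (B : ℝ)
    (hz : ∀ i c s, B ≤ |s| → w i c s = 0) (X : ι → E) (i : ι) (c : Fin 3) (h : B ≤ |X i c|) :
    Wt w X = 0 := by
  unfold Wt
  exact Finset.prod_eq_zero (Finset.mem_univ i) (Finset.prod_eq_zero (Finset.mem_univ c) (hz i c _ h))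

theorem Wt_cpt {ι : Type} [Fintype ι] (w : ι → Fin 3 → ℝ → ℝ) (B : ℝ) (hB : 0 ≤ B)
    (hz : ∀ i c s, B ≤ |s| → w i c s = 0) : HasCompactSupport (Wt w) := by
  refine HasCompactSupport.of_support_subset_isCompact
    (isCompact_closedBall (0 : ι → E) (2 * B)) ?_
  intro X hX
  rw [mem_closedBall_zero_iff, pi_norm_le_iff_of_nonneg (by positivity)]
  intro i
  have h : ∀ c, |X i c| ≤ B := fun c => by
    by_contra hc
    push Not at hc
    exact hX (Wt_zero w B hz X i c hc.le)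
  rw [EuclideanSpace.norm_eq]
  refine Real.sqrt_le_iff.mpr ⟨by positivity, ?_⟩
  have h2 : ∀ c, ‖X i c‖ ^ 2 ≤ B ^ 2 := fun c => by
    rw [Real.norm_eq_abs]
    exact pow_le_pow_left₀ (abs_nonneg _) (h c) 2
  calc ∑ c, ‖X i c‖ ^ 2 ≤ ∑ _c : Fin 3, B ^ 2 := Finset.sum_le_sum fun c _ => h2 c
    _ = 3 * B ^ 2 := by simp
    _ ≤ (2 * B) ^ 2 := by nlinarith [sq_nonneg B]

theorem boxi_meas {ι : Type} [Fintype ι] (L : ℝ) : MeasurableSet (boxi ι L) := by
  have h : boxi ι L = ⋂ i, ⋂ c, {X : ι → E | |X i c| < L / 2} := by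
    ext X
    simp [boxi]
  rw [h]
  refine MeasurableSet.iInter fun i => MeasurableSet.iInter fun c => ?_
  refine measurableSet_lt (Continuous.measurable ?_) measurable_const
  exact ((EuclideanSpace.proj (𝕜 := ℝ) c).continuous.comp (continuous_apply i)).abs

theorem prod_ite3 {ι : Type} [Fintype ι] [DecidableEq ι] (i : ι) (c : Fin 3) (K : ℝ) :
    ∏ j : ι, ∏ d : Fin 3, (if j = i ∧ d = c then K else 1) = K := by
  rw [Finset.prod_eq_single i, Finset.prod_eq_single c]
  · simp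
  · intro d _ hd
    simp [hd]
  · simp
  · intro j _ hj
    simp [hj]
  · simp

theorem cw_cont {ι : Type} [Fintype ι] (g : ℝ → ℝ) (hg : Continuous g) :
    Continuous (fun X : ι → E => cw g X) := by
  unfold cw
  refine continuous_pi fun i => ?_
  refine (PiLp.continuous_toLp 2 _).comp (continuous_pi fun c => hg.comp ?_)
  exact (EuclideanSpace.proj (𝕜 := ℝ) c).continuous.comp (continuous_apply i)

theorem int_W {ι : Type} [Fintype ι] (W F : (ι → E) → ℝ) (g : ℝ → ℝ) (hg : Continuous g)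
    (hW : Continuous W) (hWc : HasCompactSupport W) (hF : Continuous F) :
    Integrable (fun X => W X * F (cw g X)) :=
  (hW.mul (hF.comp (cw_cont g hg))).integrable_of_hasCompactSupport hWc.mul_right

end FOS_

open FOS_ in
theorem fos_proof (hEDI : Stmt_EDI) (hEDB : Stmt_EDB) (hEDM : Stmt_EDM) (hFET : Stmt_FET)
    (hFGK : Stmt_FGK) (hFCV : Stmt_FCV) (hFUC : Stmt_FUC) (hFPO : Stmt_FPO) (hFLI : Stmt_FLI) :
    Stmt_FOS := by
  obtain ⟨C₀, hC₀, hη⟩ := hFET
  refine ⟨9 * C₀ ^ 2, by positivity, ?_⟩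
  intro V ι _ _ L h δ u hV hh hhL hδ hu huc
  have hL : 0 < L := by linarith
  obtain ⟨η, ηs, η01, ηz, ηd, ηsum⟩ := hη L h hh hhL
  obtain ⟨G, Gs, Gd, Gl, Gt⟩ := hFGK L hL
  obtain ⟨pc, pnn, -, hI⟩ := hEDI V ι hV
  obtain ⟨edc, ednn, -, hI2⟩ := hI u hu
  obtain ⟨edcs, -, hiu, -, -⟩ := hI2 huc
  obtain ⟨copen, cne⟩ := hEDM.1 (L + 3 * h)
  obtain ⟨-, -, hED, -⟩ := hEDB V ι (cube (L + 3 * h)) hV copen (cne (by linarith))
  set B : ℝ := L / 2 + h with hB
  have hB0 : 0 ≤ B := by positivity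
  -- weights
  have ηc : Continuous η := ηs.continuous
  have ηdc : Continuous (deriv η) := (ηs.continuous_deriv (by simp))
  have ηdz : ∀ s, B ≤ |s| → deriv η s = 0 := by
    intro s hs
    have hm : IsLocalMin η s := Eventually.of_forall fun t => by
      rw [ηz s hs]
      exact (η01 t).1
    exact hm.deriv_eq_zero
  set w0 : ι → Fin 3 → ℝ → ℝ := fun _ _ s => η s ^ 2 with hw0
  set w1 : ι → Fin 3 → ι → Fin 3 → ℝ → ℝ :=
    fun i c j d s => if j = i ∧ d = c then (deriv η s) ^ 2 else η s ^ 2 with hw1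
  have w0c : ∀ i c, Continuous (w0 i c) := fun i c => ηc.pow 2
  have w1c : ∀ i c j d, Continuous (w1 i c j d) := fun i c j d => by
    by_cases hjd : j = i ∧ d = c
    · simp only [hw1, hjd, and_self, if_true]
      exact ηdc.pow 2
    · simp only [hw1, hjd, if_false]
      exact ηc.pow 2
  have w0z : ∀ i c s, B ≤ |s| → w0 i c s = 0 := fun i c s hs => by
    simp only [hw0, ηz s hs]
    norm_num
  have w1z : ∀ i c j d s, B ≤ |s| → w1 i c j d s = 0 := fun i c j d s hs => by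
    simp only [hw1, ηz s hs, ηdz s hs]
    simp
  have w0n : ∀ i c s, 0 ≤ w0 i c s := fun i c s => sq_nonneg _
  have w1n : ∀ i c j d s, 0 ≤ w1 i c j d s := fun i c j d s => by
    by_cases hjd : j = i ∧ d = c
    · simp only [hw1, hjd, and_self, if_true]
      exact sq_nonneg _
    · simp only [hw1, hjd, if_false]
      exact sq_nonneg _
  have W0n : ∀ X, 0 ≤ Wt w0 X := fun X => Finset.prod_nonneg fun i _ => Finset.prod_nonneg fun c _ => sq_nonneg _
  have W0c := Wt_cont w0 w0c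
  have W0s := Wt_cpt w0 B hB0 w0z
  have W1c : ∀ i c, Continuous (Wt (w1 i c)) := fun i c => Wt_cont _ (w1c i c)
  have W1s : ∀ i c, HasCompactSupport (Wt (w1 i c)) := fun i c => Wt_cpt _ B hB0 (w1z i c)
  have u2c : Continuous (fun X => u X ^ 2) := hu.continuous.pow 2
  have u2s : HasCompactSupport (fun X => u X ^ 2) := by
    have := huc.comp_left (g := fun t : ℝ => t ^ 2) (by norm_num)
    exact this
  -- inequality at level n
  have key : ∀ n, ED V ι (cube (L + 3 * h)) * ∫ X, Wt w0 X * u (cw (G n) X) ^ 2 ≤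
      (1 + δ) * (∫ X, Wt w0 X * ed V u (cw (G n) X)) +
        (1 + 1 / δ) * ∑ i, ∑ c, ∫ X, Wt (w1 i c) X * u (cw (G n) X) ^ 2 := by
    intro n
    obtain ⟨Us, Uc, Usup, U2, Ud⟩ := hFUC ι η (G n) B u ηs (Gs n) (Gd n) ηz hu
    have hDir : Dir (cube (L + 3 * h)) (FU η (G n) u) := by
      refine ⟨Us, Uc, ?_⟩
      intro X hX i c
      have := Usup X hX i c
      rw [hB] at this
      linarith
    have h1 := hED _ hDir
    have e1 : ∫ X, FU η (G n) u X ^ 2 = ∫ X, Wt w0 X * u (cw (G n) X) ^ 2 := by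
      refine integral_congr_ae (Eventually.of_forall fun X => ?_)
      exact U2 X
    rw [e1] at h1
    refine h1.trans ?_
    obtain ⟨-, -, -, hJ⟩ := hI (FU η (G n) u) Us
    obtain ⟨-, iU, -, -, -⟩ := hJ Uc
    have gc : Continuous (G n) := (Gs n).continuous
    have i0 := int_W (Wt w0) (ed V u) (G n) gc W0c W0s edc
    have i1 : ∀ i c, Integrable (fun X => Wt (w1 i c) X * u (cw (G n) X) ^ 2) := fun i c =>
      int_W (Wt (w1 i c)) (fun X => u X ^ 2) (G n) gc (W1c i c) (W1s i c) u2c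
    have i2 : Integrable (fun X => ∑ i, ∑ c, Wt (w1 i c) X * u (cw (G n) X) ^ 2) :=
      integrable_finsetSum _ fun i _ => integrable_finsetSum _ fun c _ => i1 i c
    have h2 : en V (FU η (G n) u) ≤ ∫ X, ((1 + δ) * (Wt w0 X * ed V u (cw (G n) X)) +
        (1 + 1 / δ) * ∑ i, ∑ c, Wt (w1 i c) X * u (cw (G n) X) ^ 2) := by
      unfold en
      refine integral_mono iU ((i0.const_mul _).add (i2.const_mul _)) ?_
      intro X
      have hd := fun i c => Ud δ X i c hδ
      have hp := hFPO V ι (G n) hV (Gl n) X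
      have hpn := pnn (cw (G n) X)
      set Y := cw (G n) X with hY
      have hW : 0 ≤ Wt w0 X := W0n X
      have hk : ∑ i, ∑ c, (di i c (FU η (G n) u) X) ^ 2 ≤
          (1 + δ) * (Wt w0 X * ∑ i, ∑ c, (di i c u Y) ^ 2) +
          (1 + 1 / δ) * ∑ i, ∑ c, Wt (w1 i c) X * u Y ^ 2 := by
        calc ∑ i, ∑ c, (di i c (FU η (G n) u) X) ^ 2
            ≤ ∑ i, ∑ c, ((1 + δ) * (Wt w0 X * (di i c u Y) ^ 2) +
              (1 + 1 / δ) * (Wt (w1 i c) X * u Y ^ 2)) :=
              Finset.sum_le_sum fun i _ => Finset.sum_le_sum fun c _ => hd i c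
          _ = _ := by
            simp only [Finset.sum_add_distrib, Finset.mul_sum]
      have hpot : potS V X * FU η (G n) u X ^ 2 ≤ (1 + δ) * (Wt w0 X * (potS V Y * u Y ^ 2)) := by
        have e2 : FU η (G n) u X ^ 2 = Wt w0 X * u Y ^ 2 := U2 X
        rw [e2]
        have q1 : 0 ≤ Wt w0 X * u Y ^ 2 := by positivity
        have q2 := mul_le_mul_of_nonneg_right hp q1
        have q3 : 0 ≤ δ * (Wt w0 X * (potS V Y * u Y ^ 2)) := by positivity
        nlinarith
      show ∑ i, ∑ c, (di i c (FU η (G n) u) X) ^ 2 + potS V X * FU η (G n) u X ^ 2 ≤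
        (1 + δ) * (Wt w0 X * (∑ i, ∑ c, (di i c u Y) ^ 2 + potS V Y * u Y ^ 2)) +
          (1 + 1 / δ) * ∑ i, ∑ c, Wt (w1 i c) X * u Y ^ 2
      linarith
    refine h2.trans (le_of_eq ?_)
    rw [integral_add (i0.const_mul _) (i2.const_mul _), integral_const_mul, integral_const_mul,
      integral_finsetSum _ fun i _ => integrable_finsetSum _ fun c _ => i1 i c]
    congr 2
    refine Finset.sum_congr rfl fun i _ => ?_
    exact integral_finsetSum _ fun c _ => i1 i c
  -- the limit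
  obtain ⟨M1, hM1⟩ := edc.bounded_above_of_compact_support edcs
  obtain ⟨M2, hM2⟩ := u2c.bounded_above_of_compact_support u2s
  have l0 := hFLI ι L M1 G (Wt w0) (ed V u) (fun n => (Gs n).continuous) Gt W0c W0s edc
    (fun X => by simpa [Real.norm_eq_abs] using hM1 X)
  have l1 := hFLI ι L M2 G (Wt w0) (fun X => u X ^ 2) (fun n => (Gs n).continuous) Gt W0c W0s u2c
    (fun X => by simpa [Real.norm_eq_abs] using hM2 X)
  have l2 := fun i c => hFLI ι L M2 G (Wt (w1 i c)) (fun X => u X ^ 2) (fun n => (Gs n).continuous) Gt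
    (W1c i c) (W1s i c) u2c (fun X => by simpa [Real.norm_eq_abs] using hM2 X)
  have key2 : ED V ι (cube (L + 3 * h)) * ∫ X, Wt w0 X * u (cw (fo L) X) ^ 2 ≤
      (1 + δ) * (∫ X, Wt w0 X * ed V u (cw (fo L) X)) +
        (1 + 1 / δ) * ∑ i, ∑ c, ∫ X, Wt (w1 i c) X * u (cw (fo L) X) ^ 2 := by
    refine le_of_tendsto_of_tendsto' (l1.const_mul _)
      ((l0.const_mul _).add ((tendsto_finsetSum _ fun i _ => tendsto_finsetSum _ fun c _ =>
        l2 i c).const_mul _)) key
  -- change of variables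
  have hbz : ∀ s : ℝ, 3 * L / 2 < |s| → B ≤ |s| := fun s hs => by
    rw [hB]; linarith
  have v0 : ∀ F : (ι → E) → ℝ, Continuous F → (∀ X, 0 ≤ F X) →
      ∫ X, Wt w0 X * F (cw (fo L) X) = ∫ X in boxi ι L, F X := by
    intro F hF hF0
    have := hFCV ι L w0 F hL w0c w0n (fun i c s hs => w0z i c s (hbz s hs)) hF hF0
    refine this.trans ?_
    refine setIntegral_congr_fun (boxi_meas L) ?_
    intro X hX
    have h1 : ∀ i c, w0 i c (X i c) + w0 i c (L - X i c) + w0 i c (-L - X i c) = 1 := fun i c =>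
      ηsum _ (hX i c).le
    simp only [h1, Finset.prod_const_one, one_mul]
  have v1 : ∀ i c, ∫ X, Wt (w1 i c) X * u (cw (fo L) X) ^ 2 ≤
      3 * (C₀ / h) ^ 2 * ∫ X in boxi ι L, u X ^ 2 := by
    intro i c
    have := hFCV ι L (w1 i c) (fun X => u X ^ 2) hL (w1c i c) (w1n i c)
      (fun j d s hs => w1z i c j d s (hbz s hs)) u2c (fun X => sq_nonneg _)
    refine this.le.trans ?_
    rw [← integral_const_mul]
    refine integral_mono_of_nonneg (Eventually.of_forall fun X => ?_) (hiu.integrableOn.const_mul _) ?_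
    · exact mul_nonneg (Finset.prod_nonneg fun j _ => Finset.prod_nonneg fun d _ =>
        add_nonneg (add_nonneg (w1n _ _ _ _ _) (w1n _ _ _ _ _)) (w1n _ _ _ _ _)) (sq_nonneg _)
    · refine ae_restrict_of_forall_mem (boxi_meas L) fun X hX => ?_
      refine mul_le_mul_of_nonneg_right ?_ (sq_nonneg _)
      rw [← prod_ite3 i c (3 * (C₀ / h) ^ 2)]
      refine Finset.prod_le_prod (fun j _ => Finset.prod_nonneg fun d _ =>
        add_nonneg (add_nonneg (w1n _ _ _ _ _) (w1n _ _ _ _ _)) (w1n _ _ _ _ _)) fun j _ => ?_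
      refine Finset.prod_le_prod (fun d _ =>
        add_nonneg (add_nonneg (w1n _ _ _ _ _) (w1n _ _ _ _ _)) (w1n _ _ _ _ _)) fun d _ => ?_
      by_cases hjd : j = i ∧ d = c
      · simp only [hw1, if_pos hjd]
        have hb : ∀ s, (deriv η s) ^ 2 ≤ (C₀ / h) ^ 2 := fun s => by
          rw [← sq_abs (deriv η s)]
          exact pow_le_pow_left₀ (abs_nonneg _) (ηd s) 2
        have b1 := hb (X j d)
        have b2 := hb (L - X j d)
        have b3 := hb (-L - X j d)
        linarith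
      · simp only [hw1, if_neg hjd]
        exact (ηsum _ (hX j d).le).le
  rw [v0 _ u2c (fun X => sq_nonneg _), v0 _ edc ednn] at key2
  have hu2 : 0 ≤ ∫ X in boxi ι L, u X ^ 2 := integral_nonneg fun X => sq_nonneg _
  have hS : ∑ i, ∑ c, ∫ X, Wt (w1 i c) X * u (cw (fo L) X) ^ 2 ≤
      (Fintype.card ι : ℝ) * (9 * (C₀ / h) ^ 2) * ∫ X in boxi ι L, u X ^ 2 := by
    calc ∑ i, ∑ c, ∫ X, Wt (w1 i c) X * u (cw (fo L) X) ^ 2
        ≤ ∑ _i : ι, ∑ _c : Fin 3, 3 * (C₀ / h) ^ 2 * ∫ X in boxi ι L, u X ^ 2 :=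
          Finset.sum_le_sum fun i _ => Finset.sum_le_sum fun c _ => v1 i c
      _ = _ := by
        simp only [Finset.sum_const, Finset.card_univ, Fintype.card_fin, nsmul_eq_mul]
        push_cast
        ring
  have h1δ : 0 ≤ 1 + 1 / δ := by positivity
  have := mul_le_mul_of_nonneg_left hS h1δ
  have e : 9 * C₀ ^ 2 * (1 + 1 / δ) * (Fintype.card ι : ℝ) / h ^ 2 * ∫ X in boxi ι L, u X ^ 2 =
      (1 + 1 / δ) * ((Fintype.card ι : ℝ) * (9 * (C₀ / h) ^ 2) * ∫ X in boxi ι L, u X ^ 2) := by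
    field_simp
  rw [sub_mul, e]
  linarith

end Pool.Agent.TBA
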