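import Pool.Agent.TBA.Stmts

/-!
# Squad TBA (MP_80dc41_mp), module FPO: the potential and contractions of the coordinates
-/

set_option autoImplicit false

open MeasureTheory Filter Topology
open scoped ContDiff

namespace Pool.Agent.TBA

open Pool.Agent.TBG Pool.Agent.TBL Pool.Agent.TBF

namespace FPO_

theorem norm_cw {ι : Type} (G : ℝ → ℝ) (hG : ∀ s t, |G s - G t| ≤ |s - t|) (X : ι → E) (i j : ι) :
    ‖cw G X i - cw G X j‖ ≤ ‖X i - X j‖ := by
  rw [EuclideanSpace.norm_eq, EuclideanSpace.norm_eq]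
  apply Real.sqrt_le_sqrt
  apply Finset.sum_le_sum
  intro c _
  have h1 : (cw G X i - cw G X j) c = G (X i c) - G (X j c) := rfl
  have h2 : (X i - X j) c = X i c - X j c := rfl
  rw [h1, h2, Real.norm_eq_abs, Real.norm_eq_abs]
  exact pow_le_pow_left₀ (abs_nonneg _) (hG _ _) 2

end FPO_

open FPO_ in
theorem fpo_proof : Stmt_FPO := by
  intro V ι _ _ G hV hG X
  unfold potS
  apply mul_le_mul_of_nonneg_left _ (by norm_num)
  apply Finset.sum_le_sum
  intro t _
  apply hV.mono (cw G X t.1 - cw G X t.2.1, cw G X t.1 - cw G X t.2.2)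
    (X t.1 - X t.2.1, X t.1 - X t.2.2)
  unfold QQ
  have h1 := norm_cw G hG X t.1 t.2.1
  have h2 := norm_cw G hG X t.1 t.2.2
  have h3 : ‖(cw G X t.1 - cw G X t.2.1) - (cw G X t.1 - cw G X t.2.2)‖ ≤
      ‖(X t.1 - X t.2.1) - (X t.1 - X t.2.2)‖ := by
    rw [sub_sub_sub_cancel_left, sub_sub_sub_cancel_left]
    exact norm_cw G hG X t.2.2 t.2.1
  have e1 := pow_le_pow_left₀ (norm_nonneg _) h1 2
  have e2 := pow_le_pow_left₀ (norm_nonneg _) h2 2
  have e3 := pow_le_pow_left₀ (norm_nonneg _) h3 2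
  simp only
  linarith

end Pool.Agent.TBA
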