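import Pool.Agent.TBA.Stmts

/-!
Squad TBA, module FUC: derivatives of the unfolded function.
-/

set_option autoImplicit false

open MeasureTheory Filter Topology
open scoped ContDiff

namespace Pool.Agent.TBA

open Pool.Agent.TBG Pool.Agent.TBL Pool.Agent.TBF

namespace FUC_

variable {ι : Type} [Fintype ι] [DecidableEq ι]

/-- the coordinate -/
noncomputable def L (j : ι) (d : Fin 3) : (ι → E) →L[ℝ] ℝ :=
  (EuclideanSpace.proj d : E →L[ℝ] ℝ).comp (ContinuousLinearMap.proj (R := ℝ) (φ := fun _ : ι => E) j)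

lemma L_apply (j : ι) (d : Fin 3) (X : ι → E) : L j d X = X j d := rfl

lemma cw_smooth (G : ℝ → ℝ) (hG : ContDiff ℝ ∞ G) : ContDiff ℝ ∞ (cw G : (ι → E) → (ι → E)) := by
  refine contDiff_pi.2 fun j => ?_
  refine contDiff_euclidean.2 fun d => ?_
  exact hG.comp (L j d).contDiff

lemma split (i : ι) (c : Fin 3) (f : ι → Fin 3 → ℝ) : ∏ j, ∏ d, f j d =
    f i c * ∏ j, ∏ d, (if j = i ∧ d = c then 1 else f j d) := by
  have h1 : ∀ j d, f j d = (if j = i ∧ d = c then f j d else 1) *
      (if j = i ∧ d = c then 1 else f j d) := by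
    intro j d
    by_cases h : j = i ∧ d = c
    · rw [if_pos h, if_pos h, mul_one]
    · rw [if_neg h, if_neg h, one_mul]
  have h2 : ∏ j, ∏ d, (if j = i ∧ d = c then f j d else 1) = f i c := by
    rw [Finset.prod_eq_single i]
    · rw [Finset.prod_eq_single c]
      · rw [if_pos ⟨rfl, rfl⟩]
      · intro d _ hd
        rw [if_neg fun h => hd h.2]
      · intro h
        exact absurd (Finset.mem_univ c) h
    · intro j _ hj
      refine Finset.prod_eq_one fun d _ => ?_
      rw [if_neg fun h => hj h.1]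
    · intro h
      exact absurd (Finset.mem_univ i) h
  calc ∏ j, ∏ d, f j d = ∏ j, ∏ d, ((if j = i ∧ d = c then f j d else 1) *
      (if j = i ∧ d = c then 1 else f j d)) :=
        Finset.prod_congr rfl fun j _ => Finset.prod_congr rfl fun d _ => h1 j d
    _ = _ := by
        simp only [Finset.prod_mul_distrib]
        rw [h2]

/-- the direction -/
noncomputable def ee (i : ι) (c : Fin 3) : ι → E := Pi.single i (ev c)

lemma ee_apply (i j : ι) (c d : Fin 3) : ee i c j d = if j = i ∧ d = c then 1 else 0 := by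
  unfold ee ev
  by_cases h : j = i
  · subst h
    rw [Pi.single_eq_same]
    by_cases h2 : d = c
    · subst h2
      simp
    · simp [h2]
  · rw [Pi.single_eq_of_ne h]
    simp [h]

lemma move (i j : ι) (c d : Fin 3) (X : ι → E) (t : ℝ) :
    (X + t • ee i c) j d = X j d + (if j = i ∧ d = c then t else 0) := by
  have h := ee_apply i j c d
  show X j d + t * ee i c j d = _
  rw [h]
  by_cases h2 : j = i ∧ d = c
  · rw [if_pos h2, if_pos h2, mul_one]
  · rw [if_neg h2, if_neg h2, mul_zero]

lemma line (F : (ι → E) → ℝ) (X e : ι → E) (hF : DifferentiableAt ℝ F X) :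
    HasDerivAt (fun t : ℝ => F (X + t • e)) (fderiv ℝ F X e) 0 := by
  have h1 : HasDerivAt (fun t : ℝ => X + t • e) e 0 := by
    have h2 := ((hasDerivAt_id (0 : ℝ)).smul_const e).const_add X
    simpa using h2
  have h3 : X + (0 : ℝ) • e = X := by simp
  have h4 : HasFDerivAt F (fderiv ℝ F X) (X + (0 : ℝ) • e) := by
    rw [h3]
    exact hF.hasFDerivAt
  exact h4.comp_hasDerivAt (0 : ℝ) h1

lemma one_d (g : ℝ → ℝ) (hg : Differentiable ℝ g) (s : ℝ) (p : Prop) [Decidable p] :
    HasDerivAt (fun t : ℝ => g (s + if p then t else 0)) (if p then deriv g s else 0) 0 := by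
  by_cases h : p
  · simp only [if_pos h]
    have h1 : HasDerivAt (fun t : ℝ => s + t) 1 0 := (hasDerivAt_id (0 : ℝ)).const_add s
    have h2 : HasDerivAt g (deriv g s) (s + 0) := by
      rw [add_zero]
      exact (hg s).hasDerivAt
    have h3 := h2.comp (0 : ℝ) h1
    rw [mul_one] at h3
    exact h3
  · simp only [if_neg h]
    exact hasDerivAt_const (0 : ℝ) _

lemma cw_deriv (G : ℝ → ℝ) (hG : ContDiff ℝ ∞ G) (X : ι → E) (i : ι) (c : Fin 3) :
    HasDerivAt (fun t : ℝ => cw G (X + t • ee i c)) (deriv G (X i c) • ee i c) 0 := by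
  have hcw := cw_smooth (ι := ι) G hG
  have h1 : HasDerivAt (fun t : ℝ => X + t • ee i c) (ee i c) 0 := by
    have h2 := ((hasDerivAt_id (0 : ℝ)).smul_const (ee i c)).const_add X
    simpa using h2
  have h3 : X + (0 : ℝ) • ee i c = X := by simp
  have h4 : HasFDerivAt (cw G : (ι → E) → (ι → E)) (fderiv ℝ (cw G) X) (X + (0 : ℝ) • ee i c) := by
    rw [h3]
    exact ((hcw.differentiable (by simp)) X).hasFDerivAt
  have h5 := h4.comp_hasDerivAt (0 : ℝ) h1
  have h6 : fderiv ℝ (cw G) X (ee i c) = deriv G (X i c) • ee i c := by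
    funext j
    refine PiLp.ext fun d => ?_
    have h7 := ((L j d).hasFDerivAt (x := cw G (X + (0 : ℝ) • ee i c))).comp_hasDerivAt (0 : ℝ) h5
    have h8 := one_d G (hG.differentiable (by simp)) (X j d) (j = i ∧ d = c)
    have h9 : (⇑(L j d) ∘ ((cw G : (ι → E) → (ι → E)) ∘ fun t : ℝ => X + t • ee i c)) =
        fun t : ℝ => G (X j d + if j = i ∧ d = c then t else 0) := by
      funext t
      show G ((X + t • ee i c) j d) = _
      rw [move]
    rw [h9] at h7
    have h10 := h7.unique h8
    have h11 : (fderiv ℝ (cw G) X (ee i c)) j d = if j = i ∧ d = c then deriv G (X j d) else 0 :=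
      h10
    rw [h11]
    show _ = deriv G (X i c) * ee i c j d
    rw [ee_apply]
    by_cases h : j = i ∧ d = c
    · rw [if_pos h, if_pos h, mul_one, h.1, h.2]
    · rw [if_neg h, if_neg h, mul_zero]
  rw [h6] at h5
  exact h5

end FUC_

open FUC_ in
/-- derivatives of the unfolded function -/
theorem fuc_proof : Stmt_FUC := by
  intro ι _ _ η G B u hη hG hG1 hB hu
  have hcw := cw_smooth (ι := ι) G hG
  have hP : ContDiff ℝ ∞ (fun X : ι → E => ∏ i, ∏ c, η (X i c)) := by
    refine contDiff_prod fun i _ => ?_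
    refine contDiff_prod fun c _ => ?_
    exact hη.comp (L i c).contDiff
  have hFU : ContDiff ℝ ∞ (FU η G u) := hP.mul (hu.comp hcw)
  set K : Set (ι → E) := {X | ∀ i c, |X i c| ≤ B} with hK
  have hKc : IsClosed K := by
    have h1 : K = ⋂ i, ⋂ c, {X : ι → E | |X i c| ≤ B} := by
      ext X
      simp only [hK, Set.mem_iInter]
      rfl
    rw [h1]
    refine isClosed_iInter fun i => isClosed_iInter fun c => ?_
    exact isClosed_le (L i c).continuous.abs continuous_const
  have hKb : Bornology.IsBounded K := by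
    rw [isBounded_iff_forall_norm_le]
    refine ⟨Real.sqrt (∑ _c : Fin 3, B ^ 2), fun X hX => ?_⟩
    rw [pi_norm_le_iff_of_nonneg (Real.sqrt_nonneg _)]
    intro i
    rw [EuclideanSpace.norm_eq]
    refine Real.sqrt_le_sqrt (Finset.sum_le_sum fun c _ => ?_)
    rw [Real.norm_eq_abs]
    exact pow_le_pow_left₀ (abs_nonneg _) (hX i c) 2
  have hKcomp : IsCompact K := Metric.isCompact_of_isClosed_isBounded hKc hKb
  have hz : ∀ X, X ∉ K → FU η G u X = 0 := by
    intro X hX
    have h1 : ∃ i c, B < |X i c| := by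
      by_contra h
      push Not at h
      exact hX h
    obtain ⟨i, c, hic⟩ := h1
    unfold FU
    rw [Finset.prod_eq_zero (Finset.mem_univ i)
      (Finset.prod_eq_zero (Finset.mem_univ c) (hB _ hic.le)), zero_mul]
  have hsup : Function.support (FU η G u) ⊆ K := by
    intro X hX
    by_contra h
    exact hX (hz X h)
  refine ⟨hFU, HasCompactSupport.intro hKcomp hz, ?_, ?_, ?_⟩
  · intro X hX
    exact closure_minimal hsup hKc hX
  · intro X
    unfold FU
    rw [mul_pow, ← Finset.prod_pow]
    congr 1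
    refine Finset.prod_congr rfl fun i _ => ?_
    rw [Finset.prod_pow]
  · intro δ X i c hδ
    set R : ℝ := ∏ j, ∏ d, (if j = i ∧ d = c then 1 else η (X j d)) with hR
    set Y : ι → E := cw G X with hY
    -- the derivative
    have h1 : HasDerivAt (fun t : ℝ => FU η G u (X + t • ee i c)) (di i c (FU η G u) X) 0 :=
      line _ X (ee i c) ((hFU.differentiable (by simp)) X)
    have h2 : HasDerivAt (fun t : ℝ => η (X i c + t) * R) (deriv η (X i c) * R) 0 := by
      have h3 := (one_d η (hη.differentiable (by simp)) (X i c) True).mul_const R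
      simpa using h3
    have h4 : HasDerivAt (fun t : ℝ => u (cw G (X + t • ee i c)))
        (deriv G (X i c) * di i c u Y) 0 := by
      have h5 := cw_deriv G hG X i c
      have h6 : cw G (X + (0 : ℝ) • ee i c) = Y := by simp [hY]
      have h7 : HasFDerivAt u (fderiv ℝ u Y) (cw G (X + (0 : ℝ) • ee i c)) := by
        rw [h6]
        exact ((hu.differentiable (by simp)) Y).hasFDerivAt
      have h8 := h7.comp_hasDerivAt (0 : ℝ) h5
      have h9 : fderiv ℝ u Y (deriv G (X i c) • ee i c) = deriv G (X i c) * di i c u Y := by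
        rw [map_smul]
        rfl
      rw [h9] at h8
      exact h8
    have h10 : (fun t : ℝ => FU η G u (X + t • ee i c)) =
        fun t : ℝ => (η (X i c + t) * R) * u (cw G (X + t • ee i c)) := by
      funext t
      unfold FU
      congr 1
      rw [split i c]
      have e1 : (X + t • ee i c) i c = X i c + t := by
        rw [move, if_pos ⟨rfl, rfl⟩]
      rw [e1, hR]
      congr 1
      refine Finset.prod_congr rfl fun j _ => Finset.prod_congr rfl fun d _ => ?_
      by_cases h : j = i ∧ d = c
      · rw [if_pos h, if_pos h]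
      · rw [if_neg h, if_neg h, move, if_neg h, add_zero]
    rw [h10] at h1
    have h11 := h1.unique (h2.mul h4)
    have h12 : cw G (X + (0 : ℝ) • ee i c) = Y := by simp [hY]
    rw [h12, add_zero] at h11
    rw [h11]
    -- the products
    have p1 : (∏ j, ∏ d, η (X j d) ^ 2) = η (X i c) ^ 2 * R ^ 2 := by
      rw [split i c]
      congr 1
      rw [hR, ← Finset.prod_pow]
      refine Finset.prod_congr rfl fun j _ => ?_
      rw [← Finset.prod_pow]
      refine Finset.prod_congr rfl fun d _ => ?_
      by_cases h : j = i ∧ d = c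
      · rw [if_pos h, if_pos h, one_pow]
      · rw [if_neg h, if_neg h]
    have p2 : (∏ j, ∏ d, (if j = i ∧ d = c then (deriv η (X j d)) ^ 2 else η (X j d) ^ 2)) =
        deriv η (X i c) ^ 2 * R ^ 2 := by
      rw [split i c, if_pos ⟨rfl, rfl⟩]
      congr 1
      rw [hR, ← Finset.prod_pow]
      refine Finset.prod_congr rfl fun j _ => ?_
      rw [← Finset.prod_pow]
      refine Finset.prod_congr rfl fun d _ => ?_
      by_cases h : j = i ∧ d = c
      · rw [if_pos h, if_pos h, one_pow]
      · rw [if_neg h, if_neg h, if_neg h]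
    rw [p1, p2]
    set a : ℝ := deriv η (X i c) * R * u Y with ha
    set b : ℝ := η (X i c) * R * (deriv G (X i c) * di i c u Y) with hb
    have q1 : (a + b) ^ 2 ≤ (1 + δ) * b ^ 2 + (1 + 1 / δ) * a ^ 2 := by
      have h : 0 ≤ (a - δ * b) ^ 2 / δ := by positivity
      have h' : (a - δ * b) ^ 2 / δ = 1 / δ * a ^ 2 + δ * b ^ 2 - 2 * (a * b) := by
        field_simp
        ring
      rw [h'] at h
      nlinarith
    have q2 : b ^ 2 ≤ η (X i c) ^ 2 * R ^ 2 * (di i c u Y) ^ 2 := by
      have h : (deriv G (X i c)) ^ 2 ≤ 1 := by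
        have h' := pow_le_pow_left₀ (abs_nonneg _) (hG1 (X i c)) 2
        rwa [sq_abs, one_pow] at h'
      have h' : b ^ 2 = η (X i c) ^ 2 * R ^ 2 * (di i c u Y) ^ 2 * (deriv G (X i c)) ^ 2 := by
        rw [hb]
        ring
      rw [h']
      exact mul_le_of_le_one_right (by positivity) h
    have q3 : a ^ 2 = deriv η (X i c) ^ 2 * R ^ 2 * u Y ^ 2 := by
      rw [ha]
      ring
    rw [q3] at q1
    have q4 : (1 + δ) * b ^ 2 ≤ (1 + δ) * (η (X i c) ^ 2 * R ^ 2 * (di i c u Y) ^ 2) :=
      mul_le_mul_of_nonneg_left q2 (by linarith)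
    exact q1.trans (add_le_add q4 le_rfl)

end Pool.Agent.TBA
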