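import Pool.Agent.TBA.Stmts

/-!
# GFI: finitely many distant domains
-/

set_option autoImplicit false

open MeasureTheory Filter Topology
open scoped ContDiff

namespace Pool.Agent.TBA

open Pool.Agent.TBG Pool.Agent.TBL Pool.Agent.TBF

theorem gfi_proof (hEDE : Stmt_EDE) (hGLU : Stmt_GLU) : Stmt_GFI := by
  classical
  intro V J _ S Ω n R hV hR hS
  induction hS using Finset.Nonempty.cons_induction with
  | singleton b =>
    intro _ _
    have h1 : (⋃ a ∈ ({b} : Finset J), Ω a) = Ω b := by simp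
    rw [h1, Finset.sum_singleton (fun a => ED V (Fin (n a)) (Ω a)) b]
    refine le_of_eq (hEDE V _ _ _ ?_)
    simp
  | cons b T hb hT ih =>
    intro ho hd
    have hT1 : ∀ a ∈ T, IsOpen (Ω a) ∧ (Ω a).Nonempty := fun a ha =>
      ho a (Finset.mem_cons_of_mem ha)
    have hb1 := ho b (Finset.mem_cons_self b T)
    have hih := ih hT1 fun a ha c hc => hd a (Finset.mem_cons_of_mem ha) c
      (Finset.mem_cons_of_mem hc)
    have hU : (⋃ a ∈ Finset.cons b T hb, Ω a) = Ω b ∪ ⋃ a ∈ T, Ω a := by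
      rw [Finset.cons_eq_insert, Finset.set_biUnion_insert]
    rw [hU]
    have h2 : ED V (Fin (∑ a ∈ Finset.cons b T hb, n a)) (Ω b ∪ ⋃ a ∈ T, Ω a) =
        ED V (Fin (n b) ⊕ Fin (∑ a ∈ T, n a)) (Ω b ∪ ⋃ a ∈ T, Ω a) := by
      refine hEDE V _ _ _ ?_
      rw [Fintype.card_fin, Fintype.card_sum, Fintype.card_fin, Fintype.card_fin,
        Finset.sum_cons]
    rw [h2, Finset.sum_cons hb (f := fun a => ED V (Fin (n a)) (Ω a))]
    have h3 := hGLU V (Fin (n b)) (Fin (∑ a ∈ T, n a)) (Ω b) (⋃ a ∈ T, Ω a) R hV hR hb1.1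
      (isOpen_biUnion fun a ha => (hT1 a ha).1) hb1.2 (by
        obtain ⟨a, ha⟩ := hT
        obtain ⟨x, hx⟩ := (hT1 a ha).2
        exact ⟨x, Set.mem_biUnion ha hx⟩) (by
        intro x hx y hy
        obtain ⟨a, ha, hya⟩ := Set.mem_iUnion₂.1 hy
        refine hd b (Finset.mem_cons_self b T) a (Finset.mem_cons_of_mem ha) ?_ x hx y hya
        rintro rfl
        exact hb ha)
    exact h3.trans (by linarith)

end Pool.Agent.TBA
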