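import Pool.Agent.TBA.Stmts

set_option autoImplicit false

open MeasureTheory Filter Topology
open scoped ContDiff

namespace Pool.Agent.TBA

open Pool.Agent.TBG Pool.Agent.TBL Pool.Agent.TBF

theorem glu_proof (hEDB : Stmt_EDB) (hPRD : Stmt_PRD) : Stmt_GLU := by
  intro V ι κ _ _ _ _ Ω₁ Ω₂ R hV hR ho1 ho2 hn1 hn2 hd
  obtain ⟨-, -, -, h1⟩ := hEDB V ι Ω₁ hV ho1 hn1
  obtain ⟨-, -, -, h2⟩ := hEDB V κ Ω₂ hV ho2 hn2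
  obtain ⟨-, -, h3, -⟩ := hEDB V (ι ⊕ κ) (Ω₁ ∪ Ω₂) hV (ho1.union ho2) hn1.inl
  refine le_of_forall_pos_le_add ?_
  intro ε hε
  obtain ⟨u, hu, hu0, hue⟩ := h1 (ε / 2) (by positivity)
  obtain ⟨v, hv, hv0, hve⟩ := h2 (ε / 2) (by positivity)
  obtain ⟨hp, hpi, hpe⟩ := hPRD V ι κ Ω₁ Ω₂ R u v hV hR hd hu hv
  have h4 := h3 _ hp
  rw [hpi, hpe] at h4
  set I := ∫ X, u X ^ 2
  set J := ∫ X, v X ^ 2
  have hIJ : 0 < I * J := mul_pos hu0 hv0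
  have h5 : en V u * J ≤ (ED V ι Ω₁ + ε / 2) * I * J := mul_le_mul_of_nonneg_right hue hv0.le
  have h6 : I * en V v ≤ I * ((ED V κ Ω₂ + ε / 2) * J) := mul_le_mul_of_nonneg_left hve hu0.le
  have h7 : ED V (ι ⊕ κ) (Ω₁ ∪ Ω₂) * (I * J) ≤ (ED V ι Ω₁ + ED V κ Ω₂ + ε) * (I * J) := by
    calc ED V (ι ⊕ κ) (Ω₁ ∪ Ω₂) * (I * J) ≤ en V u * J + I * en V v := h4
      _ ≤ (ED V ι Ω₁ + ε / 2) * I * J + I * ((ED V κ Ω₂ + ε / 2) * J) := add_le_add h5 h6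
      _ = (ED V ι Ω₁ + ED V κ Ω₂ + ε) * (I * J) := by ring
  exact le_of_mul_le_mul_right h7 hIJ

end Pool.Agent.TBA
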