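import Pool.Agent.TBA.Stmts

set_option autoImplicit false

open MeasureTheory Filter Topology
open scoped ContDiff

namespace Pool.Agent.TBA

open Pool.Agent.TBG Pool.Agent.TBL Pool.Agent.TBF

namespace GRC_

/-- the centre of the cell `a` -/
noncomputable def ctr (w : ℝ) (k : ℕ) (a : Fin 3 → Fin k) : E :=
  WithLp.toLp 2 (fun c => -(k * w / 2) + ((a c : ℕ) + 1 / 2 : ℝ) * w)

lemma ctr_apply (w : ℝ) (k : ℕ) (a : Fin 3 → Fin k) (c : Fin 3) :
    ctr w k a c = -(k * w / 2) + ((a c : ℕ) + 1 / 2 : ℝ) * w := rfl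

end GRC_

open GRC_ in
theorem grc_proof (hEDM : Stmt_EDM) (hEDT : Stmt_EDT) (hGFI : Stmt_GFI) : Stmt_GRC := by
  intro V R r s L k n hV hR hRr hr hs hk hL
  obtain ⟨hcube, hmon⟩ := hEDM
  obtain ⟨w, hw⟩ : ∃ w : ℝ, w = s + r := ⟨_, rfl⟩
  rw [← hw] at hL
  have hw0 : 0 < w := by rw [hw]; positivity
  have : NeZero k := ⟨hk.ne'⟩
  have hopen : ∀ a : Fin 3 → Fin k, IsOpen {x : E | x - ctr w k a ∈ cube s} := fun a =>
    (hcube s).1.preimage (continuous_id.sub continuous_const)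
  have hne : ∀ a : Fin 3 → Fin k, ({x : E | x - ctr w k a ∈ cube s}).Nonempty := by
    intro a
    refine ⟨ctr w k a, ?_⟩
    simp only [Set.mem_ofPred_eq, sub_self, cube, PiLp.zero_apply, abs_zero]
    intro c; positivity
  have hdist : ∀ a b : Fin 3 → Fin k, a ≠ b → ∀ x ∈ {x : E | x - ctr w k a ∈ cube s},
      ∀ y ∈ {x : E | x - ctr w k b ∈ cube s}, R < ‖x - y‖ := by
    intro a b hab x hx y hy
    obtain ⟨c, hc⟩ := Function.ne_iff.1 hab
    have hx' : |x c - ctr w k a c| < s / 2 := hx c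
    have hy' : |y c - ctr w k b c| < s / 2 := hy c
    have h1 : w ≤ |ctr w k a c - ctr w k b c| := by
      rw [ctr_apply, ctr_apply]
      have h2 : -(k * w / 2) + ((a c : ℕ) + 1 / 2 : ℝ) * w -
          (-(k * w / 2) + ((b c : ℕ) + 1 / 2 : ℝ) * w) = (((a c : ℕ) : ℝ) - ((b c : ℕ) : ℝ)) * w := by
        ring
      rw [h2, abs_mul, abs_of_pos hw0]
      have h3 : (1 : ℝ) ≤ |((a c : ℕ) : ℝ) - ((b c : ℕ) : ℝ)| := by
        have h4 : ((a c : ℕ) : ℤ) - ((b c : ℕ) : ℤ) ≠ 0 := by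
          intro h5
          apply hc
          apply Fin.ext
          omega
        have h5 : (1 : ℤ) ≤ |((a c : ℕ) : ℤ) - ((b c : ℕ) : ℤ)| := Int.one_le_abs h4
        exact_mod_cast h5
      nlinarith
    have h2 : |x c - y c| ≤ ‖x - y‖ := by
      have := PiLp.norm_apply_le (x - y) c
      simpa using this
    have h3 : |ctr w k a c - ctr w k b c| ≤ |x c - y c| + |x c - ctr w k a c| +
        |y c - ctr w k b c| := by
      have h4 : ctr w k a c - ctr w k b c = (x c - y c) - (x c - ctr w k a c) +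
        (y c - ctr w k b c) := by ring
      rw [h4]
      refine (abs_add_le _ _).trans ?_
      have := abs_sub (x c - y c) (x c - ctr w k a c)
      linarith
    linarith
  have hG := hGFI V (Fin 3 → Fin k) Finset.univ (fun a => {x : E | x - ctr w k a ∈ cube s}) n R
    hV hR Finset.univ_nonempty (fun a _ => ⟨hopen a, hne a⟩)
    (fun a _ b _ hab x hx y hy => hdist a b hab x hx y hy)
  have hsub : (⋃ a ∈ (Finset.univ : Finset (Fin 3 → Fin k)), {x : E | x - ctr w k a ∈ cube s}) ⊆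
      cube L := by
    intro x hx
    simp only [Set.mem_iUnion, Finset.mem_univ, exists_true_left] at hx
    obtain ⟨a, ha⟩ := hx
    intro c
    have hx' : |x c - ctr w k a c| < s / 2 := ha c
    rw [ctr_apply, abs_lt] at hx'
    have h1 : (0 : ℝ) ≤ ((a c : ℕ) : ℝ) := by positivity
    have h2 : ((a c : ℕ) : ℝ) + 1 ≤ k := by exact_mod_cast (a c).2
    rw [abs_lt]
    constructor <;> nlinarith
  have hM := hmon V (Fin (∑ a, n a))
    (⋃ a ∈ (Finset.univ : Finset (Fin 3 → Fin k)), {x : E | x - ctr w k a ∈ cube s}) (cube L) hV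
    (isOpen_biUnion fun a _ => hopen a)
    (by
      obtain ⟨x, hx⟩ := hne (fun _ => 0)
      exact ⟨x, Set.mem_biUnion (Finset.mem_coe.2 (Finset.mem_univ _)) hx⟩) (hcube L).1 hsub
  refine hM.trans (hG.trans (le_of_eq (Finset.sum_congr rfl fun a _ => ?_)))
  exact hEDT V (Fin (n a)) (cube s) (ctr w k a)

end Pool.Agent.TBA
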