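import Pool.Agent.TBA.Stmts

set_option autoImplicit false

open MeasureTheory Filter Topology
open scoped ContDiff

namespace Pool.Agent.TBA

open Pool.Agent.TBG Pool.Agent.TBL Pool.Agent.TBF

theorem kbd_proof : Stmt_KBD := by
  intro f r hr hf A hA
  set n₀ : ℕ := ⌈8 * A * (1 + r) ^ 3⌉₊ with hn₀
  have hf0 : 0 ≤ f n₀ 1 := hf.nonneg n₀ 1 one_pos
  refine ⟨f n₀ 1 + 1, 2 * (1 + r), by linarith, by linarith, ?_⟩
  intro s n hs hn
  have h1r : 0 < 1 + r := by linarith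
  have hs0 : 0 < s := by linarith
  set k : ℕ := ⌊s / (1 + r)⌋₊ with hk
  have hdiv : 2 ≤ s / (1 + r) := by
    rw [le_div_iff₀ h1r]
    linarith
  have hk1 : 1 ≤ k := by
    rw [hk]
    apply Nat.le_floor
    push_cast
    linarith
  have hkr : (1 : ℝ) ≤ k := by exact_mod_cast hk1
  have hklt : s / (1 + r) < k + 1 := Nat.lt_floor_add_one _
  have hkle : (k : ℝ) ≤ s / (1 + r) := Nat.floor_le (by positivity)
  have hk2 : (k : ℝ) * (1 + r) ≤ s := by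
    rwa [le_div_iff₀ h1r] at hkle
  have hs2 : s ≤ 2 * k * (1 + r) := by
    rw [div_lt_iff₀ h1r] at hklt
    nlinarith
  have hks : (k : ℝ) ≤ s := by nlinarith
  have hnk : (n : ℝ) ≤ (k : ℝ) ^ 3 * n₀ := by
    have h1 : s ^ 3 ≤ (2 * k * (1 + r)) ^ 3 := pow_le_pow_left₀ hs0.le hs2 3
    have h2 : 8 * A * (1 + r) ^ 3 ≤ n₀ := Nat.le_ceil _
    have hk3 : (0 : ℝ) ≤ (k : ℝ) ^ 3 := by positivity
    calc (n : ℝ) ≤ A * s ^ 3 := hn
      _ ≤ A * (2 * k * (1 + r)) ^ 3 := mul_le_mul_of_nonneg_left h1 hA.le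
      _ = (k : ℝ) ^ 3 * (8 * A * (1 + r) ^ 3) := by ring
      _ ≤ (k : ℝ) ^ 3 * n₀ := mul_le_mul_of_nonneg_left h2 hk3
  have hnk' : n ≤ k ^ 3 * n₀ := by exact_mod_cast hnk
  have hsup := hf.sup k (k ^ 3) 0 n₀ 0 1 s (by omega) (by simp) one_pos (by linarith)
  have hmono := hf.mono n (k ^ 3 * n₀) s hs0 hnk'
  have hk3s : (k : ℝ) ^ 3 ≤ s ^ 3 := pow_le_pow_left₀ (by positivity) hks 3
  have h3 : f (k ^ 3 * n₀) s ≤ (k : ℝ) ^ 3 * f n₀ 1 := by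
    have := hsup
    simp only [mul_zero, add_zero] at this
    push_cast at this
    simpa using this
  calc f n s ≤ f (k ^ 3 * n₀) s := hmono
    _ ≤ (k : ℝ) ^ 3 * f n₀ 1 := h3
    _ ≤ s ^ 3 * f n₀ 1 := mul_le_mul_of_nonneg_right hk3s hf0
    _ ≤ (f n₀ 1 + 1) * s ^ 3 := by nlinarith [pow_pos hs0 3]

end Pool.Agent.TBA
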