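import Pool.Agent.TBA.Stmts

/-!
# Squad TBA, module LIM: the limit of the Dirichlet energies
-/

set_option autoImplicit false

open MeasureTheory Filter Topology
open scoped ContDiff

namespace Pool.Agent.TBA

open Pool.Agent.TBG Pool.Agent.TBL Pool.Agent.TBF

theorem lim_proof (hKBD : Stmt_KBD) (hLMB : Stmt_LMB) (hLMF : Stmt_LMF) (hTHE : Pool.Agent.TBG.Stmt_THE) :
    Stmt_LIM := by
  intro f r hr hS ρ hρ
  obtain ⟨hne, hN, hL, hd, hpos⟩ := hTHE ρ hρ
  obtain ⟨K, s0, hK, hs0, hKB⟩ := hKBD f r hr hS (ρ + 1) (by linarith)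
  apply hLMF (ℕ × ℝ) (thermo ρ) (fun p => f p.1 p.2 / p.2 ^ 3) K hne
  · filter_upwards [hpos] with p hp
    exact div_nonneg (hS.nonneg p.1 p.2 hp) (by positivity)
  · filter_upwards [hpos, hL.eventually_ge_atTop s0,
      hd.eventually (eventually_le_nhds (show ρ < ρ + 1 by linarith))] with p hp hps hpd
    have h3 : 0 < p.2 ^ 3 := by positivity
    rw [div_le_iff₀ h3] at hpd ⊢
    exact hKB p.2 p.1 hps hpd
  · intro B ε hε hfr
    obtain ⟨ε', s1, hε', hs1, hLB⟩ := hLMB f r hr hS ρ ε hρ hε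
    have hev : ∀ᶠ p in thermo ρ, 0 < p.2 ∧ s1 ≤ p.2 ∧ ρ - ε' ≤ (p.1 : ℝ) / p.2 ^ 3 := by
      filter_upwards [hpos, hL.eventually_ge_atTop s1,
        hd.eventually (eventually_ge_nhds (show ρ - ε' < ρ by linarith))] with p hp hps hpd
      exact ⟨hp, hps, hpd⟩
    obtain ⟨p, hpB, hp0, hps, hpd⟩ := (hfr.and_eventually hev).exists
    have h3 : 0 < p.2 ^ 3 := by positivity
    rw [div_le_iff₀ h3] at hpB
    obtain ⟨L1, hL1, hfin⟩ := hLB p.1 p.2 B hps hpd hpB
    filter_upwards [hpos, hL.eventually_ge_atTop L1,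
      hd.eventually (eventually_le_nhds (show ρ < ρ + ε' by linarith))] with q hq0 hqL hqd
    have h4 : 0 < q.2 ^ 3 := by positivity
    rw [div_le_iff₀ h4]
    exact hfin q.1 q.2 hqL hqd

end Pool.Agent.TBA
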