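import Pool.Agent.TBA.Stmts

set_option autoImplicit false

open MeasureTheory Filter Topology
open scoped ContDiff

namespace Pool.Agent.TBA

open Pool.Agent.TBG Pool.Agent.TBL Pool.Agent.TBF

namespace LMB_

/-- cubes of `1 + x` -/
lemma cube_le {x δ : ℝ} (hx : 0 ≤ x) (hx1 : x ≤ 1) (h : 7 * x ≤ δ) : (1 + x) ^ 3 ≤ 1 + δ := by
  have h2 : x ^ 2 ≤ x := by nlinarith
  have h3 : x ^ 3 ≤ x := by nlinarith [mul_nonneg hx hx]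
  nlinarith

/-- the choice of `ε'` -/
lemma choice {ρ θ δ : ℝ} (hρ : 0 < ρ) (hθ : 0 < θ) (hθ1 : θ ≤ 1 / 2) (hδ : 0 < δ) (hδθ : δ ≤ θ / 2)
    (hδρ : δ ≤ ρ / 2) (hδ1 : δ ≤ 1 / 2) :
    (ρ + δ) * (1 + δ) ≤ (ρ - δ) * (1 - δ) + θ * ((2 * ρ + 2) - (ρ - δ) * (1 - δ)) := by
  have h1 : δ ^ 2 ≤ δ := by nlinarith
  have h2 : (ρ - δ) * (1 - δ) ≥ ρ - δ * (1 + ρ) := by nlinarith [sq_nonneg δ]
  have h3 : (1 - θ) * ((ρ - δ) * (1 - δ)) ≥ (1 - θ) * (ρ - δ * (1 + ρ)) :=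
    mul_le_mul_of_nonneg_left h2 (by linarith)
  have h4 : (1 - θ) * (ρ - δ * (1 + ρ)) ≥ ρ - θ * ρ - δ * (1 + ρ) := by
    have : 0 ≤ θ * (δ * (1 + ρ)) := by positivity
    nlinarith
  have h5 : (ρ + δ) * (1 + δ) ≤ ρ + δ * (2 + ρ) := by nlinarith
  have h6 : δ * (3 + 2 * ρ) ≤ θ / 2 * (3 + 2 * ρ) := mul_le_mul_of_nonneg_right hδθ (by positivity)
  have h7 : θ / 2 * (3 + 2 * ρ) ≤ θ * (ρ + 2) := by nlinarith
  nlinarith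

/-- the numbers of particles -/
lemma count {ρ θ δ W n₁ n₂ k3 m₂ : ℝ} (hρ : 0 < ρ) (hθ : 0 < θ) (hθ1 : θ ≤ 1 / 2) (hδ : 0 < δ) (hδθ : δ ≤ θ / 2)
    (hδρ : δ ≤ ρ / 2) (hδ1 : δ ≤ 1 / 2) (hW : 0 ≤ W) (hk3 : 0 ≤ k3)
    (hn₁ : (ρ - δ) * (1 - δ) * W ≤ n₁) (hn₂ : (2 * ρ + 2) * W ≤ n₂) (hm₂ : θ * k3 ≤ m₂) (hm₂k : m₂ ≤ k3) :
    (ρ + δ) * ((1 + δ) * k3 * W) ≤ (k3 - m₂) * n₁ + m₂ * n₂ := by
  have hc := choice hρ hθ hθ1 hδ hδθ hδρ hδ1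
  obtain ⟨a, ha⟩ : ∃ a, a = (ρ - δ) * (1 - δ) := ⟨_, rfl⟩
  have hab : 0 ≤ (2 * ρ + 2) - a := by
    rw [ha]; nlinarith
  rw [← ha] at hc hn₁
  have hm0 : 0 ≤ m₂ := le_trans (by positivity) hm₂
  have h1 : (k3 - m₂) * (a * W) ≤ (k3 - m₂) * n₁ := mul_le_mul_of_nonneg_left hn₁ (by linarith)
  have h2 : m₂ * ((2 * ρ + 2) * W) ≤ m₂ * n₂ := mul_le_mul_of_nonneg_left hn₂ hm0
  have h3 : θ * k3 * (((2 * ρ + 2) - a) * W) ≤ m₂ * (((2 * ρ + 2) - a) * W) :=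
    mul_le_mul_of_nonneg_right hm₂ (mul_nonneg hab hW)
  have h4 : (ρ + δ) * (1 + δ) * (k3 * W) ≤ (a + θ * ((2 * ρ + 2) - a)) * (k3 * W) :=
    mul_le_mul_of_nonneg_right hc (mul_nonneg hk3 hW)
  nlinarith

end LMB_

open LMB_ in
theorem lmb_proof (hKBD : Stmt_KBD) : Stmt_LMB := by
  intro f r hr hf ρ ε hρ hε
  obtain ⟨K, s₀, hK, hs₀, hKs⟩ := hKBD f r hr hf (16 * ρ + 17) (by positivity)
  obtain ⟨θ, hθdef⟩ : ∃ θ, θ = min (1 / 2 : ℝ) (ε / (4 * K)) := ⟨_, rfl⟩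
  have hθ : 0 < θ := by rw [hθdef]; positivity
  have hθ1 : θ ≤ 1 / 2 := by rw [hθdef]; exact min_le_left _ _
  have hθK : θ * K ≤ ε / 4 := by
    have h1 : θ ≤ ε / (4 * K) := by rw [hθdef]; exact min_le_right _ _
    calc θ * K ≤ ε / (4 * K) * K := mul_le_mul_of_nonneg_right h1 hK.le
      _ = ε / 4 := by field_simp
  obtain ⟨δ, hδdef⟩ : ∃ δ, δ = min (min (θ / 2) (ρ / 2)) (1 / 2 : ℝ) := ⟨_, rfl⟩
  have hδ : 0 < δ := by rw [hδdef]; positivity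
  have hδθ : δ ≤ θ / 2 := by rw [hδdef]; exact le_trans (min_le_left _ _) (min_le_left _ _)
  have hδρ : δ ≤ ρ / 2 := by rw [hδdef]; exact le_trans (min_le_left _ _) (min_le_right _ _)
  have hδ1 : δ ≤ 1 / 2 := by rw [hδdef]; exact min_le_right _ _
  refine ⟨δ, s₀ + 1 + 7 * r / δ, hδ, by positivity, ?_⟩
  intro n₁ s B hs hn₁ hfB
  have hrd : 0 < 7 * r / δ := by positivity
  have hs1 : 1 ≤ s := by linarith
  have hs0' : s₀ ≤ s := by linarith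
  have hs0 : 0 < s := by linarith
  have hs3 : 0 < s ^ 3 := by positivity
  have hrs : 7 * (r / s) ≤ δ := by
    have h1 : 7 * r / δ ≤ s := by linarith
    have h2 : 7 * r ≤ s * δ := by rwa [div_le_iff₀ hδ] at h1
    have h3 : 7 * (r / s) = 7 * r / s := by ring
    rw [h3, div_le_iff₀ hs0]
    linarith
  have hrs0 : 0 ≤ r / s := by positivity
  have hrs1 : r / s ≤ 1 := by linarith
  have hrs' : r ≤ s := by rwa [div_le_one hs0] at hrs1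
  obtain ⟨w, hw⟩ : ∃ w, w = s + r := ⟨_, rfl⟩
  have hw0 : 0 < w := by rw [hw]; positivity
  have hws : s ≤ w := by rw [hw]; linarith
  have hw2 : w ≤ 2 * s := by rw [hw]; linarith
  have hw3 : (1 - δ) * w ^ 3 ≤ s ^ 3 := by
    have h1 : w ^ 3 = s ^ 3 * (1 + r / s) ^ 3 := by
      rw [hw, ← mul_pow]
      congr 1
      field_simp
    have h2 := cube_le hrs0 hrs1 hrs
    rw [h1]
    have h3 : (1 - δ) * (1 + r / s) ^ 3 ≤ 1 := by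
      calc (1 - δ) * (1 + r / s) ^ 3 ≤ (1 - δ) * (1 + δ) := mul_le_mul_of_nonneg_left h2 (by linarith)
        _ ≤ 1 := by nlinarith
    calc (1 - δ) * (s ^ 3 * (1 + r / s) ^ 3) = s ^ 3 * ((1 - δ) * (1 + r / s) ^ 3) := by ring
      _ ≤ s ^ 3 * 1 := mul_le_mul_of_nonneg_left h3 hs3.le
      _ = s ^ 3 := mul_one _
  obtain ⟨n₂, hn₂def⟩ : ∃ n₂ : ℕ, n₂ = ⌈(2 * ρ + 2) * w ^ 3⌉₊ := ⟨_, rfl⟩
  have hn₂ : (2 * ρ + 2) * w ^ 3 ≤ n₂ := by rw [hn₂def]; exact Nat.le_ceil _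
  have hn₂' : (n₂ : ℝ) ≤ (16 * ρ + 17) * s ^ 3 := by
    have h1 : (n₂ : ℝ) < (2 * ρ + 2) * w ^ 3 + 1 := by
      rw [hn₂def]; exact Nat.ceil_lt_add_one (by positivity)
    have h2 : w ^ 3 ≤ 8 * s ^ 3 := by
      calc w ^ 3 ≤ (2 * s) ^ 3 := pow_le_pow_left₀ hw0.le hw2 3
        _ = 8 * s ^ 3 := by ring
    have h3 : (2 * ρ + 2) * w ^ 3 ≤ (2 * ρ + 2) * (8 * s ^ 3) := mul_le_mul_of_nonneg_left h2 (by positivity)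
    have h4 : 1 ≤ s ^ 3 := one_le_pow₀ hs1
    nlinarith
  have hfn₂ := hKs s n₂ hs0' hn₂'
  have hn₁' : (ρ - δ) * (1 - δ) * w ^ 3 ≤ n₁ := by
    have h1 : (ρ - δ) * s ^ 3 ≤ n₁ := by rwa [le_div_iff₀ hs3] at hn₁
    calc (ρ - δ) * (1 - δ) * w ^ 3 = (ρ - δ) * ((1 - δ) * w ^ 3) := by ring
      _ ≤ (ρ - δ) * s ^ 3 := mul_le_mul_of_nonneg_left hw3 (by linarith)
      _ ≤ n₁ := h1
  have hB : 0 ≤ B := by
    have h1 := hf.nonneg n₁ s hs0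
    have h2 : 0 ≤ B * s ^ 3 := le_trans h1 hfB
    by_contra hneg
    push Not at hneg
    have : B * s ^ 3 < 0 := mul_neg_of_neg_of_pos hneg hs3
    linarith
  refine ⟨w * (7 / δ + 1) + 4 * K * s ^ 3 / ε + 1, by positivity, ?_⟩
  intro N L hL hN
  have hp1 : 0 < w * (7 / δ + 1) := by positivity
  have hp2 : 0 < 4 * K * s ^ 3 / ε := by positivity
  have hL1 : 1 ≤ L := by linarith
  have hL0 : 0 < L := by linarith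
  have hL3 : 0 < L ^ 3 := by positivity
  have hLw : 7 / δ + 1 ≤ L / w := by
    rw [le_div_iff₀ hw0]
    linarith
  obtain ⟨k, hkdef⟩ : ∃ k : ℕ, k = ⌊L / w⌋₊ := ⟨_, rfl⟩
  have hk1 : (k : ℝ) ≤ L / w := by rw [hkdef]; exact Nat.floor_le (by positivity)
  have hk2 : L / w < k + 1 := by rw [hkdef]; exact Nat.lt_floor_add_one _
  have hk7 : 7 / δ ≤ k := by linarith
  have hk0 : 0 < (k : ℝ) := lt_of_lt_of_le (by positivity) hk7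
  have hkn : 0 < k := by exact_mod_cast hk0
  have hkL : (k : ℝ) * w ≤ L := by rwa [le_div_iff₀ hw0] at hk1
  have hLk : L ≤ (k + 1) * w := by
    have := (div_lt_iff₀ hw0).1 hk2
    linarith
  have hk3 : 0 < (k : ℝ) ^ 3 := by positivity
  have hL3k : L ^ 3 ≤ (1 + δ) * (k : ℝ) ^ 3 * w ^ 3 := by
    have h1 : 7 * (1 / (k : ℝ)) ≤ δ := by
      have h2 : 7 ≤ (k : ℝ) * δ := by rwa [div_le_iff₀ hδ] at hk7
      have h3 : 7 * (1 / (k : ℝ)) = 7 / k := by ring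
      rw [h3, div_le_iff₀ hk0]
      linarith
    have h4 := cube_le (by positivity) (by linarith) h1
    calc L ^ 3 ≤ ((k + 1) * w) ^ 3 := pow_le_pow_left₀ hL0.le hLk 3
      _ = (1 + 1 / (k : ℝ)) ^ 3 * (k : ℝ) ^ 3 * w ^ 3 := by
          rw [← mul_pow, ← mul_pow]
          congr 2
          field_simp
      _ ≤ (1 + δ) * (k : ℝ) ^ 3 * w ^ 3 := by
          apply mul_le_mul_of_nonneg_right _ (by positivity)
          exact mul_le_mul_of_nonneg_right h4 hk3.le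
  obtain ⟨m₂, hm₂def⟩ : ∃ m₂ : ℕ, m₂ = ⌈θ * (k : ℝ) ^ 3⌉₊ := ⟨_, rfl⟩
  have hm₂ : θ * (k : ℝ) ^ 3 ≤ m₂ := by rw [hm₂def]; exact Nat.le_ceil _
  have hm₂' : (m₂ : ℝ) < θ * (k : ℝ) ^ 3 + 1 := by
    rw [hm₂def]; exact Nat.ceil_lt_add_one (by positivity)
  have hm₂k : m₂ ≤ k ^ 3 := by
    rw [hm₂def]
    apply Nat.ceil_le.2
    push_cast
    nlinarith
  have hm₂kR : (m₂ : ℝ) ≤ (k : ℝ) ^ 3 := by exact_mod_cast hm₂k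
  obtain ⟨m₁, hm₁def⟩ : ∃ m₁ : ℕ, m₁ = k ^ 3 - m₂ := ⟨_, rfl⟩
  have hm : m₁ + m₂ = k ^ 3 := by rw [hm₁def]; exact Nat.sub_add_cancel hm₂k
  have hm₁R : (m₁ : ℝ) = (k : ℝ) ^ 3 - m₂ := by
    have : ((m₁ + m₂ : ℕ) : ℝ) = ((k ^ 3 : ℕ) : ℝ) := by rw [hm]
    push_cast at this
    linarith
  have hcount := count hρ hθ hθ1 hδ hδθ hδρ hδ1 (by positivity : 0 ≤ w ^ 3) hk3.le hn₁' hn₂ hm₂ hm₂kR
  have hNle : N ≤ m₁ * n₁ + m₂ * n₂ := by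
    have h1 : (N : ℝ) ≤ (ρ + δ) * L ^ 3 := by rwa [div_le_iff₀ hL3] at hN
    have h2 : (ρ + δ) * L ^ 3 ≤ (ρ + δ) * ((1 + δ) * (k : ℝ) ^ 3 * w ^ 3) :=
      mul_le_mul_of_nonneg_left hL3k (by positivity)
    have h3 : (N : ℝ) ≤ ((m₁ * n₁ + m₂ * n₂ : ℕ) : ℝ) := by
      push_cast
      rw [hm₁R]
      linarith
    exact_mod_cast h3
  have h1 : f N L ≤ f (m₁ * n₁ + m₂ * n₂) L := hf.mono _ _ L hL0 hNle
  have h2 : f (m₁ * n₁ + m₂ * n₂) L ≤ m₁ * f n₁ s + m₂ * f n₂ s :=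
    hf.sup k m₁ m₂ n₁ n₂ s L hkn hm hs0 (by rw [← hw]; exact hkL)
  have hm₁k : (m₁ : ℝ) ≤ (k : ℝ) ^ 3 := by rw [hm₁R]; linarith [(Nat.cast_nonneg m₂ : (0 : ℝ) ≤ m₂)]
  have h3 : (m₁ : ℝ) * f n₁ s ≤ (k : ℝ) ^ 3 * (B * s ^ 3) :=
    mul_le_mul hm₁k hfB (hf.nonneg n₁ s hs0) hk3.le
  have h4 : (m₂ : ℝ) * f n₂ s ≤ (θ * (k : ℝ) ^ 3 + 1) * (K * s ^ 3) :=
    mul_le_mul hm₂'.le hfn₂ (hf.nonneg n₂ s hs0) (by positivity)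
  have h5 : (k : ℝ) ^ 3 * s ^ 3 ≤ L ^ 3 := by
    rw [← mul_pow]
    apply pow_le_pow_left₀ (by positivity)
    calc (k : ℝ) * s ≤ k * w := mul_le_mul_of_nonneg_left hws hk0.le
      _ ≤ L := hkL
  have h6 : K * s ^ 3 ≤ ε / 4 * L ^ 3 := by
    have h7 : 4 * K * s ^ 3 / ε ≤ L := by linarith
    have h8 : 4 * K * s ^ 3 ≤ L * ε := by rwa [div_le_iff₀ hε] at h7
    have h9 : L ≤ L ^ 3 := by
      calc L = L ^ 1 := (pow_one L).symm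
        _ ≤ L ^ 3 := pow_le_pow_right₀ hL1 (by norm_num)
    nlinarith
  have h7 : B * ((k : ℝ) ^ 3 * s ^ 3) ≤ B * L ^ 3 := mul_le_mul_of_nonneg_left h5 hB
  have h8 : θ * K * ((k : ℝ) ^ 3 * s ^ 3) ≤ ε / 4 * L ^ 3 :=
    mul_le_mul hθK h5 (by positivity) (by positivity)
  have h9 : 0 ≤ ε * L ^ 3 := by positivity
  calc f N L ≤ (k : ℝ) ^ 3 * (B * s ^ 3) + (θ * (k : ℝ) ^ 3 + 1) * (K * s ^ 3) := by linarith
    _ = B * ((k : ℝ) ^ 3 * s ^ 3) + θ * K * ((k : ℝ) ^ 3 * s ^ 3) + K * s ^ 3 := by ring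
    _ ≤ (B + ε) * L ^ 3 := by linarith

end Pool.Agent.TBA
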