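import Pool.Agent.TBA.Stmts

/-!
# Squad TBA, module LMF: a criterion for the existence of limits
-/

set_option autoImplicit false

open MeasureTheory Filter Topology
open scoped ContDiff

namespace Pool.Agent.TBA

open Pool.Agent.TBG Pool.Agent.TBL Pool.Agent.TBF

theorem lmf_proof : Stmt_LMF := by
  intro α l F K hne h0 hK hcr
  set S : Set ℝ := {B | ∀ᶠ x in l, F x ≤ B} with hS
  have hKS : K ∈ S := hK
  have hbd : BddBelow S := by
    refine ⟨0, fun B hB => ?_⟩
    have hB' : ∀ᶠ x in l, F x ≤ B := hB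
    obtain ⟨x, hx1, hx2⟩ := (h0.and hB').exists
    exact hx1.trans hx2
  refine ⟨sInf S, ?_⟩
  rw [tendsto_order]
  constructor
  · intro a ha
    by_contra hcon
    rw [Filter.not_eventually] at hcon
    have h1 : ∃ᶠ x in l, F x ≤ a := hcon.mono fun x hx => not_lt.mp hx
    have h2 := hcr a ((sInf S - a) / 2) (by linarith) h1
    have h3 : sInf S ≤ a + (sInf S - a) / 2 := csInf_le hbd h2
    linarith
  · intro b hb
    obtain ⟨B, hBS, hBb⟩ := exists_lt_of_csInf_lt ⟨K, hKS⟩ hb
    have hB' : ∀ᶠ x in l, F x ≤ B := hBS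
    exact hB'.mono fun x hx => hx.trans_lt hBb

end Pool.Agent.TBA
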