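import Pool.Agent.TBA.Stmts

/-!
# Squad TBA, module MNP: monotonicity of the Dirichlet energy in the particles
-/

set_option autoImplicit false

open MeasureTheory Filter Topology
open scoped ContDiff

namespace Pool.Agent.TBA

open Pool.Agent.TBG Pool.Agent.TBL Pool.Agent.TBF

namespace MNP_

lemma ed_le (hSPD : Stmt_SPD) (hSPP : Stmt_SPP) (V : E → E → ℝ) (ι κ : Type) [Fintype ι]
    [DecidableEq ι] [Fintype κ] [DecidableEq κ] (hV0 : ∀ x y, 0 ≤ V x y)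
    (u : (ι ⊕ κ → E) → ℝ) (hu : ContDiff ℝ ∞ u) (Y : κ → E) (X : ι → E) :
    ed V (fun X' : ι → E => u (Sum.elim X' Y)) X ≤ ed V u (Sum.elim X Y) := by
  have hd := ((hSPD ι κ).1 u hu Y).2 X
  have hp := (hSPP V ι κ X Y hV0).1
  unfold ed
  rw [Fintype.sum_sum_type]
  have h1 : ∑ i, ∑ c, (di i c (fun X' : ι → E => u (Sum.elim X' Y)) X) ^ 2 =
      ∑ i, ∑ c, (di (Sum.inl i) c u (Sum.elim X Y)) ^ 2 := by
    refine Finset.sum_congr rfl (fun i _ => Finset.sum_congr rfl (fun c _ => ?_))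
    rw [hd i c]
  rw [h1]
  have h2 : 0 ≤ ∑ k : κ, ∑ c, (di (Sum.inr k) c u (Sum.elim X Y)) ^ 2 :=
    Finset.sum_nonneg (fun k _ => Finset.sum_nonneg (fun c _ => sq_nonneg _))
  have h3 : potS V X * u (Sum.elim X Y) ^ 2 ≤ potS V (Sum.elim X Y) * u (Sum.elim X Y) ^ 2 :=
    mul_le_mul_of_nonneg_right hp (sq_nonneg _)
  linarith

end MNP_

open MNP_ in
theorem mnp_proof (hEDI : Stmt_EDI) (hEDB : Stmt_EDB) (hSPI : Stmt_SPI) (hSPD : Stmt_SPD)
    (hSPP : Stmt_SPP) : Stmt_MNP := by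
  intro V ι κ _ _ _ _ Ω hV hΩ hne
  have hV0 : ∀ x y, 0 ≤ V x y := hV.adm.nonneg
  refine le_of_forall_pos_le_add (fun ε hε => ?_)
  obtain ⟨u, hu, hI, hen⟩ := (hEDB V (ι ⊕ κ) Ω hV hΩ hne).2.2.2 ε hε
  have key : ED V ι Ω * ∫ Z, u Z ^ 2 ≤ en V u := by
    have hcsq : Continuous (fun Z => u Z ^ 2) := hu.smooth.continuous.pow 2
    have hsq : HasCompactSupport (fun Z => u Z ^ 2) :=
      hu.cpt.comp_left (g := fun t : ℝ => t ^ 2) (by norm_num)
    obtain ⟨e1, e2, _, _⟩ := (hSPI ι κ).1 (fun Z => u Z ^ 2) hcsq hsq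
    obtain ⟨hc, _, _, hcs⟩ := (hEDI V (ι ⊕ κ) hV).2.2.2 u hu.smooth
    have hcs1 := (hcs hu.cpt).1
    obtain ⟨f1, f2, f3, _⟩ := (hSPI ι κ).1 (ed V u) hc hcs1
    obtain ⟨_, _, g3, g4⟩ := (hSPI ι κ).1 u hu.smooth.continuous hu.cpt
    unfold en
    rw [e1, f1, ← integral_const_mul]
    refine integral_mono (e2.const_mul _) f2 (fun Y => ?_)
    have hsm := ((hSPD ι κ).1 u hu.smooth Y).1
    have hD : Dir Ω (fun X' : ι → E => u (Sum.elim X' Y)) :=
      ⟨hsm, g3 Y, fun X hX i => hu.supp _ (g4 Y X hX) (Sum.inl i)⟩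
    have h1 := (hEDB V ι Ω hV hΩ hne).2.2.1 _ hD
    refine le_trans h1 ?_
    unfold en
    have hi1 : Integrable (ed V (fun X' : ι → E => u (Sum.elim X' Y))) :=
      (((hEDI V ι hV).2.2.2 _ hsm).2.2.2 (g3 Y)).2.1
    have hce : Continuous (fun X : ι → E => (Sum.elim X Y : ι ⊕ κ → E)) := by
      refine continuous_pi (fun a => ?_)
      cases a with
      | inl i => exact continuous_apply i
      | inr k => exact continuous_const
    have hi2 : Integrable (fun X : ι → E => ed V u (Sum.elim X Y)) :=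
      (hc.comp hce).integrable_of_hasCompactSupport (f3 Y)
    exact integral_mono hi1 hi2 (fun X => ed_le hSPD hSPP V ι κ hV0 u hu.smooth Y X)
  have h := key.trans hen
  exact le_of_mul_le_mul_right h hI

end Pool.Agent.TBA
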