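import Pool.Agent.TBA.Stmts

set_option autoImplicit false

open MeasureTheory Filter Topology
open scoped ContDiff

namespace Pool.Agent.TBA

open Pool.Agent.TBG Pool.Agent.TBL Pool.Agent.TBF

namespace MPH_

theorem P1_anti (hP : ContDiff ℝ ∞ P1) (hW : ∀ s, 0 ≤ W1 s)
    (heq : ∀ s, 4 * s * deriv (deriv P1) s + 12 * deriv P1 s = -W1 s) :
    ∀ s t : ℝ, 0 ≤ s → s ≤ t → P1 t ≤ P1 s := by
  have hd : ContDiff ℝ ∞ (deriv P1) := (contDiff_infty_iff_deriv.1 hP).2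
  have hdd : Differentiable ℝ (deriv P1) := hd.differentiable (by norm_num)
  have hpd : Differentiable ℝ P1 := hP.differentiable (by norm_num)
  have hder : ∀ s, HasDerivAt (fun s : ℝ => s ^ 3 * deriv P1 s) (-(s ^ 2 * W1 s) / 4) s := by
    intro s
    have h1 : HasDerivAt (fun s : ℝ => s ^ 3) (3 * s ^ 2) s := by
      simpa using hasDerivAt_pow 3 s
    have h2 := h1.mul (hdd s).hasDerivAt
    have e : 3 * s ^ 2 * deriv P1 s + s ^ 3 * deriv (deriv P1) s = -(s ^ 2 * W1 s) / 4 := by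
      have := heq s
      have h3 : W1 s = -(4 * s * deriv (deriv P1) s + 12 * deriv P1 s) := by linarith
      rw [h3]; ring
    rw [← e]
    exact h2
  have hanti : AntitoneOn (fun s : ℝ => s ^ 3 * deriv P1 s) (Set.Ici 0) := by
    refine antitoneOn_of_deriv_nonpos (convex_Ici 0) ?_ ?_ ?_
    · exact fun s _ => (hder s).continuousAt.continuousWithinAt
    · exact fun s _ => (hder s).differentiableAt.differentiableWithinAt
    · intro s _
      rw [(hder s).deriv]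
      have := mul_nonneg (sq_nonneg s) (hW s)
      linarith
  have hneg : ∀ s : ℝ, 0 < s → deriv P1 s ≤ 0 := by
    intro s hs
    have h1 := hanti (Set.mem_Ici.2 le_rfl) (Set.mem_Ici.2 hs.le) hs.le
    simp only at h1
    have h2 : s ^ 3 * deriv P1 s ≤ 0 := by simpa using h1
    have h3 : 0 < s ^ 3 := by positivity
    by_contra h
    push Not at h
    have := mul_pos h3 h
    linarith
  have hP1 : AntitoneOn P1 (Set.Ici 0) := by
    refine antitoneOn_of_deriv_nonpos (convex_Ici 0) ?_ ?_ ?_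
    · exact hP.continuous.continuousOn
    · exact hpd.differentiableOn
    · intro s hs
      rw [interior_Ici] at hs
      exact hneg s hs
  intro s t hs hst
  exact hP1 (Set.mem_Ici.2 hs) (Set.mem_Ici.2 (hs.trans hst)) hst

theorem QQ_smul (r : ℝ) (z : E × E) : QQ (r • z) = r ^ 2 * QQ z := by
  unfold QQ
  have h1 : (r • z).1 = r • z.1 := rfl
  have h2 : (r • z).2 = r • z.2 := rfl
  rw [h1, h2, ← smul_sub, norm_smul, norm_smul, norm_smul, Real.norm_eq_abs, mul_pow, mul_pow, mul_pow, sq_abs]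
  ring

end MPH_

open MPH_ in
theorem mph_proof (hADM : Pool.Agent.TBG.Stmt_ADM) (hQFO : Pool.Agent.TBG.Stmt_QFO)
    (hLTR : Pool.Agent.TBG.Stmt_LTR) (hPRF : Pool.Agent.TBL.Stmt_PRF) (hPLS : Pool.Agent.TBF.Stmt_PLS) :
    Stmt_MPH := by
  obtain ⟨-, -, -, hQ, -, -⟩ := hQFO
  obtain ⟨-, hP, hW, -, -, hWa, heq, hPb, -, -, -, -⟩ := hPRF
  refine ⟨?_, ?_, ?_⟩
  · intro lam h0 h1
    obtain ⟨hS, -, hV, -⟩ := hPLS lam h0 h1
    obtain ⟨hA, hC, -⟩ := hADM (pl lam) hS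
    refine ⟨hA, hC, ?_⟩
    intro z z' hz
    rw [hV z, hV z']
    have hz0 := (hQ z).1
    have hz0' : 0 ≤ QQ z' := (hQ z').1
    have hPa := P1_anti hP (fun s => (hW s).1) heq (QQ z) (QQ z') hz0 hz
    have hWW := hWa hz
    obtain ⟨hp1, hp2, -, -⟩ := hPb (QQ z) hz0
    have hden : 0 < 1 - lam * P1 (QQ z) := by nlinarith
    have hden' : 1 - lam * P1 (QQ z) ≤ 1 - lam * P1 (QQ z') := by nlinarith
    have hnum : lam * W1 (QQ z') ≤ lam * W1 (QQ z) := mul_le_mul_of_nonneg_left hWW h0.le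
    have hnn : 0 ≤ lam * W1 (QQ z) := mul_nonneg h0.le (hW _).1
    exact div_le_div₀ hnn hnum hden hden'
  · intro V r hr hV
    have hr0 : 0 < r⁻¹ := inv_pos.2 hr
    have hr2 : 0 ≤ (r ^ 2)⁻¹ := by positivity
    refine ⟨⟨?_, ?_, ?_, ?_, ?_, ?_⟩, ?_, ?_⟩
    · have h := hV.adm.meas.comp (g := fun z : E × E => V z.1 z.2)
        (f := fun z : E × E => (r⁻¹ • z.1, r⁻¹ • z.2)) (by fun_prop)
      exact h.const_mul _
    · intro x y
      exact mul_nonneg hr2 (hV.adm.nonneg _ _)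
    · obtain ⟨C, hC⟩ := hV.adm.bdd
      exact ⟨(r ^ 2)⁻¹ * C, fun x y => mul_le_mul_of_nonneg_left (hC _ _) hr2⟩
    · obtain ⟨R, hR⟩ := hV.adm.supp
      refine ⟨R * r, fun x y hxy => ?_⟩
      have key : ∀ x : E, R * r < ‖x‖ → R < ‖r⁻¹ • x‖ := by
        intro x hx
        rw [norm_smul, Real.norm_eq_abs, abs_of_pos hr0]
        calc R = r⁻¹ * (R * r) := by field_simp
          _ < r⁻¹ * ‖x‖ := mul_lt_mul_of_pos_left hx hr0
      have : V (r⁻¹ • x) (r⁻¹ • y) = 0 := by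
        apply hR
        rcases hxy with h | h
        · exact Or.inl (key x h)
        · exact Or.inr (key y h)
      show (r ^ 2)⁻¹ * V (r⁻¹ • x) (r⁻¹ • y) = 0
      rw [this, mul_zero]
    · intro x y
      show (r ^ 2)⁻¹ * V (r⁻¹ • x) (r⁻¹ • y) = (r ^ 2)⁻¹ * V (r⁻¹ • y) (r⁻¹ • x)
      rw [hV.adm.symm]
    · intro x y z
      obtain ⟨t1, t2⟩ := hV.adm.tri (r⁻¹ • x) (r⁻¹ • y) (r⁻¹ • z)
      constructor
      · show (r ^ 2)⁻¹ * V (r⁻¹ • (x - y)) (r⁻¹ • (x - z)) = (r ^ 2)⁻¹ * V (r⁻¹ • (y - x)) (r⁻¹ • (y - z))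
        rw [smul_sub, smul_sub, smul_sub, smul_sub, t1]
      · show (r ^ 2)⁻¹ * V (r⁻¹ • (y - x)) (r⁻¹ • (y - z)) = (r ^ 2)⁻¹ * V (r⁻¹ • (z - y)) (r⁻¹ • (z - x))
        rw [smul_sub, smul_sub, smul_sub, smul_sub, t2]
    · have h := hV.cont.comp (g := fun z : E × E => V z.1 z.2)
        (f := fun z : E × E => (r⁻¹ • z.1, r⁻¹ • z.2)) (by fun_prop)
      exact continuous_const.mul h
    · intro z z' hz
      show (r ^ 2)⁻¹ * V (r⁻¹ • z'.1) (r⁻¹ • z'.2) ≤ (r ^ 2)⁻¹ * V (r⁻¹ • z.1) (r⁻¹ • z.2)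
      refine mul_le_mul_of_nonneg_left ?_ hr2
      refine hV.mono (r⁻¹ • z) (r⁻¹ • z') ?_
      rw [QQ_smul, QQ_smul]
      exact mul_le_mul_of_nonneg_left hz (by positivity)
  · intro φ r hr hS
    obtain ⟨-, h2, -, -⟩ := hLTR φ hS.smooth
    funext x y
    have h := (h2 r⁻¹ (x, y)).1
    unfold VV ww
    rw [h]
    show -(r⁻¹ ^ 2 * Lap φ (r⁻¹ • x, r⁻¹ • y)) / (1 - φ (r⁻¹ • x, r⁻¹ • y)) =
      (r ^ 2)⁻¹ * (-(Lap φ (r⁻¹ • x, r⁻¹ • y)) / (1 - φ (r⁻¹ • x, r⁻¹ • y)))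
    rw [inv_pow]
    ring

end Pool.Agent.TBA
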