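import Pool.Agent.TBA.Stmts

/-!
# Three-body Bose gases (MP_80dc41_mp), existence of the thermodynamic limit: module OUTA
-/

set_option autoImplicit false

open MeasureTheory Filter Topology
open scoped ContDiff

namespace Pool.Agent.TBA

open Pool.Agent.TBG Pool.Agent.TBL Pool.Agent.TBF

theorem outa_proof (hTDM : Stmt_TDM) (hMPH : Stmt_MPH) (hPLS : Pool.Agent.TBF.Stmt_PLS) :
    Stmt_OUTA := by
  intro lam r h0 h1 hr ρ hρ
  rw [hMPH.2.2 (pl lam) r hr (hPLS lam h0 h1).1]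
  exact hTDM _ (hMPH.2.1 (VV (pl lam)) r hr (hMPH.1 lam h0 h1)) ρ hρ

end Pool.Agent.TBA
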