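import Pool.Agent.TBA.Stmts

/-!
# Three-body Bose gases, thermodynamic limit, module PRD: product functions
-/

set_option autoImplicit false

open MeasureTheory Filter Topology
open scoped ContDiff

namespace Pool.Agent.TBA

open Pool.Agent.TBG Pool.Agent.TBL Pool.Agent.TBF

namespace PRD_

variable {ι κ : Type}

/-- restrictions to the two groups -/
lemma rl_meas : Continuous (fun Z : ι ⊕ κ → E => fun i => Z (Sum.inl i)) :=
  continuous_pi fun i => continuous_apply (Sum.inl i)

lemma rr_meas : Continuous (fun Z : ι ⊕ κ → E => fun k => Z (Sum.inr k)) :=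
  continuous_pi fun k => continuous_apply (Sum.inr k)

lemma pr2_cont {f : (ι → E) → ℝ} {g : (κ → E) → ℝ} (hf : Continuous f) (hg : Continuous g) :
    Continuous (pr2 f g) := (hf.comp rl_meas).mul (hg.comp rr_meas)

lemma pr2_cpt {f : (ι → E) → ℝ} {g : (κ → E) → ℝ} (hf : HasCompactSupport f)
    (hg : HasCompactSupport g) : HasCompactSupport (pr2 f g) := by
  have hc : Continuous (fun p : (ι → E) × (κ → E) => (Sum.elim p.1 p.2 : ι ⊕ κ → E)) := by
    refine continuous_pi fun s => ?_
    rcases s with i | k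
    · exact (continuous_apply i).comp continuous_fst
    · exact (continuous_apply k).comp continuous_snd
  have hK : IsCompact ((fun p : (ι → E) × (κ → E) => (Sum.elim p.1 p.2 : ι ⊕ κ → E)) ''
      (tsupport f ×ˢ tsupport g)) := (hf.isCompact.prod hg.isCompact).image hc
  refine HasCompactSupport.intro hK fun Z hZ => ?_
  by_contra hne
  refine hZ ⟨(fun i => Z (Sum.inl i), fun k => Z (Sum.inr k)), ⟨?_, ?_⟩, ?_⟩
  · exact subset_tsupport f (left_ne_zero_of_mul hne)
  · exact subset_tsupport g (right_ne_zero_of_mul hne)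
  · funext s
    rcases s with i | k <;> rfl

end PRD_

open PRD_ in
theorem prd_proof (hEDI : Stmt_EDI) (hSPI : Stmt_SPI) (hSPD : Stmt_SPD) (hSPP : Stmt_SPP) :
    Stmt_PRD := by
  intro V ι κ _ _ _ _ Ω₁ Ω₂ R u v hV hR hdist hu hv
  obtain ⟨-, -, -, hI⟩ := hEDI V ι hV
  obtain ⟨-, -, -, hK⟩ := hEDI V κ hV
  obtain ⟨cu, pu, -, hcu⟩ := hI u hu.smooth
  obtain ⟨su, iu, iu2, -, -⟩ := hcu hu.cpt
  obtain ⟨cv, pv, -, hcv⟩ := hK v hv.smooth
  obtain ⟨sv, iv, iv2, -, -⟩ := hcv hv.cpt
  obtain ⟨hsm, hder⟩ := (hSPD ι κ).2 u v hu.smooth hv.smooth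
  have hint : ∀ (f : (ι → E) → ℝ) (g : (κ → E) → ℝ), ∫ Z, pr2 f g Z = (∫ X, f X) * ∫ Y, g Y :=
    (hSPI ι κ).2
  have hVnn : ∀ x y, 0 ≤ V x y := hV.adm.nonneg
  refine ⟨⟨hsm, pr2_cpt hu.cpt hv.cpt, ?_⟩, ?_, ?_⟩
  · intro Z hZ
    have hsub : tsupport (pr2 u v) ⊆ {Z : ι ⊕ κ → E | (fun i => Z (Sum.inl i)) ∈ tsupport u ∧
        (fun k => Z (Sum.inr k)) ∈ tsupport v} := by
      refine closure_minimal ?_ ?_
      · intro Z hZ
        exact ⟨subset_tsupport u (left_ne_zero_of_mul hZ), subset_tsupport v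
          (right_ne_zero_of_mul hZ)⟩
      · exact ((isClosed_tsupport u).preimage rl_meas).inter
          ((isClosed_tsupport v).preimage rr_meas)
    obtain ⟨h1, h2⟩ := hsub hZ
    intro s
    rcases s with i | k
    · exact Or.inl (hu.supp _ h1 i)
    · exact Or.inr (hv.supp _ h2 k)
  · have e : (fun Z => pr2 u v Z ^ 2) = pr2 (fun X => u X ^ 2) (fun Y => v Y ^ 2) := by
      funext Z
      simp only [pr2, mul_pow]
    rw [e]
    exact hint _ _
  · have hu2c : Continuous (fun X => u X ^ 2) := hu.smooth.continuous.pow 2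
    have hv2c : Continuous (fun Y => v Y ^ 2) := hv.smooth.continuous.pow 2
    have hu2s : HasCompactSupport (fun X => u X ^ 2) :=
      hu.cpt.comp_left (g := fun t : ℝ => t ^ 2) (by simp)
    have hv2s : HasCompactSupport (fun Y => v Y ^ 2) :=
      hv.cpt.comp_left (g := fun t : ℝ => t ^ 2) (by simp)
    have e : ∀ Z : ι ⊕ κ → E, ed V (pr2 u v) Z = pr2 (ed V u) (fun Y => v Y ^ 2) Z +
        pr2 (fun X => u X ^ 2) (ed V v) Z := by
      intro Z
      set X : ι → E := fun i => Z (Sum.inl i) with hX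
      set Y : κ → E := fun k => Z (Sum.inr k) with hY
      have hZ : Z = Sum.elim X Y := by
        funext s
        rcases s with i | k <;> rfl
      obtain ⟨d1, d2⟩ := hder Z
      have hpot : potS V Z * pr2 u v Z ^ 2 = (potS V X + potS V Y) * pr2 u v Z ^ 2 := by
        by_cases h0 : pr2 u v Z = 0
        · rw [h0]
          simp
        · have hx := hu.supp X (subset_tsupport u (left_ne_zero_of_mul h0))
          have hy := hv.supp Y (subset_tsupport v (right_ne_zero_of_mul h0))
          have := (hSPP V ι κ X Y hVnn).2 R hR fun i k => hdist _ (hx i) _ (hy k)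
          rw [← this, ← hZ]
      unfold ed
      rw [hpot, Fintype.sum_sum_type]
      simp only [d1, d2, mul_pow, ← Finset.sum_mul, ← Finset.mul_sum]
      simp only [pr2, ← hX, ← hY]
      ring
    have i1 : Integrable (pr2 (ed V u) (fun Y => v Y ^ 2)) :=
      (pr2_cont cu hv2c).integrable_of_hasCompactSupport (pr2_cpt su hv2s)
    have i2 : Integrable (pr2 (fun X => u X ^ 2) (ed V v)) :=
      (pr2_cont hu2c cv).integrable_of_hasCompactSupport (pr2_cpt hu2s sv)
    unfold en
    simp only [e]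
    rw [integral_add i1 i2, hint, hint]

end Pool.Agent.TBA
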