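import Pool.Agent.TBA.Stmts

/-!
# Three-body Bose gases, existence of the thermodynamic limit, module REN: renaming the particles
-/

set_option autoImplicit false

open MeasureTheory Filter Topology
open scoped ContDiff

namespace Pool.Agent.TBA

open Pool.Agent.TBG Pool.Agent.TBL Pool.Agent.TBF

namespace REN_

variable {ι κ : Type} [Fintype ι] [DecidableEq ι] [Fintype κ] [DecidableEq κ]

/-- the renaming map -/
noncomputable def T (e : ι ≃ κ) : (ι → E) →L[ℝ] (κ → E) :=
  ContinuousLinearMap.pi (fun k => ContinuousLinearMap.proj (R := ℝ) (φ := fun _ : ι => E) (e.symm k))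

omit [Fintype ι] [DecidableEq ι] [Fintype κ] [DecidableEq κ] in
lemma T_apply (e : ι ≃ κ) (X : ι → E) : T e X = fun k => X (e.symm k) := rfl

omit [Fintype ι] [Fintype κ] in
lemma T_single (e : ι ≃ κ) (i : ι) (v : E) : T e (Pi.single i v) = Pi.single (e i) v := by
  rw [T_apply]
  funext k
  by_cases h : k = e i
  · subst h
    simp
  · have h' : e.symm k ≠ i := fun h2 => h (by rw [← h2, Equiv.apply_symm_apply])
    rw [Pi.single_eq_of_ne h', Pi.single_eq_of_ne h]

lemma di_comp (e : ι ≃ κ) (u : (κ → E) → ℝ) (hu : ContDiff ℝ ∞ u) (i : ι) (c : Fin 3)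
    (X : ι → E) : di i c (fun X : ι → E => u (T e X)) X = di (e i) c u (T e X) := by
  unfold di
  have h1 : DifferentiableAt ℝ u (T e X) := hu.differentiable (by simp) _
  have h2 : HasFDerivAt (fun X : ι → E => u (T e X)) ((fderiv ℝ u (T e X)).comp (T e)) X :=
    h1.hasFDerivAt.comp X (T e).hasFDerivAt
  rw [h2.fderiv, ContinuousLinearMap.comp_apply, T_single]

lemma pot_comp (e : ι ≃ κ) (V : E → E → ℝ) (X : ι → E) : potS V X = potS V (T e X) := by
  unfold potS
  congr 1
  refine Finset.sum_equiv (e.prodCongr (e.prodCongr e)) ?_ ?_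
  · rintro ⟨a, b, c⟩
    simp [D3]
  · rintro ⟨a, b, c⟩ _
    simp [T_apply]

lemma int_comp (e : ι ≃ κ) (G : (κ → E) → ℝ) : ∫ X : ι → E, G (T e X) = ∫ Y, G Y := by
  have h := volume_measurePreserving_piCongrLeft (fun _ : κ => E) e
  rw [← h.integral_comp' G]
  refine integral_congr_ae (Eventually.of_forall fun X => ?_)
  show G _ = G _
  congr 1
  funext k
  rw [T_apply]
  have h2 := Equiv.piCongrLeft_apply_apply (fun _ : κ => E) e X (e.symm k)
  simp only [Equiv.apply_symm_apply] at h2
  exact h2.symm

end REN_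

open REN_

theorem ren_proof : Stmt_REN := by
  intro V ι κ _ _ _ _ e u hu
  have hT : ∀ X : ι → E, (fun k => X (e.symm k)) = T e X := fun X => rfl
  simp only [hT]
  have hs : ContDiff ℝ ∞ (fun X : ι → E => u (T e X)) := hu.comp (T e).contDiff
  have hed : ∀ X : ι → E, ed V (fun X : ι → E => u (T e X)) X = ed V u (T e X) := by
    intro X
    unfold ed
    have h1 : ∑ i, ∑ c, (di i c (fun X : ι → E => u (T e X)) X) ^ 2 =
        ∑ k, ∑ c, (di k c u (T e X)) ^ 2 := by
      rw [← Equiv.sum_comp e]
      refine Finset.sum_congr rfl fun i _ => Finset.sum_congr rfl fun c _ => ?_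
      rw [di_comp e u hu]
    rw [h1, pot_comp e]
  refine ⟨hs, ?_, ?_, hed, ?_, ?_⟩
  · intro hc
    refine HasCompactSupport.intro (K := (T e.symm) '' tsupport u) (hc.image (T e.symm).continuous)
      fun X hX => ?_
    by_contra hne
    refine hX ⟨T e X, subset_tsupport u hne, ?_⟩
    rw [T_apply, T_apply]
    funext i
    simp
  · intro X hX
    have h1 : tsupport (fun X : ι → E => u (T e X)) ⊆ (T e) ⁻¹' (tsupport u) := by
      refine closure_minimal ?_ ((isClosed_tsupport u).preimage (T e).continuous)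
      intro Y hY
      exact subset_tsupport u hY
    exact h1 hX
  · unfold en
    rw [← int_comp e]
    exact integral_congr_ae (Eventually.of_forall hed)
  · exact int_comp e (fun Y => u Y ^ 2)

end Pool.Agent.TBA
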