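import Pool.Agent.TBA.Stmts

set_option autoImplicit false

open MeasureTheory Filter Topology
open scoped ContDiff

namespace Pool.Agent.TBA

open Pool.Agent.TBG Pool.Agent.TBL Pool.Agent.TBF

namespace SPD_

variable {ι κ : Type} [Fintype ι] [Fintype κ]

/-- extension by zero -/
noncomputable def A (ι κ : Type) [Fintype ι] [Fintype κ] : (ι → E) →L[ℝ] (ι ⊕ κ → E) :=
  ContinuousLinearMap.pi (Sum.elim (fun i => ContinuousLinearMap.proj i) (fun _ => 0))

theorem A_apply (X : ι → E) (Y : κ → E) : A ι κ X + Sum.elim (fun _ => 0) Y = Sum.elim X Y := by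
  funext s
  rcases s with i | k <;> simp [A]

theorem A_single [DecidableEq ι] [DecidableEq κ] (i : ι) (v : E) : A ι κ (Pi.single i v) = Pi.single (Sum.inl i) v := by
  funext s
  rcases s with j | k
  · by_cases h : j = i
    · subst h
      simp [A]
    · rw [Pi.single_eq_of_ne (by simpa using h)]
      simp [A, h]
  · rw [Pi.single_eq_of_ne (by simp)]
    simp [A]

/-- restriction -/
noncomputable def P1 (ι κ : Type) [Fintype ι] [Fintype κ] : (ι ⊕ κ → E) →L[ℝ] (ι → E) :=
  ContinuousLinearMap.pi fun i => ContinuousLinearMap.proj (Sum.inl i)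

/-- restriction -/
noncomputable def P2 (ι κ : Type) [Fintype ι] [Fintype κ] : (ι ⊕ κ → E) →L[ℝ] (κ → E) :=
  ContinuousLinearMap.pi fun k => ContinuousLinearMap.proj (Sum.inr k)

theorem P1_inl [DecidableEq ι] [DecidableEq κ] (i : ι) (v : E) : P1 ι κ (Pi.single (Sum.inl i) v) = Pi.single i v := by
  funext j
  by_cases h : j = i
  · subst h
    simp [P1]
  · rw [Pi.single_eq_of_ne h]
    simp [P1, h]

theorem P1_inr [DecidableEq ι] [DecidableEq κ] (k : κ) (v : E) : P1 ι κ (Pi.single (Sum.inr k) v) = 0 := by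
  funext j
  simp [P1]

theorem P2_inr [DecidableEq ι] [DecidableEq κ] (k : κ) (v : E) : P2 ι κ (Pi.single (Sum.inr k) v) = Pi.single k v := by
  funext j
  by_cases h : j = k
  · subst h
    simp [P2]
  · rw [Pi.single_eq_of_ne h]
    simp [P2, h]

theorem P2_inl [DecidableEq ι] [DecidableEq κ] (i : ι) (v : E) : P2 ι κ (Pi.single (Sum.inl i) v) = 0 := by
  funext j
  simp [P2]

end SPD_

open SPD_ in
theorem spd_proof : Stmt_SPD := by
  intro ι κ _ _ _ _
  refine ⟨fun u hu Y => ?_, fun u v hu hv => ?_⟩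
  · have hfun : (fun X' : ι → E => u (Sum.elim X' Y)) =
        fun X' => u (A ι κ X' + Sum.elim (fun _ => 0) Y) := by
      funext X'
      rw [A_apply]
    refine ⟨?_, fun X i c => ?_⟩
    · rw [hfun]
      exact hu.comp ((A ι κ).contDiff.add contDiff_const)
    · have hd : HasFDerivAt u (fderiv ℝ u (Sum.elim X Y)) (A ι κ X + Sum.elim (fun _ => 0) Y) := by
        rw [A_apply]
        exact (hu.differentiable (by simp) _).hasFDerivAt
      have h1 : HasFDerivAt (fun X' : ι → E => u (Sum.elim X' Y))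
          ((fderiv ℝ u (Sum.elim X Y)).comp (A ι κ)) X := by
        rw [hfun]
        exact hd.comp X ((A ι κ).hasFDerivAt.add_const _)
      show fderiv ℝ (fun X' : ι → E => u (Sum.elim X' Y)) X (Pi.single i (ev c)) = _
      rw [h1.fderiv, ContinuousLinearMap.comp_apply, A_single]
      rfl
  · have hfun : pr2 u v = fun Z : ι ⊕ κ → E => u (P1 ι κ Z) * v (P2 ι κ Z) := rfl
    refine ⟨?_, fun Z => ?_⟩
    · rw [hfun]
      exact (hu.comp (P1 ι κ).contDiff).mul (hv.comp (P2 ι κ).contDiff)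
    · have hu1 : HasFDerivAt (fun Z : ι ⊕ κ → E => u (P1 ι κ Z))
          ((fderiv ℝ u (P1 ι κ Z)).comp (P1 ι κ)) Z :=
        (hu.differentiable (by simp) _).hasFDerivAt.comp Z (P1 ι κ).hasFDerivAt
      have hv1 : HasFDerivAt (fun Z : ι ⊕ κ → E => v (P2 ι κ Z))
          ((fderiv ℝ v (P2 ι κ Z)).comp (P2 ι κ)) Z :=
        (hv.differentiable (by simp) _).hasFDerivAt.comp Z (P2 ι κ).hasFDerivAt
      have h1 : HasFDerivAt (pr2 u v) (u (P1 ι κ Z) • (fderiv ℝ v (P2 ι κ Z)).comp (P2 ι κ) +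
          v (P2 ι κ Z) • (fderiv ℝ u (P1 ι κ Z)).comp (P1 ι κ)) Z := hu1.mul hv1
      have hP1 : P1 ι κ Z = fun i => Z (Sum.inl i) := rfl
      have hP2 : P2 ι κ Z = fun k => Z (Sum.inr k) := rfl
      refine ⟨fun i c => ?_, fun k c => ?_⟩
      · show fderiv ℝ (pr2 u v) Z (Pi.single (Sum.inl i) (ev c)) = _
        rw [h1.fderiv]
        show u (P1 ι κ Z) * fderiv ℝ v (P2 ι κ Z) (P2 ι κ (Pi.single (Sum.inl i) (ev c))) +
          v (P2 ι κ Z) * fderiv ℝ u (P1 ι κ Z) (P1 ι κ (Pi.single (Sum.inl i) (ev c))) = _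
        rw [P1_inl, P2_inl, map_zero, mul_zero, zero_add, mul_comm]
        rfl
      · show fderiv ℝ (pr2 u v) Z (Pi.single (Sum.inr k) (ev c)) = _
        rw [h1.fderiv]
        show u (P1 ι κ Z) * fderiv ℝ v (P2 ι κ Z) (P2 ι κ (Pi.single (Sum.inr k) (ev c))) +
          v (P2 ι κ Z) * fderiv ℝ u (P1 ι κ Z) (P1 ι κ (Pi.single (Sum.inr k) (ev c))) = _
        rw [P1_inr, P2_inr, map_zero, mul_zero, add_zero]
        rfl

end Pool.Agent.TBA
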