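import Pool.Agent.TBA.Stmts

set_option autoImplicit false

open MeasureTheory Filter Topology
open scoped ContDiff

namespace Pool.Agent.TBA

open Pool.Agent.TBG Pool.Agent.TBL Pool.Agent.TBF

namespace SPI_

variable {ι κ : Type} [Fintype ι] [Fintype κ]

theorem elim_eq (X : ι → E) (Y : κ → E) :
    (MeasurableEquiv.sumPiEquivProdPi (fun _ : ι ⊕ κ => E)).symm (X, Y) = Sum.elim X Y := by
  funext s
  cases s <;> rfl

theorem mp : MeasurePreserving (MeasurableEquiv.sumPiEquivProdPi (fun _ : ι ⊕ κ => E)).symm
    ((volume : Measure (ι → E)).prod (volume : Measure (κ → E))) volume :=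
  volume_measurePreserving_sumPiEquivProdPi_symm (fun _ : ι ⊕ κ => E)

theorem cont_elim (Y : κ → E) : Continuous fun X : ι → E => (Sum.elim X Y : ι ⊕ κ → E) := by
  refine continuous_pi fun s => ?_
  cases s with
  | inl i => exact continuous_apply i
  | inr k => exact continuous_const

end SPI_

open SPI_ in
theorem spi_proof : Stmt_SPI := by
  intro ι κ _ _
  refine ⟨fun F hF hc => ?_, fun f g => ?_⟩
  · have hI : Integrable F := hF.integrable_of_hasCompactSupport hc
    have hG : Integrable (fun p : (ι → E) × (κ → E) => F (Sum.elim p.1 p.2))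
        ((volume : Measure (ι → E)).prod (volume : Measure (κ → E))) := by
      have h := (mp (ι := ι) (κ := κ)).integrable_comp_of_integrable hI
      refine h.congr (Eventually.of_forall fun p => ?_)
      show F ((MeasurableEquiv.sumPiEquivProdPi (fun _ : ι ⊕ κ => E)).symm (p.1, p.2)) = _
      rw [elim_eq]
    have hz : ∀ (Y : κ → E) (X : ι → E), Sum.elim X Y ∉ tsupport F → F (Sum.elim X Y) = 0 :=
      fun Y X h => image_eq_zero_of_notMem_tsupport h
    refine ⟨?_, hG.integral_prod_right, fun Y => ?_, fun Y X hX => ?_⟩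
    · rw [← (mp (ι := ι) (κ := κ)).integral_comp' F]
      have e : (fun p : (ι → E) × (κ → E) =>
          F ((MeasurableEquiv.sumPiEquivProdPi (fun _ : ι ⊕ κ => E)).symm p)) =
          fun p => F (Sum.elim p.1 p.2) := by
        funext p
        obtain ⟨X, Y⟩ := p
        rw [elim_eq]
      rw [e, integral_prod_symm _ hG]
    · refine HasCompactSupport.intro (K := (fun Z : ι ⊕ κ → E => fun i => Z (Sum.inl i)) ''
        tsupport F) (hc.isCompact.image (continuous_pi fun i => continuous_apply _)) ?_
      intro X hX
      apply hz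
      intro hmem
      exact hX ⟨_, hmem, rfl⟩
    · have hcl : IsClosed {X : ι → E | (Sum.elim X Y : ι ⊕ κ → E) ∈ tsupport F} :=
        (isClosed_tsupport F).preimage (cont_elim Y)
      have hsub : tsupport (fun X : ι → E => F (Sum.elim X Y)) ⊆
          {X : ι → E | (Sum.elim X Y : ι ⊕ κ → E) ∈ tsupport F} := by
        refine closure_minimal ?_ hcl
        intro X hX
        exact subset_tsupport F hX
      exact hsub hX
  · rw [← (mp (ι := ι) (κ := κ)).integral_comp' (pr2 f g)]
    have e : (fun p : (ι → E) × (κ → E) =>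
        pr2 f g ((MeasurableEquiv.sumPiEquivProdPi (fun _ : ι ⊕ κ => E)).symm p)) =
        fun p => f p.1 * g p.2 := by
      funext p
      obtain ⟨X, Y⟩ := p
      rw [elim_eq]
      rfl
    rw [e, integral_prod_mul]

end Pool.Agent.TBA
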