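import Pool.Agent.TBA.Stmts

/-!
# Three-body Bose gases (MP_80dc41_mp): the potential of two groups of particles (module SPP of squad TBA)
-/

set_option autoImplicit false

open MeasureTheory Filter Topology
open scoped ContDiff

namespace Pool.Agent.TBA

open Pool.Agent.TBG Pool.Agent.TBL Pool.Agent.TBF

namespace SPP_

/-- the term of a triple -/
noncomputable def tm3 {ι : Type} [DecidableEq ι] (V : E → E → ℝ) (X : ι → E) (i j k : ι) : ℝ :=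
  if i ≠ j ∧ i ≠ k ∧ j ≠ k then V (X i - X j) (X i - X k) else 0

theorem potS_eq {ι : Type} [Fintype ι] [DecidableEq ι] (V : E → E → ℝ) (X : ι → E) :
    potS V X = 1 / 6 * ∑ i, ∑ j, ∑ k, tm3 V X i j k := by
  unfold potS D3 tm3
  rw [Finset.sum_filter, Fintype.sum_prod_type]
  congr 1
  refine Finset.sum_congr rfl fun i _ => ?_
  rw [Fintype.sum_prod_type]

theorem tm3_nonneg {ι : Type} [DecidableEq ι] (V : E → E → ℝ) (hV : ∀ x y, 0 ≤ V x y) (X : ι → E)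
    (i j k : ι) : 0 ≤ tm3 V X i j k := by
  unfold tm3
  split_ifs
  · exact hV _ _
  · exact le_rfl

theorem sum3 {ι κ : Type} [Fintype ι] [Fintype κ] (F : ι ⊕ κ → ι ⊕ κ → ι ⊕ κ → ℝ) :
    ∑ i, ∑ j, ∑ k, F i j k =
      (∑ i : ι, ∑ j : ι, ∑ k : ι, F (Sum.inl i) (Sum.inl j) (Sum.inl k)) +
      (∑ i : ι, ∑ j : ι, ∑ k : κ, F (Sum.inl i) (Sum.inl j) (Sum.inr k)) +
      (∑ i : ι, ∑ j : κ, ∑ k : ι, F (Sum.inl i) (Sum.inr j) (Sum.inl k)) +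
      (∑ i : ι, ∑ j : κ, ∑ k : κ, F (Sum.inl i) (Sum.inr j) (Sum.inr k)) +
      (∑ i : κ, ∑ j : ι, ∑ k : ι, F (Sum.inr i) (Sum.inl j) (Sum.inl k)) +
      (∑ i : κ, ∑ j : ι, ∑ k : κ, F (Sum.inr i) (Sum.inl j) (Sum.inr k)) +
      (∑ i : κ, ∑ j : κ, ∑ k : ι, F (Sum.inr i) (Sum.inr j) (Sum.inl k)) +
      (∑ i : κ, ∑ j : κ, ∑ k : κ, F (Sum.inr i) (Sum.inr j) (Sum.inr k)) := by
  simp only [Fintype.sum_sum_type, Finset.sum_add_distrib]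
  ring

theorem tm3_inl {ι κ : Type} [DecidableEq ι] [DecidableEq κ] (V : E → E → ℝ) (X : ι → E) (Y : κ → E)
    (i j k : ι) : tm3 V (Sum.elim X Y) (Sum.inl i) (Sum.inl j) (Sum.inl k) = tm3 V X i j k := by
  unfold tm3
  simp

theorem tm3_inr {ι κ : Type} [DecidableEq ι] [DecidableEq κ] (V : E → E → ℝ) (X : ι → E) (Y : κ → E)
    (i j k : κ) : tm3 V (Sum.elim X Y) (Sum.inr i) (Sum.inr j) (Sum.inr k) = tm3 V Y i j k := by
  unfold tm3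
  simp

theorem tm3_zero {ι : Type} [DecidableEq ι] (V : E → E → ℝ) (R : ℝ) (hR : Rng V R) (X : ι → E)
    (i j k : ι) (h : R < ‖X i - X j‖ ∨ R < ‖X i - X k‖) : tm3 V X i j k = 0 := by
  unfold tm3
  rw [hR _ _ h]
  simp

end SPP_

open SPP_

theorem spp_proof : Stmt_SPP := by
  intro V ι κ _ _ _ _ X Y hV
  have hs := sum3 (fun i j k => tm3 V (Sum.elim X Y) i j k)
  refine ⟨?_, fun R hR hd => ?_⟩
  · rw [potS_eq, potS_eq, hs]
    simp only [tm3_inl]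
    have h : ∀ {α β γ : Type} [Fintype α] [Fintype β] [Fintype γ] (a : α → ι ⊕ κ) (b : β → ι ⊕ κ)
        (c : γ → ι ⊕ κ), 0 ≤ ∑ i : α, ∑ j : β, ∑ k : γ, tm3 V (Sum.elim X Y) (a i) (b j) (c k) := by
      intro α β γ _ _ _ a b c
      exact Finset.sum_nonneg fun i _ => Finset.sum_nonneg fun j _ => Finset.sum_nonneg fun k _ =>
        tm3_nonneg V hV _ _ _ _
    have h2 := h (Sum.inl : ι → ι ⊕ κ) (Sum.inl : ι → ι ⊕ κ) (Sum.inr : κ → ι ⊕ κ)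
    have h3 := h (Sum.inl : ι → ι ⊕ κ) (Sum.inr : κ → ι ⊕ κ) (Sum.inl : ι → ι ⊕ κ)
    have h4 := h (Sum.inl : ι → ι ⊕ κ) (Sum.inr : κ → ι ⊕ κ) (Sum.inr : κ → ι ⊕ κ)
    have h5 := h (Sum.inr : κ → ι ⊕ κ) (Sum.inl : ι → ι ⊕ κ) (Sum.inl : ι → ι ⊕ κ)
    have h6 := h (Sum.inr : κ → ι ⊕ κ) (Sum.inl : ι → ι ⊕ κ) (Sum.inr : κ → ι ⊕ κ)
    have h7 := h (Sum.inr : κ → ι ⊕ κ) (Sum.inr : κ → ι ⊕ κ) (Sum.inl : ι → ι ⊕ κ)
    have h8 := h (Sum.inr : κ → ι ⊕ κ) (Sum.inr : κ → ι ⊕ κ) (Sum.inr : κ → ι ⊕ κ)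
    linarith
  · have hd' : ∀ i k, R < ‖Y k - X i‖ := fun i k => by rw [norm_sub_rev]; exact hd i k
    rw [potS_eq, potS_eq, potS_eq, hs]
    simp only [tm3_inl, tm3_inr]
    have z2 : ∀ (i j : ι) (k : κ), tm3 V (Sum.elim X Y) (Sum.inl i) (Sum.inl j) (Sum.inr k) = 0 :=
      fun i j k => tm3_zero V R hR _ _ _ _ (Or.inr (hd i k))
    have z3 : ∀ (i : ι) (j : κ) (k : ι), tm3 V (Sum.elim X Y) (Sum.inl i) (Sum.inr j) (Sum.inl k) = 0 :=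
      fun i j k => tm3_zero V R hR _ _ _ _ (Or.inl (hd i j))
    have z4 : ∀ (i : ι) (j k : κ), tm3 V (Sum.elim X Y) (Sum.inl i) (Sum.inr j) (Sum.inr k) = 0 :=
      fun i j k => tm3_zero V R hR _ _ _ _ (Or.inl (hd i j))
    have z5 : ∀ (i : κ) (j k : ι), tm3 V (Sum.elim X Y) (Sum.inr i) (Sum.inl j) (Sum.inl k) = 0 :=
      fun i j k => tm3_zero V R hR _ _ _ _ (Or.inl (hd' j i))
    have z6 : ∀ (i : κ) (j : ι) (k : κ), tm3 V (Sum.elim X Y) (Sum.inr i) (Sum.inl j) (Sum.inr k) = 0 :=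
      fun i j k => tm3_zero V R hR _ _ _ _ (Or.inl (hd' j i))
    have z7 : ∀ (i j : κ) (k : ι), tm3 V (Sum.elim X Y) (Sum.inr i) (Sum.inr j) (Sum.inl k) = 0 :=
      fun i j k => tm3_zero V R hR _ _ _ _ (Or.inr (hd' k i))
    simp only [z2, z3, z4, z5, z6, z7, Finset.sum_const_zero, add_zero]
    ring

end Pool.Agent.TBA
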