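import Pool.Agent.TBA.Stmts

/-!
# Three-body Bose gases (MP_80dc41_mp), existence of the thermodynamic limit: module SYB
-/

set_option autoImplicit false

open MeasureTheory Filter Topology
open scoped ContDiff

namespace Pool.Agent.TBA

open Pool.Agent.TBG Pool.Agent.TBL Pool.Agent.TBF

namespace SYB_

variable {W : Type} [NormedAddCommGroup W] [NormedSpace ℝ W] {S : Type} [Fintype S] [Nonempty S]

/-- the mean of the squares -/
noncomputable def A (f : S → W → ℝ) (x : W) : ℝ := (Fintype.card S : ℝ)⁻¹ * ∑ σ, f σ x ^ 2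

omit [NormedAddCommGroup W] [NormedSpace ℝ W] [Nonempty S] in
theorem A_nonneg (f : S → W → ℝ) (x : W) : 0 ≤ A f x := by
  unfold A
  positivity

omit [NormedAddCommGroup W] [NormedSpace ℝ W] [Nonempty S] in
theorem sy_eq (ε : ℝ) (f : S → W → ℝ) (x : W) : sy ε f x = Real.sqrt (ε ^ 2 + A f x) - ε := rfl

omit [Nonempty S] in
theorem A_smooth {f : S → W → ℝ} (hf : ∀ σ, ContDiff ℝ ∞ (f σ)) : ContDiff ℝ ∞ (A f) := by
  unfold A
  exact contDiff_const.mul (ContDiff.sum fun σ _ => (hf σ).pow 2)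

omit [Nonempty S] in
theorem sy_smooth {f : S → W → ℝ} {ε : ℝ} (hε : 0 < ε) (hf : ∀ σ, ContDiff ℝ ∞ (f σ)) :
    ContDiff ℝ ∞ (sy ε f) := by
  have h : ContDiff ℝ ∞ (fun x => Real.sqrt (ε ^ 2 + A f x) - ε) := by
    refine (ContDiff.sqrt (contDiff_const.add (A_smooth hf)) fun x => ?_).sub contDiff_const
    have := A_nonneg f x
    positivity
  exact h

omit [Nonempty S] in
theorem A_deriv {f : S → W → ℝ} (hf : ∀ σ, ContDiff ℝ ∞ (f σ)) (x : W) :
    HasFDerivAt (A f) ((Fintype.card S : ℝ)⁻¹ • ∑ σ, (2 * f σ x) • fderiv ℝ (f σ) x) x := by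
  have h1 : ∀ σ, HasFDerivAt (fun y => f σ y ^ 2) ((2 * f σ x) • fderiv ℝ (f σ) x) x := by
    intro σ
    have hd : HasFDerivAt (f σ) (fderiv ℝ (f σ) x) x :=
      ((hf σ).differentiable (by simp) x).hasFDerivAt
    have h2 := hd.mul hd
    have e1 : (fun y => f σ y ^ 2) = fun y => f σ y * f σ y := by funext y; ring
    rw [e1]
    refine h2.congr_fderiv ?_
    rw [← add_smul]
    congr 1
    ring
  have h3 : HasFDerivAt (fun y => ∑ σ, f σ y ^ 2) (∑ σ, (2 * f σ x) • fderiv ℝ (f σ) x) x :=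
    HasFDerivAt.fun_sum fun σ _ => h1 σ
  exact h3.const_mul _

theorem sy_deriv {f : S → W → ℝ} {ε : ℝ} (hε : 0 < ε) (hf : ∀ σ, ContDiff ℝ ∞ (f σ)) (x w : W) :
    (fderiv ℝ (sy ε f) x w) ^ 2 ≤
      (Fintype.card S : ℝ)⁻¹ * ∑ σ, (fderiv ℝ (f σ) x w) ^ 2 := by
  have hA0 := A_nonneg f x
  have hpos : 0 < ε ^ 2 + A f x := by positivity
  have h1 : HasFDerivAt (fun y => ε ^ 2 + A f y)
      ((Fintype.card S : ℝ)⁻¹ • ∑ σ, (2 * f σ x) • fderiv ℝ (f σ) x) x :=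
    (A_deriv hf x).const_add _
  have h2 := (h1.sqrt hpos.ne').sub_const ε
  have h3 : fderiv ℝ (sy ε f) x = _ := h2.fderiv
  rw [h3]
  set c : ℝ := (Fintype.card S : ℝ)⁻¹ with hc
  have hc0 : 0 ≤ c := by positivity
  set s : ℝ := Real.sqrt (ε ^ 2 + A f x) with hs
  have hs0 : 0 < s := Real.sqrt_pos.2 hpos
  have hs2 : s ^ 2 = ε ^ 2 + A f x := Real.sq_sqrt hpos.le
  have e1 : ((1 / (2 * s)) • (c • ∑ σ, (2 * f σ x) • fderiv ℝ (f σ) x)) w =
      (c * ∑ σ, f σ x * fderiv ℝ (f σ) x w) / s := by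
    simp only [ContinuousLinearMap.smul_apply, ContinuousLinearMap.sum_apply, smul_eq_mul]
    have : ∑ σ, 2 * f σ x * (fderiv ℝ (f σ) x) w = 2 * ∑ σ, f σ x * (fderiv ℝ (f σ) x) w := by
      rw [Finset.mul_sum]
      exact Finset.sum_congr rfl fun σ _ => by ring
    rw [this]
    field_simp
  rw [e1, div_pow, div_le_iff₀ (by positivity), hs2]
  have hCS : (∑ σ, f σ x * fderiv ℝ (f σ) x w) ^ 2 ≤
      (∑ σ, f σ x ^ 2) * ∑ σ, (fderiv ℝ (f σ) x w) ^ 2 :=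
    Finset.sum_mul_sq_le_sq_mul_sq _ _ _
  have hAe : A f x = c * ∑ σ, f σ x ^ 2 := rfl
  have hd0 : 0 ≤ ∑ σ, (fderiv ℝ (f σ) x w) ^ 2 := Finset.sum_nonneg fun σ _ => sq_nonneg _
  calc (c * ∑ σ, f σ x * fderiv ℝ (f σ) x w) ^ 2
      = c ^ 2 * (∑ σ, f σ x * fderiv ℝ (f σ) x w) ^ 2 := by ring
    _ ≤ c ^ 2 * ((∑ σ, f σ x ^ 2) * ∑ σ, (fderiv ℝ (f σ) x w) ^ 2) := by gcongr
    _ = (c * ∑ σ, (fderiv ℝ (f σ) x w) ^ 2) * A f x := by rw [hAe]; ring
    _ ≤ (c * ∑ σ, (fderiv ℝ (f σ) x w) ^ 2) * (ε ^ 2 + A f x) := by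
        have : A f x ≤ ε ^ 2 + A f x := by nlinarith [sq_nonneg ε]
        gcongr

end SYB_

open SYB_ in
theorem syb_proof : Stmt_SYB := by
  intro W _ _ S _ _ f ε hε hf
  refine ⟨sy_smooth hε hf, ?_, ?_, ?_, ?_, sy_deriv hε hf⟩
  · intro x hx
    rw [sy_eq]
    have : A f x = 0 := by
      unfold A
      simp [hx]
    rw [this, add_zero, Real.sqrt_sq hε.le, sub_self]
  · intro x
    rw [sy_eq]
    have hA0 := A_nonneg f x
    have : ε ≤ Real.sqrt (ε ^ 2 + A f x) := by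
      apply Real.le_sqrt_of_sq_le
      linarith
    linarith
  · intro x
    rw [sy_eq]
    have hA0 := A_nonneg f x
    change _ ≤ A f x
    have hpos : 0 ≤ ε ^ 2 + A f x := by positivity
    have h2 := Real.sq_sqrt hpos
    have h3 : ε ≤ Real.sqrt (ε ^ 2 + A f x) := by
      apply Real.le_sqrt_of_sq_le
      linarith
    nlinarith
  · intro x
    rw [sy_eq]
    change Real.sqrt (A f x) - ε ≤ _
    have hA0 := A_nonneg f x
    have : Real.sqrt (A f x) ≤ Real.sqrt (ε ^ 2 + A f x) := by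
      apply Real.sqrt_le_sqrt
      nlinarith [sq_nonneg ε]
    linarith

end Pool.Agent.TBA
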