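import Pool.Agent.TBA.Stmts

/-!
# Three-body Bose gases (MP_80dc41_mp), module SYM: symmetrisation
-/

set_option autoImplicit false

open MeasureTheory Filter Topology
open scoped ContDiff

namespace Pool.Agent.TBA

open Pool.Agent.TBG Pool.Agent.TBL Pool.Agent.TBF

namespace SYM_

/-- the permuted functions -/
def fs {N : ℕ} (u : (Fin N → E) → ℝ) (σ : Equiv.Perm (Fin N)) (X : Fin N → E) : ℝ :=
  u (fun k => X (σ k))

theorem fs_sum {N : ℕ} (u : (Fin N → E) → ℝ) (τ : Equiv.Perm (Fin N)) (X : Fin N → E) :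
    ∑ σ : Equiv.Perm (Fin N), fs u σ (fun i => X (τ i)) ^ 2 = ∑ σ : Equiv.Perm (Fin N), fs u σ X ^ 2 := by
  rw [← Equiv.sum_comp (Equiv.mulLeft τ) (fun σ => fs u σ X ^ 2)]
  rfl

end SYM_

open SYM_ in
theorem sym_proof (hEDI : Stmt_EDI) (hEDB : Stmt_EDB) (hEDM : Stmt_EDM) (hREN : Stmt_REN)
    (hSYB : Stmt_SYB) (hTRI : Pool.Agent.TBG.Stmt_TRI) (hPTE : Pool.Agent.TBL.Stmt_PTE) :
    Stmt_SYM := by
  intro V N L hV hL
  obtain ⟨hcube, -⟩ := hEDM
  obtain ⟨hopen, hne⟩ := hcube L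
  obtain ⟨⟨u₀, hu₀, hu₀'⟩, -, -, -⟩ := hEDB V (Fin N) (cube L) hV hopen (hne hL)
  unfold ED
  refine le_csInf ⟨_, u₀, hu₀, hu₀', rfl⟩ ?_
  rintro b ⟨u, hu, hI, rfl⟩
  rw [le_div_iff₀ hI]
  obtain ⟨-, hpot0, -, hed⟩ := hEDI V (Fin N) hV
  have hren := fun σ : Equiv.Perm (Fin N) => hREN V (Fin N) (Fin N) σ.symm u hu.smooth
  have hfs : ∀ σ, ContDiff ℝ ∞ (fs u σ) := fun σ => (hren σ).1
  have hfc : ∀ σ, HasCompactSupport (fs u σ) := fun σ => (hren σ).2.1 hu.cpt
  have hft : ∀ σ, ∀ X ∈ tsupport (fs u σ), (fun k => X (σ k)) ∈ tsupport u := fun σ => (hren σ).2.2.1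
  have hfe : ∀ σ, en V (fs u σ) = en V u := fun σ => (hren σ).2.2.2.2.1
  have hfi : ∀ σ, ∫ X, fs u σ X ^ 2 = ∫ X, u X ^ 2 := fun σ => (hren σ).2.2.2.2.2
  have hedi : ∀ σ, Integrable (ed V (fs u σ)) := fun σ => ((hed (fs u σ) (hfs σ)).2.2.2 (hfc σ)).2.1
  have hsqi : ∀ σ, Integrable (fun X => fs u σ X ^ 2) := fun σ =>
    ((hed (fs u σ) (hfs σ)).2.2.2 (hfc σ)).2.2.1
  have hen0 : 0 ≤ en V u := ((hed u hu.smooth).2.2.2 hu.cpt).2.2.2.1
  obtain ⟨κ, hκ⟩ : ∃ κ : ℝ, κ = (Fintype.card (Equiv.Perm (Fin N)) : ℝ)⁻¹ := ⟨_, rfl⟩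
  have hκ0 : 0 ≤ κ := by rw [hκ]; positivity
  have hcard : (Fintype.card (Equiv.Perm (Fin N)) : ℝ) ≠ 0 :=
    Nat.cast_ne_zero.2 Fintype.card_ne_zero
  have hκc : κ * (Fintype.card (Equiv.Perm (Fin N)) : ℝ) = 1 := by
    rw [hκ]
    exact inv_mul_cancel₀ hcard
  -- the square mean
  obtain ⟨S, hS⟩ : ∃ S : (Fin N → E) → ℝ, S = fun X => κ * ∑ σ, fs u σ X ^ 2 := ⟨_, rfl⟩
  have hSi : Integrable S := by
    rw [hS]
    exact (integrable_finsetSum _ fun σ _ => hsqi σ).const_mul κ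
  have hSint : ∫ X, S X = ∫ X, u X ^ 2 := by
    rw [hS, integral_const_mul, integral_finsetSum _ fun σ _ => hsqi σ]
    simp only [hfi]
    rw [Finset.sum_const, Finset.card_univ, nsmul_eq_mul, ← mul_assoc, hκc, one_mul]
  have hS0 : ∀ X, 0 ≤ S X := fun X => by
    rw [hS]
    exact mul_nonneg hκ0 (Finset.sum_nonneg fun σ _ => sq_nonneg _)
  have key : ∀ ε : ℝ, 0 < ε → E0 V N L * ∫ X, sy ε (fs u) X ^ 2 ≤ en V u := by
    intro ε hε
    obtain ⟨hsm, hz, hn, hle, -, hD⟩ := hSYB (Fin N → E) (Equiv.Perm (Fin N)) (fs u) ε hε hfs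
    rw [← hκ] at hle hD
    have hK : IsClosed (⋃ σ : Equiv.Perm (Fin N), tsupport (fs u σ)) :=
      isClosed_iUnion_of_finite fun σ => isClosed_tsupport _
    have hKc : IsCompact (⋃ σ : Equiv.Perm (Fin N), tsupport (fs u σ)) :=
      isCompact_iUnion fun σ => hfc σ
    have hsub : tsupport (sy ε (fs u)) ⊆ ⋃ σ : Equiv.Perm (Fin N), tsupport (fs u σ) := by
      refine closure_minimal (fun X hX => ?_) hK
      by_contra hc
      refine hX (hz X fun σ => ?_)
      by_contra h1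
      exact hc (Set.mem_iUnion.2 ⟨σ, subset_tsupport _ h1⟩)
    have hcpt : HasCompactSupport (sy ε (fs u)) := hKc.of_isClosed_subset (isClosed_tsupport _) hsub
    have hbox : tsupport (sy ε (fs u)) ⊆ box N L := by
      intro X hX
      obtain ⟨σ, hσ⟩ := Set.mem_iUnion.1 (hsub hX)
      have h1 := hu.supp _ (hft σ X hσ)
      intro i c
      have h2 := h1 (σ.symm i) c
      simpa using h2
    have hsymm : ∀ (τ : Equiv.Perm (Fin N)) (X), sy ε (fs u) (fun i => X (τ i)) = sy ε (fs u) X := by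
      intro τ X
      unfold sy
      rw [fs_sum]
    have hnn : 0 ≤ ∫ X, sy ε (fs u) X ^ 2 := integral_nonneg fun X => sq_nonneg _
    rcases hnn.eq_or_lt with h0 | h0
    · rw [← h0, mul_zero]
      exact hen0
    have h1 := hTRI N L V (sy ε (fs u)) hV.adm hsm hcpt hbox hsymm h0
    refine h1.trans ?_
    have h2 : enR V (sy ε (fs u)) = en V (sy ε (fs u)) := by
      unfold enR en ed
      refine integral_congr_ae (Eventually.of_forall fun X => ?_)
      show _ + pot V X * _ = _ + potS V X * _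
      rw [hPTE V N X hV.adm]
      rfl
    rw [h2]
    have h3 : Integrable (ed V (sy ε (fs u))) := ((hed _ hsm).2.2.2 hcpt).2.1
    have h4 : Integrable (fun X => κ * ∑ σ, ed V (fs u σ) X) :=
      (integrable_finsetSum _ fun σ _ => hedi σ).const_mul κ
    have h5 : ∀ X, ed V (sy ε (fs u)) X ≤ κ * ∑ σ, ed V (fs u σ) X := by
      intro X
      have e1 : κ * ∑ σ, ed V (fs u σ) X = ∑ i, ∑ c, (κ * ∑ σ, (di i c (fs u σ) X) ^ 2) +
          potS V X * (κ * ∑ σ, fs u σ X ^ 2) := by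
        have e2 : ∀ i : Fin N, ∑ c : Fin 3, (κ * ∑ σ, (di i c (fs u σ) X) ^ 2) =
            κ * ∑ σ, ∑ c : Fin 3, (di i c (fs u σ) X) ^ 2 := by
          intro i
          rw [← Finset.mul_sum, Finset.sum_comm]
        simp only [e2]
        rw [← Finset.mul_sum, Finset.sum_comm]
        unfold ed
        rw [Finset.sum_add_distrib, ← Finset.mul_sum]
        ring
      rw [e1]
      unfold ed
      refine add_le_add (Finset.sum_le_sum fun i _ => Finset.sum_le_sum fun c _ => ?_)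
        (mul_le_mul_of_nonneg_left (hle X) (hpot0 X))
      exact hD X (Pi.single i (ev c))
    calc en V (sy ε (fs u)) = ∫ X, ed V (sy ε (fs u)) X := rfl
      _ ≤ ∫ X, κ * ∑ σ, ed V (fs u σ) X := integral_mono h3 h4 h5
      _ = κ * ∑ σ, en V (fs u σ) := by
          rw [integral_const_mul, integral_finsetSum _ fun σ _ => hedi σ]
          rfl
      _ = en V u := by
          simp only [hfe]
          rw [Finset.sum_const, Finset.card_univ, nsmul_eq_mul, ← mul_assoc, hκc, one_mul]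
  -- the limit
  have hε : ∀ n : ℕ, 0 < 1 / ((n : ℝ) + 1) := fun n => Nat.one_div_pos_of_nat
  have hlim : Tendsto (fun n : ℕ => ∫ X, sy (1 / ((n : ℝ) + 1)) (fs u) X ^ 2) atTop
      (𝓝 (∫ X, S X)) := by
    have hb := fun n : ℕ => hSYB (Fin N → E) (Equiv.Perm (Fin N)) (fs u) _ (hε n) hfs
    rw [← hκ] at hb
    refine tendsto_integral_of_dominated_convergence S
      (fun n => ((hb n).1.continuous.pow 2).aestronglyMeasurable) hSi
      (fun n => Eventually.of_forall fun X => ?_) (Eventually.of_forall fun X => ?_)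
    · rw [Real.norm_eq_abs, abs_of_nonneg (sq_nonneg _), hS]
      exact (hb n).2.2.2.1 X
    · have h1 : Tendsto (fun n : ℕ => sy (1 / ((n : ℝ) + 1)) (fs u) X) atTop
          (𝓝 (Real.sqrt (S X))) := by
        have h2 : Tendsto (fun n : ℕ => Real.sqrt (S X) - 1 / ((n : ℝ) + 1)) atTop
            (𝓝 (Real.sqrt (S X) - 0)) :=
          tendsto_const_nhds.sub tendsto_one_div_add_atTop_nhds_zero_nat
        rw [sub_zero] at h2
        refine tendsto_of_tendsto_of_tendsto_of_le_of_le h2 tendsto_const_nhds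
          (fun n => ?_) (fun n => ?_)
        · rw [hS]
          exact (hb n).2.2.2.2.1 X
        · refine Real.le_sqrt_of_sq_le ?_
          rw [hS]
          exact (hb n).2.2.2.1 X
      have h3 := h1.pow 2
      rw [Real.sq_sqrt (hS0 X)] at h3
      exact h3
  rw [hSint] at hlim
  exact le_of_tendsto (hlim.const_mul (E0 V N L)) (Eventually.of_forall fun n => key _ (hε n))

end Pool.Agent.TBA
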