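import Pool.Agent.TBA.Stmts

/-! # Squad TBA, module THS: the filter -/

set_option autoImplicit false

open MeasureTheory Filter Topology
open scoped ContDiff

namespace Pool.Agent.TBA

open Pool.Agent.TBG Pool.Agent.TBL Pool.Agent.TBF

theorem ths_proof (hTHE : Pool.Agent.TBG.Stmt_THE) : Stmt_THS := by
  intro ρ hρ
  obtain ⟨-, -, h2, h3, h4⟩ := hTHE ρ hρ
  have h1 : Tendsto (fun p : ℕ × ℝ => p.1) (thermo ρ) atTop := by
    unfold thermo
    exact tendsto_comap.mono_left (inf_le_left.trans inf_le_left)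
  have hs : Tendsto (fun p : ℕ × ℝ => Real.sqrt p.2) (thermo ρ) atTop := Real.tendsto_sqrt_atTop.comp h2
  have hq : Tendsto (fun p : ℕ × ℝ => ((1 + 3 / Real.sqrt p.2)⁻¹) ^ 3) (thermo ρ) (𝓝 1) := by
    have h5 : Tendsto (fun p : ℕ × ℝ => 3 / Real.sqrt p.2) (thermo ρ) (𝓝 0) :=
      tendsto_const_nhds.div_atTop hs
    have h6 : Tendsto (fun p : ℕ × ℝ => 1 + 3 / Real.sqrt p.2) (thermo ρ) (𝓝 (1 + 0)) :=
      tendsto_const_nhds.add h5
    have h7 := (h6.inv₀ (by norm_num)).pow 3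
    simpa using h7
  have h8 : Tendsto (fun p : ℕ × ℝ => (p.1 : ℝ) / (p.2 + 3 * Real.sqrt p.2) ^ 3) (thermo ρ) (𝓝 ρ) := by
    have h9 := h3.mul hq
    rw [mul_one] at h9
    refine h9.congr' ?_
    filter_upwards [h4] with p hp
    have h10 : 0 < Real.sqrt p.2 := Real.sqrt_pos.2 hp
    have h11 : p.2 + 3 * Real.sqrt p.2 = p.2 * (1 + 3 / Real.sqrt p.2) := by
      have h12 : p.2 / Real.sqrt p.2 = Real.sqrt p.2 := Real.div_sqrt
      have h13 : p.2 * (1 + 3 / Real.sqrt p.2) = p.2 + 3 * (p.2 / Real.sqrt p.2) := by ring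
      rw [h13, h12]
    rw [h11, mul_pow, inv_pow, div_mul_eq_div_div, div_eq_mul_inv (_ / _)]
  have h14 : ∀ᶠ p in thermo ρ, 0 < p.2 + 3 * Real.sqrt p.2 := by
    filter_upwards [h4] with p hp
    have := Real.sqrt_nonneg p.2
    linarith
  conv_rhs => unfold thermo
  refine tendsto_inf.2 ⟨tendsto_inf.2 ⟨tendsto_comap_iff.2 h1, tendsto_comap_iff.2 h8⟩, ?_⟩
  exact tendsto_principal.2 h14

end Pool.Agent.TBA
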