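import Pool.Agent.TBG.All
import Pool.Agent.TBL.All
import Pool.Agent.TBF.PLS
import Pool.Agent.TBA.EDI
import Pool.Agent.TBA.EDB
import Pool.Agent.TBA.EDM
import Pool.Agent.TBA.REN
import Pool.Agent.TBA.EDE
import Pool.Agent.TBA.EDT
import Pool.Agent.TBA.SPI
import Pool.Agent.TBA.SPD
import Pool.Agent.TBA.SPP
import Pool.Agent.TBA.MNP
import Pool.Agent.TBA.PRD
import Pool.Agent.TBA.GLU
import Pool.Agent.TBA.GFI
import Pool.Agent.TBA.GRC
import Pool.Agent.TBA.SUB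
import Pool.Agent.TBA.KBD
import Pool.Agent.TBA.LMB
import Pool.Agent.TBA.LMF
import Pool.Agent.TBA.LIM
import Pool.Agent.TBA.SYB
import Pool.Agent.TBA.SYM
import Pool.Agent.TBA.FET
import Pool.Agent.TBA.FGK
import Pool.Agent.TBA.FC1
import Pool.Agent.TBA.FCJ
import Pool.Agent.TBA.FCV
import Pool.Agent.TBA.FUC
import Pool.Agent.TBA.FPO
import Pool.Agent.TBA.FLI
import Pool.Agent.TBA.FOS
import Pool.Agent.TBA.FOL
import Pool.Agent.TBA.THS
import Pool.Agent.TBA.TDM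
import Pool.Agent.TBA.MPH
import Pool.Agent.TBA.OUTA

/-!
# Three-body Bose gases (MP_80dc41_mp), existence of the thermodynamic limit: assembly
-/

set_option autoImplicit false

namespace Pool.Agent.TBA

open Pool.Agent.TBG Pool.Agent.TBL Pool.Agent.TBF

theorem f_pls : Pool.Agent.TBF.Stmt_PLS :=
  Pool.Agent.TBF.pls_proof Pool.Agent.TBL.r_prf Pool.Agent.TBL.r_sca Pool.Agent.TBG.q_lsu
theorem a_edi : Stmt_EDI := edi_proof
theorem a_edb : Stmt_EDB := edb_proof a_edi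
theorem a_edm : Stmt_EDM := edm_proof a_edb
theorem a_ren : Stmt_REN := ren_proof
theorem a_ede : Stmt_EDE := ede_proof a_ren
theorem a_edt : Stmt_EDT := edt_proof
theorem a_spi : Stmt_SPI := spi_proof
theorem a_spd : Stmt_SPD := spd_proof
theorem a_spp : Stmt_SPP := spp_proof
theorem a_mnp : Stmt_MNP := mnp_proof a_edi a_edb a_spi a_spd a_spp
theorem a_prd : Stmt_PRD := prd_proof a_edi a_spi a_spd a_spp
theorem a_glu : Stmt_GLU := glu_proof a_edb a_prd
theorem a_gfi : Stmt_GFI := gfi_proof a_ede a_glu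
theorem a_grc : Stmt_GRC := grc_proof a_edm a_edt a_gfi
theorem a_sub : Stmt_SUB := sub_proof a_edb a_edm a_ede a_mnp a_grc
theorem a_kbd : Stmt_KBD := kbd_proof
theorem a_lmb : Stmt_LMB := lmb_proof a_kbd
theorem a_lmf : Stmt_LMF := lmf_proof
theorem a_lim : Stmt_LIM := lim_proof a_kbd a_lmb a_lmf Pool.Agent.TBG.q_the
theorem a_syb : Stmt_SYB := syb_proof
theorem a_sym : Stmt_SYM := sym_proof a_edi a_edb a_edm a_ren a_syb Pool.Agent.TBG.q_tri Pool.Agent.TBL.r_pte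
theorem a_fet : Stmt_FET := fet_proof
theorem a_fgk : Stmt_FGK := fgk_proof
theorem a_fc1 : Stmt_FC1 := fc1_proof
theorem a_fcj : Stmt_FCJ := fcj_proof a_fc1
theorem a_fcv : Stmt_FCV := fcv_proof a_fcj
theorem a_fuc : Stmt_FUC := fuc_proof
theorem a_fpo : Stmt_FPO := fpo_proof
theorem a_fli : Stmt_FLI := fli_proof
theorem a_fos : Stmt_FOS := fos_proof a_edi a_edb a_edm a_fet a_fgk a_fcv a_fuc a_fpo a_fli
theorem a_fol : Stmt_FOL := fol_proof a_fos Pool.Agent.TBL.r_den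
theorem a_ths : Stmt_THS := ths_proof Pool.Agent.TBG.q_the
theorem a_tdm : Stmt_TDM := tdm_proof a_sub a_lim a_sym a_fol a_ths Pool.Agent.TBG.q_the
theorem a_mph : Stmt_MPH := mph_proof Pool.Agent.TBG.q_adm Pool.Agent.TBG.q_qfo Pool.Agent.TBG.q_ltr Pool.Agent.TBL.r_prf f_pls
theorem a_outa : Stmt_OUTA := outa_proof a_tdm a_mph f_pls

end Pool.Agent.TBA
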