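import Pool.Agent.TBA.Defs

/-!
# Three-body Bose gases (MP_80dc41_mp), existence of the thermodynamic limit: statements of the modules
-/

set_option autoImplicit false

open MeasureTheory Filter Topology
open scoped ContDiff

namespace Pool.Agent.TBA

open Pool.Agent.TBG Pool.Agent.TBL Pool.Agent.TBF

/-! ## basic facts on Dirichlet energies -/

/-- EDI: regularity of the energy density. -/
def Stmt_EDI : Prop := ∀ (V : E → E → ℝ) (ι : Type) [Fintype ι] [DecidableEq ι], Mon V →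
  Continuous (potS (ι := ι) V) ∧ (∀ X : ι → E, 0 ≤ potS V X) ∧ (∃ C : ℝ, ∀ X : ι → E, potS V X ≤ C) ∧
  ∀ u : (ι → E) → ℝ, ContDiff ℝ ∞ u → Continuous (ed V u) ∧ (∀ X, 0 ≤ ed V u X) ∧
    (∀ X, X ∉ tsupport u → ed V u X = 0) ∧
    (HasCompactSupport u → HasCompactSupport (ed V u) ∧ Integrable (ed V u) ∧ Integrable (fun X => u X ^ 2) ∧
      0 ≤ en V u ∧ ((∫ X, u X ^ 2) = 0 → ∀ X, u X = 0))

/-- EDB: basic properties of `ED`. Uses EDI. -/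
def Stmt_EDB : Prop := ∀ (V : E → E → ℝ) (ι : Type) [Fintype ι] [DecidableEq ι] (Ω : Set E), Mon V →
  IsOpen Ω → Ω.Nonempty →
  (∃ u : (ι → E) → ℝ, Dir Ω u ∧ 0 < ∫ X, u X ^ 2) ∧ 0 ≤ ED V ι Ω ∧
  (∀ u : (ι → E) → ℝ, Dir Ω u → ED V ι Ω * ∫ X, u X ^ 2 ≤ en V u) ∧
  (∀ ε : ℝ, 0 < ε → ∃ u : (ι → E) → ℝ, Dir Ω u ∧ 0 < ∫ X, u X ^ 2 ∧ en V u ≤ (ED V ι Ω + ε) * ∫ X, u X ^ 2)

/-- EDM: monotonicity in the domain. Uses EDB. -/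
def Stmt_EDM : Prop := (∀ L : ℝ, IsOpen (cube L) ∧ (0 < L → (cube L).Nonempty)) ∧
  ∀ (V : E → E → ℝ) (ι : Type) [Fintype ι] [DecidableEq ι] (Ω Ω' : Set E), Mon V →
    IsOpen Ω → Ω.Nonempty → IsOpen Ω' → Ω ⊆ Ω' → ED V ι Ω' ≤ ED V ι Ω

/-- REN: renaming the particles. Uses nothing. -/
def Stmt_REN : Prop := ∀ (V : E → E → ℝ) (ι κ : Type) [Fintype ι] [DecidableEq ι] [Fintype κ] [DecidableEq κ]
  (e : ι ≃ κ) (u : (κ → E) → ℝ), ContDiff ℝ ∞ u →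
  ContDiff ℝ ∞ (fun X : ι → E => u (fun k => X (e.symm k))) ∧
  (HasCompactSupport u → HasCompactSupport (fun X : ι → E => u (fun k => X (e.symm k)))) ∧
  (∀ X ∈ tsupport (fun X : ι → E => u (fun k => X (e.symm k))), (fun k => X (e.symm k)) ∈ tsupport u) ∧
  (∀ X : ι → E, ed V (fun X : ι → E => u (fun k => X (e.symm k))) X = ed V u (fun k => X (e.symm k))) ∧
  en V (fun X : ι → E => u (fun k => X (e.symm k))) = en V u ∧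
  ∫ X : ι → E, u (fun k => X (e.symm k)) ^ 2 = ∫ X, u X ^ 2

/-- EDE: `ED` depends only on the number of particles. Uses REN. -/
def Stmt_EDE : Prop := ∀ (V : E → E → ℝ) (ι κ : Type) [Fintype ι] [DecidableEq ι] [Fintype κ] [DecidableEq κ]
  (Ω : Set E), Fintype.card ι = Fintype.card κ → ED V ι Ω = ED V κ Ω

/-- EDT: translations. Uses nothing. -/
def Stmt_EDT : Prop := ∀ (V : E → E → ℝ) (ι : Type) [Fintype ι] [DecidableEq ι] (Ω : Set E) (a : E),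
  ED V ι {x | x - a ∈ Ω} = ED V ι Ω

/-! ## two groups of particles -/

/-- SPI: Fubini for two groups of particles. Uses nothing. -/
def Stmt_SPI : Prop := ∀ (ι κ : Type) [Fintype ι] [Fintype κ],
  (∀ F : (ι ⊕ κ → E) → ℝ, Continuous F → HasCompactSupport F →
    (∫ Z, F Z = ∫ Y : κ → E, ∫ X : ι → E, F (Sum.elim X Y)) ∧
    Integrable (fun Y : κ → E => ∫ X : ι → E, F (Sum.elim X Y)) ∧
    (∀ Y : κ → E, HasCompactSupport (fun X : ι → E => F (Sum.elim X Y))) ∧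
    (∀ Y : κ → E, ∀ X ∈ tsupport (fun X : ι → E => F (Sum.elim X Y)), Sum.elim X Y ∈ tsupport F)) ∧
  (∀ (f : (ι → E) → ℝ) (g : (κ → E) → ℝ), ∫ Z, pr2 f g Z = (∫ X, f X) * ∫ Y, g Y)

/-- SPD: derivatives for two groups of particles. Uses nothing. -/
def Stmt_SPD : Prop := ∀ (ι κ : Type) [Fintype ι] [DecidableEq ι] [Fintype κ] [DecidableEq κ],
  (∀ u : (ι ⊕ κ → E) → ℝ, ContDiff ℝ ∞ u → ∀ (Y : κ → E), ContDiff ℝ ∞ (fun X' : ι → E => u (Sum.elim X' Y)) ∧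
    ∀ (X : ι → E) i c, di i c (fun X' : ι → E => u (Sum.elim X' Y)) X = di (Sum.inl i) c u (Sum.elim X Y)) ∧
  (∀ (u : (ι → E) → ℝ) (v : (κ → E) → ℝ), ContDiff ℝ ∞ u → ContDiff ℝ ∞ v → ContDiff ℝ ∞ (pr2 u v) ∧
    ∀ Z : ι ⊕ κ → E, (∀ i c, di (Sum.inl i) c (pr2 u v) Z =
        di i c u (fun i => Z (Sum.inl i)) * v (fun k => Z (Sum.inr k))) ∧
      (∀ k c, di (Sum.inr k) c (pr2 u v) Z =
        u (fun i => Z (Sum.inl i)) * di k c v (fun k => Z (Sum.inr k))))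

/-- SPP: the potential of two groups of particles. Uses nothing. -/
def Stmt_SPP : Prop := ∀ (V : E → E → ℝ) (ι κ : Type) [Fintype ι] [DecidableEq ι] [Fintype κ] [DecidableEq κ]
  (X : ι → E) (Y : κ → E), (∀ x y, 0 ≤ V x y) → potS V X ≤ potS V (Sum.elim X Y) ∧
  ∀ R : ℝ, Rng V R → (∀ i k, R < ‖X i - Y k‖) → potS V (Sum.elim X Y) = potS V X + potS V Y

/-- MNP: monotonicity in the particles. Uses EDI, EDB, SPI, SPD, SPP. -/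
def Stmt_MNP : Prop := ∀ (V : E → E → ℝ) (ι κ : Type) [Fintype ι] [DecidableEq ι] [Fintype κ] [DecidableEq κ]
  (Ω : Set E), Mon V → IsOpen Ω → Ω.Nonempty → ED V ι Ω ≤ ED V (ι ⊕ κ) Ω

/-- PRD: product functions. Uses EDI, SPI, SPD, SPP. -/
def Stmt_PRD : Prop := ∀ (V : E → E → ℝ) (ι κ : Type) [Fintype ι] [DecidableEq ι] [Fintype κ] [DecidableEq κ]
  (Ω₁ Ω₂ : Set E) (R : ℝ) (u : (ι → E) → ℝ) (v : (κ → E) → ℝ), Mon V → Rng V R →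
  (∀ x ∈ Ω₁, ∀ y ∈ Ω₂, R < ‖x - y‖) → Dir Ω₁ u → Dir Ω₂ v → Dir (Ω₁ ∪ Ω₂) (pr2 u v) ∧
  ∫ Z, pr2 u v Z ^ 2 = (∫ X, u X ^ 2) * ∫ Y, v Y ^ 2 ∧
  en V (pr2 u v) = en V u * (∫ Y, v Y ^ 2) + (∫ X, u X ^ 2) * en V v

/-- GLU: two distant domains. Uses EDB, PRD. -/
def Stmt_GLU : Prop := ∀ (V : E → E → ℝ) (ι κ : Type) [Fintype ι] [DecidableEq ι] [Fintype κ] [DecidableEq κ]
  (Ω₁ Ω₂ : Set E) (R : ℝ), Mon V → Rng V R → IsOpen Ω₁ → IsOpen Ω₂ → Ω₁.Nonempty → Ω₂.Nonempty →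
  (∀ x ∈ Ω₁, ∀ y ∈ Ω₂, R < ‖x - y‖) → ED V (ι ⊕ κ) (Ω₁ ∪ Ω₂) ≤ ED V ι Ω₁ + ED V κ Ω₂

/-- GFI: finitely many distant domains. Uses EDE, GLU. -/
def Stmt_GFI : Prop := ∀ (V : E → E → ℝ) (J : Type) [DecidableEq J] (S : Finset J) (Ω : J → Set E) (n : J → ℕ)
  (R : ℝ), Mon V → Rng V R → S.Nonempty → (∀ a ∈ S, IsOpen (Ω a) ∧ (Ω a).Nonempty) →
  (∀ a ∈ S, ∀ b ∈ S, a ≠ b → ∀ x ∈ Ω a, ∀ y ∈ Ω b, R < ‖x - y‖) →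
  ED V (Fin (∑ a ∈ S, n a)) (⋃ a ∈ S, Ω a) ≤ ∑ a ∈ S, ED V (Fin (n a)) (Ω a)

/-- GRC: the grid of cubes. Uses EDM, EDT, GFI. -/
def Stmt_GRC : Prop := ∀ (V : E → E → ℝ) (R r s L : ℝ) (k : ℕ) (n : (Fin 3 → Fin k) → ℕ), Mon V → Rng V R →
  R < r → 0 < r → 0 < s → 0 < k → k * (s + r) ≤ L →
  ED V (Fin (∑ a, n a)) (cube L) ≤ ∑ a, ED V (Fin (n a)) (cube s)

/-- SUB: the properties of the Dirichlet energies. Uses EDB, EDM, EDE, MNP, GRC. -/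
def Stmt_SUB : Prop := ∀ V : E → E → ℝ, Mon V → ∃ r : ℝ, 0 < r ∧ Sadd (fun n s => ED V (Fin n) (cube s)) r

/-! ## the limit -/

/-- KBD: a bound. Uses nothing. -/
def Stmt_KBD : Prop := ∀ (f : ℕ → ℝ → ℝ) (r : ℝ), 0 < r → Sadd f r → ∀ A : ℝ, 0 < A →
  ∃ K s₀ : ℝ, 0 < K ∧ 0 < s₀ ∧ ∀ (s : ℝ) (n : ℕ), s₀ ≤ s → (n : ℝ) ≤ A * s ^ 3 → f n s ≤ K * s ^ 3

/-- LMB: the key inequality. Uses KBD. -/
def Stmt_LMB : Prop := ∀ (f : ℕ → ℝ → ℝ) (r : ℝ), 0 < r → Sadd f r → ∀ ρ ε : ℝ, 0 < ρ → 0 < ε →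
  ∃ ε' s₁ : ℝ, 0 < ε' ∧ 0 < s₁ ∧ ∀ (n₁ : ℕ) (s B : ℝ), s₁ ≤ s → ρ - ε' ≤ (n₁ : ℝ) / s ^ 3 → f n₁ s ≤ B * s ^ 3 →
    ∃ L₁ : ℝ, 0 < L₁ ∧ ∀ (N : ℕ) (L : ℝ), L₁ ≤ L → (N : ℝ) / L ^ 3 ≤ ρ + ε' → f N L ≤ (B + ε) * L ^ 3

/-- LMF: a criterion for the existence of limits. Uses nothing. -/
def Stmt_LMF : Prop := ∀ (α : Type) (l : Filter α) (F : α → ℝ) (K : ℝ), l.NeBot → (∀ᶠ x in l, 0 ≤ F x) →
  (∀ᶠ x in l, F x ≤ K) → (∀ B ε : ℝ, 0 < ε → (∃ᶠ x in l, F x ≤ B) → ∀ᶠ x in l, F x ≤ B + ε) →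
  ∃ e : ℝ, Tendsto F l (𝓝 e)

/-- LIM: the limit of the Dirichlet energies. Uses KBD, LMB, LMF, G:THE. -/
def Stmt_LIM : Prop := ∀ (f : ℕ → ℝ → ℝ) (r : ℝ), 0 < r → Sadd f r → ∀ ρ : ℝ, 0 < ρ →
  ∃ e : ℝ, Tendsto (fun p : ℕ × ℝ => f p.1 p.2 / p.2 ^ 3) (thermo ρ) (𝓝 e)

/-! ## symmetrisation -/

/-- SYB: the smoothed square mean. Uses nothing. -/
def Stmt_SYB : Prop := ∀ (W : Type) [NormedAddCommGroup W] [NormedSpace ℝ W] (S : Type) [Fintype S] [Nonempty S]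
  (f : S → W → ℝ) (ε : ℝ), 0 < ε → (∀ σ, ContDiff ℝ ∞ (f σ)) → ContDiff ℝ ∞ (sy ε f) ∧
  (∀ x, (∀ σ, f σ x = 0) → sy ε f x = 0) ∧ (∀ x, 0 ≤ sy ε f x) ∧
  (∀ x, sy ε f x ^ 2 ≤ (Fintype.card S : ℝ)⁻¹ * ∑ σ, f σ x ^ 2) ∧
  (∀ x, Real.sqrt ((Fintype.card S : ℝ)⁻¹ * ∑ σ, f σ x ^ 2) - ε ≤ sy ε f x) ∧
  (∀ x w, (fderiv ℝ (sy ε f) x w) ^ 2 ≤ (Fintype.card S : ℝ)⁻¹ * ∑ σ, (fderiv ℝ (f σ) x w) ^ 2)

/-- SYM: the symmetric ground state energy is at most the absolute one. Uses EDI, EDB, EDM, REN, SYB, G:TRI, L:PTE. -/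
def Stmt_SYM : Prop := ∀ (V : E → E → ℝ) (N : ℕ) (L : ℝ), Mon V → 0 < L → E0 V N L ≤ ED V (Fin N) (cube L)

/-! ## folding -/

/-- FET: the weight. Uses nothing. -/
def Stmt_FET : Prop := ∃ C : ℝ, 0 < C ∧ ∀ L h : ℝ, 0 < h → h ≤ L / 2 → ∃ η : ℝ → ℝ, ContDiff ℝ ∞ η ∧
  (∀ s, 0 ≤ η s ∧ η s ≤ 1) ∧ (∀ s, L / 2 + h ≤ |s| → η s = 0) ∧ (∀ s, |deriv η s| ≤ C / h) ∧
  (∀ s, |s| ≤ L / 2 → η s ^ 2 + η (L - s) ^ 2 + η (-L - s) ^ 2 = 1)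

/-- FGK: smooth approximations of `fo`. Uses nothing. -/
def Stmt_FGK : Prop := ∀ L : ℝ, 0 < L → ∃ G : ℕ → ℝ → ℝ, (∀ n, ContDiff ℝ ∞ (G n)) ∧ (∀ n s, |deriv (G n) s| ≤ 1) ∧
  (∀ n s t, |G n s - G n t| ≤ |s - t|) ∧ (∀ s, Tendsto (fun n => G n s) atTop (𝓝 (fo L s)))

/-- FC1: change of variables in dimension 1. Uses nothing. -/
def Stmt_FC1 : Prop := ∀ (L : ℝ) (w g : ℝ → ENNReal), 0 < L → Measurable w → Measurable g →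
  (∀ s, 3 * L / 2 < |s| → w s = 0) →
  ∫⁻ s, w s * g (fo L s) = ∫⁻ s in Set.Ioo (-(L / 2)) (L / 2), (w s + w (L - s) + w (-L - s)) * g s

/-- FCJ: change of variables in `ℝ^J`. Uses FC1. -/
def Stmt_FCJ : Prop := ∀ (J : Type) [Fintype J] (L : ℝ) (w : J → ℝ → ENNReal) (F : (J → ℝ) → ENNReal), 0 < L →
  (∀ j, Measurable (w j)) → (∀ j, ∃ B : NNReal, ∀ s, w j s ≤ B) → (∀ j s, 3 * L / 2 < |s| → w j s = 0) →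
  Measurable F → ∫⁻ x : J → ℝ, (∏ j, w j (x j)) * F (fun j => fo L (x j)) =
    ∫⁻ x in {x : J → ℝ | ∀ j, |x j| < L / 2}, (∏ j, (w j (x j) + w j (L - x j) + w j (-L - x j))) * F x

/-- FCV: change of variables. Uses FCJ. -/
def Stmt_FCV : Prop := ∀ (ι : Type) [Fintype ι] (L : ℝ) (w : ι → Fin 3 → ℝ → ℝ) (F : (ι → E) → ℝ), 0 < L →
  (∀ i c, Continuous (w i c)) → (∀ i c s, 0 ≤ w i c s) → (∀ i c s, 3 * L / 2 < |s| → w i c s = 0) →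
  Continuous F → (∀ X, 0 ≤ F X) →
  ∫ X, (∏ i, ∏ c, w i c (X i c)) * F (cw (fo L) X) =
    ∫ X in boxi ι L, (∏ i, ∏ c, (w i c (X i c) + w i c (L - X i c) + w i c (-L - X i c))) * F X

/-- FUC: derivatives of the unfolded function. Uses nothing. -/
def Stmt_FUC : Prop := ∀ (ι : Type) [Fintype ι] [DecidableEq ι] (η G : ℝ → ℝ) (B : ℝ) (u : (ι → E) → ℝ),
  ContDiff ℝ ∞ η → ContDiff ℝ ∞ G → (∀ s, |deriv G s| ≤ 1) → (∀ s, B ≤ |s| → η s = 0) → ContDiff ℝ ∞ u →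
  ContDiff ℝ ∞ (FU η G u) ∧ HasCompactSupport (FU η G u) ∧ (∀ X ∈ tsupport (FU η G u), ∀ i c, |X i c| ≤ B) ∧
  (∀ X, FU η G u X ^ 2 = (∏ j, ∏ d, η (X j d) ^ 2) * u (cw G X) ^ 2) ∧
  ∀ (δ : ℝ) (X : ι → E) (i : ι) (c : Fin 3), 0 < δ → (di i c (FU η G u) X) ^ 2 ≤
    (1 + δ) * ((∏ j, ∏ d, η (X j d) ^ 2) * (di i c u (cw G X)) ^ 2) +
    (1 + 1 / δ) * ((∏ j, ∏ d, (if j = i ∧ d = c then (deriv η (X j d)) ^ 2 else η (X j d) ^ 2)) * u (cw G X) ^ 2)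

/-- FPO: the potential. Uses nothing. -/
def Stmt_FPO : Prop := ∀ (V : E → E → ℝ) (ι : Type) [Fintype ι] [DecidableEq ι] (G : ℝ → ℝ), Mon V →
  (∀ s t, |G s - G t| ≤ |s - t|) → ∀ X : ι → E, potS V X ≤ potS V (cw G X)

/-- FLI: the limit of the integrals. Uses nothing. -/
def Stmt_FLI : Prop := ∀ (ι : Type) [Fintype ι] (L B : ℝ) (G : ℕ → ℝ → ℝ) (W F : (ι → E) → ℝ),
  (∀ n, Continuous (G n)) → (∀ s, Tendsto (fun n => G n s) atTop (𝓝 (fo L s))) → Continuous W →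
  HasCompactSupport W → Continuous F → (∀ X, |F X| ≤ B) →
  Tendsto (fun n => ∫ X, W X * F (cw (G n) X)) atTop (𝓝 (∫ X, W X * F (cw (fo L) X)))

/-- FOS: folding for smooth functions. Uses EDI, EDB, EDM, FET, FGK, FCV, FUC, FPO, FLI. -/
def Stmt_FOS : Prop := ∃ C : ℝ, 0 < C ∧ ∀ (V : E → E → ℝ) (ι : Type) [Fintype ι] [DecidableEq ι] (L h δ : ℝ)
  (u : (ι → E) → ℝ), Mon V → 0 < h → h ≤ L / 2 → 0 < δ → ContDiff ℝ ∞ u → HasCompactSupport u →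
  (ED V ι (cube (L + 3 * h)) - C * (1 + 1 / δ) * (Fintype.card ι : ℝ) / h ^ 2) * ∫ X in boxi ι L, u X ^ 2 ≤
    (1 + δ) * ∫ X in boxi ι L, ed V u X

/-- FOL: Dirichlet and Neumann energies. Uses FOS, L:DEN. -/
def Stmt_FOL : Prop := ∃ C : ℝ, 0 < C ∧ ∀ (V : E → E → ℝ) (N : ℕ) (L h δ : ℝ), Mon V → 0 < h → h ≤ L / 2 → 0 < δ →
  ED V (Fin N) (cube (L + 3 * h)) ≤ (1 + δ) * E0 V N L + C * (1 + 1 / δ) * N / h ^ 2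

/-! ## conclusion -/

/-- THS: the filter. Uses G:THE. -/
def Stmt_THS : Prop := ∀ ρ : ℝ, 0 < ρ → Tendsto (fun p : ℕ × ℝ => (p.1, p.2 + 3 * Real.sqrt p.2)) (thermo ρ) (thermo ρ)

/-- TDM: the thermodynamic limit. Uses SUB, LIM, SYM, FOL, THS, G:THE. -/
def Stmt_TDM : Prop := ∀ V : E → E → ℝ, Mon V → ∀ ρ : ℝ, 0 < ρ → ∃ e : ℝ, IsE3B V ρ e

/-- MPH: the family. Uses G:ADM, G:QFO, G:LTR, L:PRF, F:PLS. -/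
def Stmt_MPH : Prop := (∀ lam : ℝ, 0 < lam → lam ≤ 1 → Mon (VV (pl lam))) ∧
  (∀ (V : E → E → ℝ) (r : ℝ), 0 < r → Mon V → Mon (fun x y => (r ^ 2)⁻¹ * V (r⁻¹ • x) (r⁻¹ • y))) ∧
  (∀ (φ : E × E → ℝ) (r : ℝ), 0 < r → Scat φ →
    VV (fun z => φ (r⁻¹ • z)) = fun x y => (r ^ 2)⁻¹ * VV φ (r⁻¹ • x) (r⁻¹ • y))

/-- OUTA: existence of the thermodynamic limit for the family. Uses TDM, MPH, F:PLS. -/
def Stmt_OUTA : Prop := ∀ lam r : ℝ, 0 < lam → lam ≤ 1 → 0 < r → ∀ ρ : ℝ, 0 < ρ →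
  ∃ e : ℝ, IsE3B (VV (fun z => pl lam (r⁻¹ • z))) ρ e

end Pool.Agent.TBA
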