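import Pool.Agent.TBF.Stmts

/-!
# Three-body Bose gases (MP_80dc41_mp), existence of the thermodynamic limit: definitions
-/

set_option autoImplicit false

open MeasureTheory Filter Topology
open scoped ContDiff

namespace Pool.Agent.TBA

open Pool.Agent.TBG Pool.Agent.TBL Pool.Agent.TBF

/-! ## Dirichlet energies -/

/-- continuous admissible potentials which are decreasing functions of `QQ` -/
structure Mon (V : E → E → ℝ) : Prop where
  adm : Admissible V
  cont : Continuous (fun z : E × E => V z.1 z.2)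
  mono : ∀ z z' : E × E, QQ z ≤ QQ z' → V z'.1 z'.2 ≤ V z.1 z.2

/-- `V` has range `R` -/
def Rng (V : E → E → ℝ) (R : ℝ) : Prop := ∀ x y : E, R < ‖x‖ ∨ R < ‖y‖ → V x y = 0

/-- the energy density -/
noncomputable def ed {ι : Type} [Fintype ι] [DecidableEq ι] (V : E → E → ℝ) (u : (ι → E) → ℝ) (X : ι → E) : ℝ :=
  ∑ i, ∑ c, (di i c u X) ^ 2 + potS V X * u X ^ 2

/-- the energy -/
noncomputable def en {ι : Type} [Fintype ι] [DecidableEq ι] (V : E → E → ℝ) (u : (ι → E) → ℝ) : ℝ :=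
  ∫ X, ed V u X

/-- smooth functions with compact support in `Ω^ι` -/
structure Dir {ι : Type} [Fintype ι] (Ω : Set E) (u : (ι → E) → ℝ) : Prop where
  smooth : ContDiff ℝ ∞ u
  cpt : HasCompactSupport u
  supp : ∀ X ∈ tsupport u, ∀ i, X i ∈ Ω

/-- the ground state energy of the particles `ι` in `Ω` with Dirichlet boundary conditions (no symmetry) -/
noncomputable def ED (V : E → E → ℝ) (ι : Type) [Fintype ι] [DecidableEq ι] (Ω : Set E) : ℝ :=
  sInf {e : ℝ | ∃ u : (ι → E) → ℝ, Dir Ω u ∧ 0 < ∫ X, u X ^ 2 ∧ e = en V u / ∫ X, u X ^ 2}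

/-- the open cube of side `L` -/
def cube (L : ℝ) : Set E := {x | ∀ c, |x c| < L / 2}

/-- its power; `boxi (Fin N) L` is `box N L` by definition -/
def boxi (ι : Type) (L : ℝ) : Set (ι → E) := {X | ∀ i c, |X i c| < L / 2}

/-- the product of two functions of different particles -/
def pr2 {ι κ : Type} (u : (ι → E) → ℝ) (v : (κ → E) → ℝ) (Z : ι ⊕ κ → E) : ℝ :=
  u (fun i => Z (Sum.inl i)) * v (fun k => Z (Sum.inr k))

/-! ## symmetrisation -/

/-- the smoothed square mean of a family of functions -/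
noncomputable def sy {W S : Type} [Fintype S] (ε : ℝ) (f : S → W → ℝ) (x : W) : ℝ :=
  Real.sqrt (ε ^ 2 + (Fintype.card S : ℝ)⁻¹ * ∑ σ, f σ x ^ 2) - ε

/-! ## the limit -/

/-- the properties of the Dirichlet energies `f n s` of `n` particles in a cube of side `s` -/
structure Sadd (f : ℕ → ℝ → ℝ) (r : ℝ) : Prop where
  nonneg : ∀ n s, 0 < s → 0 ≤ f n s
  mono : ∀ n m s, 0 < s → n ≤ m → f n s ≤ f m s
  anti : ∀ n s t, 0 < s → s ≤ t → f n t ≤ f n s
  sup : ∀ (k m₁ m₂ n₁ n₂ : ℕ) (s L : ℝ), 0 < k → m₁ + m₂ = k ^ 3 → 0 < s → k * (s + r) ≤ L →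
    f (m₁ * n₁ + m₂ * n₂) L ≤ m₁ * f n₁ s + m₂ * f n₂ s

/-! ## folding -/

/-- reflection at the points `±L/2` -/
noncomputable def fo (L s : ℝ) : ℝ := if L / 2 < s then L - s else if s < -(L / 2) then -L - s else s

/-- a function applied to all coordinates -/
noncomputable def cw {ι : Type} (g : ℝ → ℝ) (X : ι → E) : ι → E := fun i => WithLp.toLp 2 (fun c => g (X i c))

/-- the unfolded function -/
noncomputable def FU {ι : Type} [Fintype ι] (η G : ℝ → ℝ) (u : (ι → E) → ℝ) (X : ι → E) : ℝ :=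
  (∏ i, ∏ c, η (X i c)) * u (cw G X)

end Pool.Agent.TBA
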