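import Pool.Agent.TBA.Stmts

set_option autoImplicit false

open MeasureTheory Filter Topology
open scoped ContDiff

namespace Pool.Agent.TBA

open Pool.Agent.TBG Pool.Agent.TBL Pool.Agent.TBF

theorem sub_proof (hEDB : Stmt_EDB) (hEDM : Stmt_EDM) (hEDE : Stmt_EDE) (hMNP : Stmt_MNP)
    (hGRC : Stmt_GRC) : Stmt_SUB := by
  intro V hV
  obtain ⟨R, hR⟩ := hV.adm.supp
  have hopen : ∀ L : ℝ, IsOpen (cube L) := fun L => (hEDM.1 L).1
  have hne : ∀ L : ℝ, 0 < L → (cube L).Nonempty := fun L hL => (hEDM.1 L).2 hL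
  have hrng : Rng V (max R 0) := by
    intro x y hxy
    apply hR
    rcases hxy with h | h
    · exact Or.inl (lt_of_le_of_lt (le_max_left _ _) h)
    · exact Or.inr (lt_of_le_of_lt (le_max_left _ _) h)
  have hr : 0 < max R 0 + 1 := by
    have := le_max_right R 0
    linarith
  refine ⟨max R 0 + 1, hr, ?_, ?_, ?_, ?_⟩
  · intro n s hs
    exact (hEDB V (Fin n) (cube s) hV (hopen s) (hne s hs)).2.1
  · intro n m s hs hnm
    have h1 := hMNP V (Fin n) (Fin (m - n)) (cube s) hV (hopen s) (hne s hs)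
    have h2 := hEDE V (Fin n ⊕ Fin (m - n)) (Fin m) (cube s) (by
      rw [Fintype.card_sum, Fintype.card_fin, Fintype.card_fin, Fintype.card_fin]
      omega)
    exact h1.trans h2.le
  · intro n s t hs hst
    refine hEDM.2 V (Fin n) (cube s) (cube t) hV (hopen s) (hne s hs) (hopen t) fun x hx c => ?_
    exact lt_of_lt_of_le (hx c) (by linarith)
  · intro k m₁ m₂ n₁ n₂ s L hk hm hs hL
    have hcard : (Finset.univ : Finset (Fin 3 → Fin k)).card = k ^ 3 := by
      rw [Finset.card_univ, Fintype.card_fun, Fintype.card_fin, Fintype.card_fin]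
    obtain ⟨T, hTs, hTc⟩ := Finset.exists_subset_card_eq (s := (Finset.univ : Finset (Fin 3 → Fin k)))
      (n := m₂) (by rw [hcard]; omega)
    have hTc' : (Finset.univ.filter fun a : Fin 3 → Fin k => a ∉ T).card = m₁ := by
      have h3 : (Finset.univ.filter fun a : Fin 3 → Fin k => a ∉ T) = Tᶜ := by
        ext a
        simp
      rw [h3, Finset.card_compl, Fintype.card_fun, Fintype.card_fin, Fintype.card_fin, hTc]
      omega
    have hTf : (Finset.univ.filter fun a : Fin 3 → Fin k => a ∈ T) = T := by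
      ext a
      simp
    have h4 := hGRC V (max R 0) (max R 0 + 1) s L k (fun a => if a ∈ T then n₂ else n₁) hV hrng
      (by linarith) hr hs hk hL
    have hsum : (∑ a : Fin 3 → Fin k, if a ∈ T then n₂ else n₁) = m₁ * n₁ + m₂ * n₂ := by
      rw [Finset.sum_ite, Finset.sum_const, Finset.sum_const, hTc', hTf, hTc, smul_eq_mul, smul_eq_mul]
      ring
    have hsumR : (∑ a : Fin 3 → Fin k, ED V (Fin (if a ∈ T then n₂ else n₁)) (cube s)) =
        m₁ * ED V (Fin n₁) (cube s) + m₂ * ED V (Fin n₂) (cube s) := by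
      have h5 : ∀ a : Fin 3 → Fin k, ED V (Fin (if a ∈ T then n₂ else n₁)) (cube s) =
          if a ∈ T then ED V (Fin n₂) (cube s) else ED V (Fin n₁) (cube s) := by
        intro a
        by_cases ha : a ∈ T
        · rw [if_pos ha, if_pos ha]
        · rw [if_neg ha, if_neg ha]
      rw [Finset.sum_congr rfl fun a _ => h5 a, Finset.sum_ite, Finset.sum_const, Finset.sum_const, hTc',
        hTf, hTc, nsmul_eq_mul, nsmul_eq_mul]
      ring
    rw [hsumR] at h4
    have h6 : ED V (Fin (m₁ * n₁ + m₂ * n₂)) (cube L) =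
        ED V (Fin (∑ a : Fin 3 → Fin k, if a ∈ T then n₂ else n₁)) (cube L) := by
      rw [hsum]
    exact h6.le.trans h4

end Pool.Agent.TBA
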