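import Pool.Agent.TBA.Stmts

/-!
# Three-body Bose gases (MP_80dc41_mp), module TDM: the thermodynamic limit
-/

set_option autoImplicit false

open MeasureTheory Filter Topology
open scoped ContDiff

namespace Pool.Agent.TBA

open Pool.Agent.TBG Pool.Agent.TBL Pool.Agent.TBF

namespace TDM_

/-- the squeeze, for abstract functions -/
theorem squeeze (f g : ℕ → ℝ → ℝ) (l : Filter (ℕ × ℝ)) (ρ e C : ℝ)
    (hL : Tendsto (fun p : ℕ × ℝ => p.2) l atTop)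
    (hNL : Tendsto (fun p : ℕ × ℝ => (p.1 : ℝ) / p.2 ^ 3) l (𝓝 ρ))
    (hTH : Tendsto (fun p : ℕ × ℝ => (p.1, p.2 + 3 * Real.sqrt p.2)) l l)
    (he : Tendsto (fun p : ℕ × ℝ => f p.1 p.2 / p.2 ^ 3) l (𝓝 e))
    (hF : ∀ (N : ℕ) (L h δ : ℝ), 0 < h → h ≤ L / 2 → 0 < δ →
      f N (L + 3 * h) ≤ (1 + δ) * g N L + C * (1 + 1 / δ) * N / h ^ 2)
    (hG : ∀ (N : ℕ) (L : ℝ), 0 < L → g N L ≤ f N L) :
    Tendsto (fun p : ℕ × ℝ => g p.1 p.2 / p.2 ^ 3) l (𝓝 e) := by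
  have hs : Tendsto (fun p : ℕ × ℝ => Real.sqrt p.2) l atTop := Real.tendsto_sqrt_atTop.comp hL
  have hsi : Tendsto (fun p : ℕ × ℝ => (Real.sqrt p.2)⁻¹) l (𝓝 0) := tendsto_inv_atTop_zero.comp hs
  have hLi : Tendsto (fun p : ℕ × ℝ => (p.2)⁻¹) l (𝓝 0) := tendsto_inv_atTop_zero.comp hL
  -- the lower bound
  have hlow : Tendsto (fun p : ℕ × ℝ =>
      (f p.1 (p.2 + 3 * Real.sqrt p.2) / (p.2 + 3 * Real.sqrt p.2) ^ 3 *
        (1 + 3 * (Real.sqrt p.2)⁻¹) ^ 3 -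
        C * ((p.2)⁻¹ + (Real.sqrt p.2)⁻¹) * ((p.1 : ℝ) / p.2 ^ 3)) / (1 + (Real.sqrt p.2)⁻¹)) l (𝓝 e) := by
    have h1 : Tendsto (fun p : ℕ × ℝ =>
        f p.1 (p.2 + 3 * Real.sqrt p.2) / (p.2 + 3 * Real.sqrt p.2) ^ 3) l (𝓝 e) :=
      he.comp hTH
    have h2 : Tendsto (fun p : ℕ × ℝ => (1 + 3 * (Real.sqrt p.2)⁻¹) ^ 3) l (𝓝 ((1 + 3 * 0) ^ 3)) :=
      ((tendsto_const_nhds.add (hsi.const_mul 3)).pow 3)
    have h3 : Tendsto (fun p : ℕ × ℝ => C * ((p.2)⁻¹ + (Real.sqrt p.2)⁻¹) * ((p.1 : ℝ) / p.2 ^ 3)) l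
        (𝓝 (C * (0 + 0) * ρ)) := ((hLi.add hsi).const_mul C).mul hNL
    have h4 : Tendsto (fun p : ℕ × ℝ => 1 + (Real.sqrt p.2)⁻¹) l (𝓝 (1 + 0)) :=
      tendsto_const_nhds.add hsi
    have h5 := ((h1.mul h2).sub h3).div h4 (by norm_num)
    have h6 : (e * (1 + 3 * 0) ^ 3 - C * (0 + 0) * ρ) / (1 + 0) = e := by ring
    rw [h6] at h5
    exact h5
  have hLge : ∀ᶠ p : ℕ × ℝ in l, 4 ≤ p.2 := hL.eventually (eventually_ge_atTop 4)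
  refine tendsto_of_tendsto_of_tendsto_of_le_of_le' hlow he ?_ ?_
  · filter_upwards [hLge] with p hp
    have hp0 : 0 < p.2 := by linarith
    have hsq : Real.sqrt p.2 * Real.sqrt p.2 = p.2 := Real.mul_self_sqrt hp0.le
    have hs0 : 0 < Real.sqrt p.2 := Real.sqrt_pos.mpr hp0
    have hs2 : 2 ≤ Real.sqrt p.2 := by
      rw [show (2 : ℝ) = Real.sqrt (2 * 2) by rw [Real.sqrt_mul_self (by norm_num)]]
      exact Real.sqrt_le_sqrt (by linarith)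
    have key := hF p.1 p.2 (Real.sqrt p.2) (Real.sqrt p.2)⁻¹ hs0 (by nlinarith) (inv_pos.mpr hs0)
    generalize Real.sqrt p.2 = s at hsq hs0 hs2 key ⊢
    have hd : 0 < 1 + s⁻¹ := by positivity
    rw [div_le_iff₀ hd]
    have e1 : f p.1 (p.2 + 3 * s) / (p.2 + 3 * s) ^ 3 * (1 + 3 * s⁻¹) ^ 3 = f p.1 (p.2 + 3 * s) / p.2 ^ 3 := by
      generalize f p.1 (p.2 + 3 * s) = A
      have h6 : (1 + 3 * s⁻¹) ^ 3 = (p.2 + 3 * s) ^ 3 / p.2 ^ 3 := by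
        rw [← div_pow, ← hsq]
        congr 1
        field_simp
      have h7 : (p.2 + 3 * s) ^ 3 ≠ 0 := by positivity
      rw [h6]
      field_simp
    have e2 : C * (p.2⁻¹ + s⁻¹) * ((p.1 : ℝ) / p.2 ^ 3) = (C * (1 + 1 / s⁻¹) * p.1 / s ^ 2) / p.2 ^ 3 := by
      have h8 : p.2⁻¹ + s⁻¹ = (1 + 1 / s⁻¹) / s ^ 2 := by
        rw [← hsq]
        field_simp
      rw [h8]
      ring
    rw [e1, e2, ← sub_div, div_mul_eq_mul_div]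
    refine div_le_div_of_nonneg_right ?_ (by positivity)
    linarith
  · filter_upwards [hLge] with p hp
    have hp0 : 0 < p.2 := by linarith
    exact div_le_div_of_nonneg_right (hG p.1 p.2 hp0) (by positivity)

end TDM_

theorem tdm_proof (hSUB : Stmt_SUB) (hLIM : Stmt_LIM) (hSYM : Stmt_SYM) (hFOL : Stmt_FOL) (hTHS : Stmt_THS)
    (hTHE : Pool.Agent.TBG.Stmt_THE) : Stmt_TDM := by
  intro V hV ρ hρ
  obtain ⟨r, hr, hS⟩ := hSUB V hV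
  obtain ⟨e, he⟩ := hLIM _ r hr hS ρ hρ
  obtain ⟨C, hC, hF⟩ := hFOL
  obtain ⟨-, -, hL, hNL, -⟩ := hTHE ρ hρ
  exact ⟨e, TDM_.squeeze (fun n s => ED V (Fin n) (cube s)) (fun n s => E0 V n s) (thermo ρ) ρ e C hL hNL
    (hTHS ρ hρ) he (fun N L h δ => hF V N L h δ hV) (fun N L hL => hSYM V N L hV hL)⟩

end Pool.Agent.TBA
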